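import Pool.Agent.LG6.Quasi

/-!
LG6: no vertex of one triangle of a neighbourhood has two neighbours in the other triangle; the main
theorem for quasi-line graphs.
-/

set_option autoImplicit false

namespace Pool.Agent.LG6

open Finset

variable {V : Type} {G : SimpleGraph V} [DecidableEq V] [Fintype V]

/-- The mixed case: the two further neighbours of `a₁` are neighbours of `b₁`; then `v, a₁, b₁`
have at most five outer neighbours. -/
theorem mixed (hG : IsKConnected 6 G) {v a₁ a₂ a₃ b₁ b₂ b₃ : V} {A B A₁ B₁ T : Finset V}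
    (hv : QV G v A B)
    (hb : QV G b₁ A₁ B₁) (hb₁ : b₁ ∈ B) (hb₂ : b₂ ∈ B) (hb₃ : b₃ ∈ B)
    (ha₁ : a₁ ∈ A) (ha₂ : a₂ ∈ A) (ha₃ : a₃ ∈ A) (h12 : a₁ ≠ a₂)
    (hb12 : b₁ ≠ b₂) (hb13 : b₁ ≠ b₃) (hb23 : b₂ ≠ b₃)
    (hA : ∀ x ∈ A, x = a₁ ∨ x = a₂ ∨ x = a₃) (hB : ∀ x ∈ B, x = b₁ ∨ x = b₂ ∨ x = b₃)
    (h1 : G.Adj b₁ a₁) (h2 : G.Adj b₁ a₂) (h3 : ¬ G.Adj b₃ a₁)
    (ha3 : ∀ y ∈ B, ¬ G.Adj a₃ y)
    (hTc : T.card = 2)
    (hT : ∀ x ∈ T, G.Adj a₁ x ∧ G.Adj b₁ x ∧ ¬ G.Adj a₂ x ∧ x ≠ a₂)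
    (hT' : ∀ y, G.Adj a₁ y → y = v ∨ y = a₂ ∨ y = a₃ ∨ y = b₁ ∨ y ∈ T)
    {u : V} (hu2 : G.Adj a₂ u) (hu3 : G.Adj a₃ u) (huv : u ≠ v) (hu1 : ¬ G.Adj a₁ u)
    (hua : u ≠ a₁) : False := by
  have hva₁ : G.Adj v a₁ := (hv.nbr a₁).2 (Or.inl ha₁)
  have hva₂ : G.Adj v a₂ := (hv.nbr a₂).2 (Or.inl ha₂)
  have hvb₁ : G.Adj v b₁ := (hv.nbr b₁).2 (Or.inr hb₁)
  have hdis : ∀ x ∈ A, ∀ y ∈ B, x ≠ y := fun x hx y hy h => hv.disj x hx (h ▸ hy)
  set N : Finset V := A₁ ∪ B₁ with hN
  have hNn : ∀ x, G.Adj b₁ x ↔ x ∈ N := fun x => by rw [hN, mem_union]; exact hb.nbr x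
  have hN6 : N.card ≤ 6 := by
    have h4 := card_union_le A₁ B₁
    rw [hb.hA, hb.hB] at h4
    exact h4
  set F : Finset V := {v, a₁, a₂, b₂, b₃} with hF
  have hvb₂ : v ≠ b₂ := fun h => by
    have := (hv.nbr b₂).2 (Or.inr hb₂)
    exact this.ne h
  have hvb₃ : v ≠ b₃ := fun h => by
    have := (hv.nbr b₃).2 (Or.inr hb₃)
    exact this.ne h
  have hF5 : F.card = 5 := by
    rw [hF, card_insert_of_notMem, card_insert_of_notMem, card_insert_of_notMem,
      card_insert_of_notMem, card_singleton]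
    · rw [mem_singleton]; exact hb23
    · simp only [mem_insert, mem_singleton]
      rintro (h | h)
      · exact hdis a₂ ha₂ b₂ hb₂ h
      · exact hdis a₂ ha₂ b₃ hb₃ h
    · simp only [mem_insert, mem_singleton]
      rintro (h | h | h)
      · exact h12 h
      · exact hdis a₁ ha₁ b₂ hb₂ h
      · exact hdis a₁ ha₁ b₃ hb₃ h
    · simp only [mem_insert, mem_singleton]
      rintro (h | h | h | h)
      · exact hva₁.ne h
      · exact hva₂.ne h
      · exact hvb₂ h
      · exact hvb₃ h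
  have hFN : F ⊆ N := by
    intro x hx
    rw [← hNn]
    simp only [hF, mem_insert, mem_singleton] at hx
    rcases hx with rfl | rfl | rfl | rfl | rfl
    · exact hvb₁.symm
    · exact h1
    · exact h2
    · exact hv.cB b₁ hb₁ _ hb₂ hb12
    · exact hv.cB b₁ hb₁ _ hb₃ hb13
  have hW : (N \ F).card ≤ 1 := by
    rw [card_sdiff_of_subset hFN, hF5]
    omega
  have hTN : ∀ x ∈ T, x = b₂ ∨ x ∈ N \ F := by
    intro x hx
    obtain ⟨h4, h5, h6, h7⟩ := hT x hx
    by_cases hxF : x ∈ F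
    · simp only [hF, mem_insert, mem_singleton] at hxF
      rcases hxF with h8 | h8 | h8 | h8 | h8
      · exact absurd (h8 ▸ hva₂.symm) h6
      · exact absurd (h8 ▸ h4) (G.loopless.irrefl a₁)
      · exact absurd h8 h7
      · exact Or.inl h8
      · exact absurd (h8 ▸ h4.symm) h3
    · exact Or.inr (mem_sdiff.2 ⟨(hNn x).1 h5, hxF⟩)
  -- `u` is not in the cut
  have huW : u ∉ N \ F := by
    intro h4
    have h5 : ∀ x ∈ T, x = b₂ := by
      intro x hx
      rcases hTN x hx with h6 | h6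
      · exact h6
      · exfalso
        have h7 := card_le_one.1 hW x h6 u h4
        exact hu1 (h7 ▸ (hT x hx).1)
    have h6 : T ⊆ {b₂} := fun x hx => mem_singleton.2 (h5 x hx)
    have h7 := card_le_card h6
    rw [hTc, card_singleton] at h7
    omega
  set C : Finset V := {a₂, a₃, b₂, b₃} ∪ (N \ F) with hC
  have hC5 : C.card < 6 := by
    have h4 : ({a₂, a₃, b₂, b₃} : Finset V).card ≤ 4 := card_le_four
    have h5 : C.card ≤ _ := card_union_le ({a₂, a₃, b₂, b₃} : Finset V) (N \ F)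
    omega
  have hmem : ∀ x, x ∈ C ↔ (x = a₂ ∨ x = a₃ ∨ x = b₂ ∨ x = b₃) ∨ x ∈ N \ F := by
    intro x
    rw [hC, mem_union]
    simp only [mem_insert, mem_singleton]
  have hvC : v ∉ C := by
    rw [hmem]
    rintro ((h | h | h | h) | h)
    · exact hva₂.ne h
    · exact ((hv.nbr a₃).2 (Or.inl ha₃)).ne h
    · exact hvb₂ h
    · exact hvb₃ h
    · exact (mem_sdiff.1 h).2 (by rw [hF]; exact mem_insert_self _ _)
  have huC : u ∉ C := by
    rw [hmem]
    rintro ((h | h | h | h) | h)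
    · exact hu2.ne h.symm
    · exact hu3.ne h.symm
    · exact ha3 b₂ hb₂ (h ▸ hu3)
    · exact ha3 b₃ hb₃ (h ▸ hu3)
    · exact huW h
  have hub : u ≠ b₁ := fun h => ha3 b₁ hb₁ (h ▸ hu3)
  obtain ⟨g, h, hg, hh, hgh, hgP, hhP⟩ := cross (hG.2 C hC5) {v, a₁, b₁} (e := v) (f := u)
    (fun h => hvC (mem_coe.1 h)) (fun h => huC (mem_coe.1 h)) (Or.inl rfl)
    (by
      rintro (h | h | h)
      · exact huv h
      · exact hua h
      · exact hub h)
  have hh' : h ∉ C := fun h' => hh (mem_coe.2 h')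
  rw [hmem] at hh'
  push Not at hh'
  obtain ⟨⟨n1, n2, n3, n4⟩, n5⟩ := hh'
  have hhP' : h ≠ v ∧ h ≠ a₁ ∧ h ≠ b₁ :=
    ⟨fun h' => hhP (Or.inl h'), fun h' => hhP (Or.inr (Or.inl h')),
      fun h' => hhP (Or.inr (Or.inr h'))⟩
  rcases hgP with hg' | hg' | hg'
  · subst hg'
    rcases (hv.nbr h).1 hgh with h4 | h4
    · rcases hA h h4 with h5 | h5 | h5
      · exact hhP'.2.1 h5
      · exact n1 h5
      · exact n2 h5
    · rcases hB h h4 with h5 | h5 | h5
      · exact hhP'.2.2 h5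
      · exact n3 h5
      · exact n4 h5
  · subst hg'
    rcases hT' h hgh with h4 | h4 | h4 | h4 | h4
    · exact hhP'.1 h4
    · exact n1 h4
    · exact n2 h4
    · exact hhP'.2.2 h4
    · rcases hTN h h4 with h5 | h5
      · exact n3 h5
      · exact n5 h5
  · rw [Set.mem_singleton_iff] at hg'
    subst hg'
    have h4 := (hNn h).1 hgh
    apply n5
    rw [mem_sdiff]
    refine ⟨h4, fun h5 => ?_⟩
    simp only [hF, mem_insert, mem_singleton] at h5
    rcases h5 with h5 | h5 | h5 | h5 | h5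
    · exact hhP'.1 h5
    · exact hhP'.2.1 h5
    · exact n1 h5
    · exact n3 h5
    · exact n4 h5

theorem thick (hG : IsKConnected 6 G) (hm : ¬ HasCompleteMinor 6 G)
    (hq : ∀ v, ∃ A B : Finset V, QV G v A B) {v b₁ a₁ a₂ : V} {A B : Finset V}
    (hv : QV G v A B) (hb₁ : b₁ ∈ B) (ha₁ : a₁ ∈ A) (ha₂ : a₂ ∈ A) (h12 : a₁ ≠ a₂)
    (h1 : G.Adj b₁ a₁) (h2 : G.Adj b₁ a₂) : False := by
  obtain ⟨a₃, ha₃, h31, h32, hA⟩ := third hv.hA ha₁ ha₂ h12
  have hdis : ∀ x ∈ A, ∀ y ∈ B, x ≠ y := fun x hx y hy h => hv.disj x hx (h ▸ hy)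
  have hvA : ∀ x ∈ A, G.Adj v x := fun x hx => (hv.nbr x).2 (Or.inl hx)
  have hvB : ∀ x ∈ B, G.Adj v x := fun x hx => (hv.nbr x).2 (Or.inr hx)
  -- five mutually adjacent vertices
  have five : ∀ x₁ x₂ x₃ x₄ x₅ : V, G.Adj x₁ x₂ → G.Adj x₁ x₃ → G.Adj x₁ x₄ → G.Adj x₁ x₅ →
      G.Adj x₂ x₃ → G.Adj x₂ x₄ → G.Adj x₂ x₅ → G.Adj x₃ x₄ → G.Adj x₃ x₅ → G.Adj x₄ x₅ →
      False := by
    intro x₁ x₂ x₃ x₄ x₅ h12 h13 h14 h15 h23 h24 h25 h34 h35 h45
    have h6 := clique_le hG hm {x₁, x₂, x₃, x₄, x₅} (by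
      intro e he f hf hef
      simp only [mem_insert, mem_singleton] at he hf
      rcases he with rfl | rfl | rfl | rfl | rfl <;> rcases hf with rfl | rfl | rfl | rfl | rfl
      all_goals first
        | exact absurd rfl hef
        | assumption
        | (apply SimpleGraph.Adj.symm; assumption))
    rw [card_insert_of_notMem, card_insert_of_notMem, card_insert_of_notMem,
      card_insert_of_notMem, card_singleton] at h6
    · omega
    · rw [mem_singleton]; exact h45.ne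
    · simp only [mem_insert, mem_singleton]
      rintro (h | h)
      · exact h34.ne h
      · exact h35.ne h
    · simp only [mem_insert, mem_singleton]
      rintro (h | h | h)
      · exact h23.ne h
      · exact h24.ne h
      · exact h25.ne h
    · simp only [mem_insert, mem_singleton]
      rintro (h | h | h | h)
      · exact h12.ne h
      · exact h13.ne h
      · exact h14.ne h
      · exact h15.ne h
  have hb1a3 : ¬ G.Adj b₁ a₃ := fun h =>
    five v b₁ a₁ a₂ a₃ (hvB b₁ hb₁) (hvA a₁ ha₁) (hvA a₂ ha₂) (hvA a₃ ha₃) h1 h2 h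
      (hv.cA a₁ ha₁ a₂ ha₂ h12) (hv.cA a₁ ha₁ a₃ ha₃ h31.symm) (hv.cA a₂ ha₂ a₃ ha₃ h32.symm)
  -- the vertex of `B` without neighbours in `A`
  have hb3 : ∃ b₃ ∈ B, b₃ ≠ b₁ ∧ ∀ x ∈ A, ¬ G.Adj b₃ x := by
    obtain ⟨β₁, hβ₁, e₁⟩ := star_A hG hm hv ha₁
    obtain ⟨β₂, hβ₂, e₂⟩ := star_A hG hm hv ha₂
    obtain ⟨β₃, hβ₃, e₃⟩ := star_A hG hm hv ha₃
    have n₁ : β₁ ≠ b₁ := fun h => h12 (e₁ a₂ ha₂ (h ▸ h2)).symm
    have n₂ : β₂ ≠ b₁ := fun h => h12 (e₂ a₁ ha₁ (h ▸ h1))
    have n₃ : β₃ ≠ b₁ := fun h => h31 (e₃ a₁ ha₁ (h ▸ h1)).symm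
    obtain ⟨c, hc, c', hc', hcb, hcb', hcc, hall⟩ := others hv.hB hb₁
    have hpig : β₁ = β₂ ∨ β₁ = β₃ ∨ β₂ = β₃ := by
      rcases hall β₁ hβ₁ with h | h | h
      · exact absurd h n₁
      · rcases hall β₂ hβ₂ with h' | h' | h'
        · exact absurd h' n₂
        · exact Or.inl (h.trans h'.symm)
        · rcases hall β₃ hβ₃ with h'' | h'' | h''
          · exact absurd h'' n₃
          · exact Or.inr (Or.inl (h.trans h''.symm))
          · exact Or.inr (Or.inr (h'.trans h''.symm))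
      · rcases hall β₂ hβ₂ with h' | h' | h'
        · exact absurd h' n₂
        · rcases hall β₃ hβ₃ with h'' | h'' | h''
          · exact absurd h'' n₃
          · exact Or.inr (Or.inr (h'.trans h''.symm))
          · exact Or.inr (Or.inl (h.trans h''.symm))
        · exact Or.inl (h.trans h'.symm)
    rcases hpig with h | h | h
    · exact ⟨β₁, hβ₁, n₁, fun x hx hax => h12 ((e₁ x hx hax).symm.trans (e₂ x hx (h ▸ hax)))⟩
    · exact ⟨β₁, hβ₁, n₁, fun x hx hax => h31 ((e₁ x hx hax).symm.trans (e₃ x hx (h ▸ hax))).symm⟩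
    · exact ⟨β₂, hβ₂, n₂, fun x hx hax => h32 ((e₂ x hx hax).symm.trans (e₃ x hx (h ▸ hax))).symm⟩
  obtain ⟨b₃, hb₃, hb31, hb3A⟩ := hb3
  -- `a₃` has no neighbour in `B`
  have ha3B : ∀ y ∈ B, ¬ G.Adj a₃ y := by
    obtain ⟨c, hc, c', hc', hcb, hcb', hcc, hall⟩ := others hv.hB hb₁
    have key : ∀ z ∈ B, z ≠ b₁ → ∀ y ∈ B, G.Adj a₃ y → y = z := by
      intro z hz hzb
      obtain ⟨α, hα, e⟩ := star_A hG hm hv.swap hz
      rcases hA α hα with h | h | h
      · exact absurd (e b₁ hb₁ (h ▸ h1.symm)).symm hzb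
      · exact absurd (e b₁ hb₁ (h ▸ h2.symm)).symm hzb
      · exact fun y hy hay => e y hy (h ▸ hay)
    intro y hy hay
    exact hcc ((key c hc hcb y hy hay).symm.trans (key c' hc' hcb' y hy hay))
  obtain ⟨b₂, hb₂, hb21, hb23, hB⟩ := third hv.hB hb₁ hb₃ hb31.symm
  have hB' : ∀ x ∈ B, x = b₁ ∨ x = b₂ ∨ x = b₃ := by
    intro x hx
    rcases hB x hx with h | h | h
    · exact Or.inl h
    · exact Or.inr (Or.inr h)
    · exact Or.inr (Or.inl h)
  have hb2 : ¬ (G.Adj b₂ a₁ ∧ G.Adj b₂ a₂) := fun h =>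
    five v b₁ a₁ a₂ b₂ (hvB b₁ hb₁) (hvA a₁ ha₁) (hvA a₂ ha₂) (hvB b₂ hb₂) h1 h2
      (hv.cB b₁ hb₁ b₂ hb₂ hb21.symm) (hv.cA a₁ ha₁ a₂ ha₂ h12) h.1.symm h.2.symm
  have h12' : G.Adj a₁ a₂ := hv.cA a₁ ha₁ a₂ ha₂ h12
  have h13' : G.Adj a₁ a₃ := hv.cA a₁ ha₁ a₃ ha₃ h31.symm
  have h23' : G.Adj a₂ a₃ := hv.cA a₂ ha₂ a₃ ha₃ h32.symm
  have hab3 : a₃ ≠ b₁ := hdis a₃ ha₃ b₁ hb₁
  have hnab : ¬ G.Adj a₃ b₁ := fun h => hb1a3 h.symm
  -- a fourth common neighbour
  have hr : ∃ r, G.Adj a₁ r ∧ G.Adj a₂ r ∧ r ≠ v ∧ r ≠ a₃ ∧ r ≠ b₁ := by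
    by_contra hno
    push Not at hno
    have hno1 : ∀ x, G.Adj a₁ x → G.Adj a₂ x → x = v ∨ x = a₃ ∨ x = b₁ := by
      intro x hx hx'
      by_cases h3 : x = v
      · exact Or.inl h3
      · by_cases h4 : x = a₃
        · exact Or.inr (Or.inl h4)
        · exact Or.inr (Or.inr (hno x hx hx' h3 h4))
    obtain ⟨A₁, B₁, hq₁⟩ := hq a₁
    obtain ⟨A₂, B₂, hq₂⟩ := hq a₂
    obtain ⟨A₃, B₃, hq₃⟩ := hq b₁
    obtain ⟨A₄, B₄, hq₄⟩ := hq a₃
    obtain ⟨p, T, hp, hTc, hT, hT'⟩ := side hq₁ h12' h13' h1.symm (hvA a₁ ha₁).symm hnab hab3 hno1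
    obtain ⟨p', T', hp', hTc', hU, hU'⟩ := side hq₂ h12'.symm h23' h2.symm (hvA a₂ ha₂).symm
      hnab hab3 (fun x hx hx' => hno1 x hx' hx)
    have hTT : Disjoint T T' := by
      rw [disjoint_left]
      intro x hx hx'
      exact (hT x hx).2.2.1 (hU x hx').1
    -- the same vertex twice: degree seven
    have hsame : ∀ q, (∃ X Y, QV G q X Y) → G.Adj q v → G.Adj q a₁ → G.Adj q a₂ →
        (∀ x ∈ T, G.Adj q x) → (∀ x ∈ T', G.Adj q x) → False := by
      rintro q ⟨X, Y, hqq⟩ hqv hqa₁ hqa₂ hqT hqT'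
      have h5 := hqq.deg (S := insert v (insert a₁ (insert a₂ (T ∪ T')))) (by
        intro x hx
        simp only [mem_insert, mem_union] at hx
        rcases hx with rfl | rfl | rfl | hx | hx
        · exact hqv
        · exact hqa₁
        · exact hqa₂
        · exact hqT x hx
        · exact hqT' x hx)
      rw [card_insert_of_notMem, card_insert_of_notMem, card_insert_of_notMem,
        card_union_of_disjoint hTT, hTc, hTc'] at h5
      · omega
      · rw [mem_union]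
        rintro (h | h)
        · exact (hT _ h).2.2.2 rfl
        · exact (hU _ h).1.ne rfl
      · rw [mem_insert, mem_union]
        rintro (h | h | h)
        · exact h12 h
        · exact (hT _ h).1.ne rfl
        · exact (hU _ h).2.2.2 rfl
      · rw [mem_insert, mem_insert, mem_union]
        rintro (h | h | h | h)
        · exact (hvA a₁ ha₁).ne h
        · exact (hvA a₂ ha₂).ne h
        · exact (hT _ h).2.2.1 (hvA a₂ ha₂).symm
        · exact (hU _ h).2.2.1 (hvA a₁ ha₁).symm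
    rcases hp with rfl | rfl <;> rcases hp' with rfl | rfl
    · exact hsame p' ⟨_, _, hq₄⟩ (hvA p' ha₃).symm h13'.symm h23'.symm (fun x hx => (hT x hx).2.1)
        (fun x hx => (hU x hx).2.1)
    · -- `a₁` towards `a₃`, `a₂` towards `b₁`
      obtain ⟨u, hu⟩ : T.Nonempty := card_pos.1 (by omega)
      obtain ⟨h5, h6, h7, h8⟩ := hT u hu
      refine mixed hG hv hq₃ hb₁ hb₂ hb₃ ha₂ ha₁ ha₃ h12.symm hb21.symm hb31.symm hb23 ?_ hB' h2 h1
        (hb3A a₂ ha₂) ha3B hTc' hU hU' h5 h6 ?_ h7 h8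
      · intro x hx
        rcases hA x hx with h | h | h
        · exact Or.inr (Or.inl h)
        · exact Or.inl h
        · exact Or.inr (Or.inr h)
      · exact fun h => h7 (h ▸ (hvA a₂ ha₂).symm)
    · obtain ⟨u, hu⟩ : T'.Nonempty := card_pos.1 (by omega)
      obtain ⟨h5, h6, h7, h8⟩ := hU u hu
      exact mixed hG hv hq₃ hb₁ hb₂ hb₃ ha₁ ha₂ ha₃ h12 hb21.symm hb31.symm hb23 hA hB' h1 h2
        (hb3A a₁ ha₁) ha3B hTc hT hT' h5 h6 (fun h => h7 (h ▸ (hvA a₁ ha₁).symm)) h7 h8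
    · exact hsame p' ⟨_, _, hq₃⟩ (hvB p' hb₁).symm h1 h2 (fun x hx => (hT x hx).2.1)
        (fun x hx => (hU x hx).2.1)
  obtain ⟨r, hr1, hr2, hrv, hr3, hrb⟩ := hr
  apply hm
  have hvb₁ := hvB b₁ hb₁
  refine link hG {v, a₁, a₂, b₁} ?_ ?_ (s := a₃) (s' := r) (t := b₂) (t' := b₃) ?_ ?_ ?_ ?_
    hr3.symm (hv.cB b₂ hb₂ b₃ hb₃ hb23) ?_
  · rw [card_insert_of_notMem, card_insert_of_notMem, card_insert_of_notMem, card_singleton]
    · rw [mem_singleton]; exact h2.ne.symm
    · simp only [mem_insert, mem_singleton]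
      rintro (h | h)
      · exact h12 h
      · exact h1.ne h.symm
    · simp only [mem_insert, mem_singleton]
      rintro (h | h | h)
      · exact (hvA a₁ ha₁).ne h
      · exact (hvA a₂ ha₂).ne h
      · exact hvb₁.ne h
  · intro e he f hf hef
    have i1 := hvA a₁ ha₁
    have i2 := hvA a₂ ha₂
    simp only [mem_insert, mem_singleton] at he hf
    rcases he with rfl | rfl | rfl | rfl <;> rcases hf with rfl | rfl | rfl | rfl
    all_goals first
      | exact absurd rfl hef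
      | assumption
      | (apply SimpleGraph.Adj.symm; assumption)
  · simp only [mem_insert, mem_singleton]
    rintro (h | h | h | h)
    · exact (hvA a₃ ha₃).ne h.symm
    · exact h31 h
    · exact h32 h
    · exact hab3 h
  · simp only [mem_insert, mem_singleton]
    rintro (h | h | h | h)
    · exact hrv h
    · exact hr1.ne h.symm
    · exact hr2.ne h.symm
    · exact hrb h
  · simp only [mem_insert, mem_singleton]
    rintro (h | h | h | h)
    · exact (hvB b₂ hb₂).ne h.symm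
    · exact hdis a₁ ha₁ b₂ hb₂ h.symm
    · exact hdis a₂ ha₂ b₂ hb₂ h.symm
    · exact hb21 h
  · simp only [mem_insert, mem_singleton]
    rintro (h | h | h | h)
    · exact (hvB b₃ hb₃).ne h.symm
    · exact hdis a₁ ha₁ b₃ hb₃ h.symm
    · exact hdis a₂ ha₂ b₃ hb₃ h.symm
    · exact hb31 h
  · intro k hk σ τ hσ hτ
    simp only [mem_insert, mem_singleton] at hk
    rcases hk with rfl | rfl | rfl | rfl
    · right
      rcases hτ with rfl | rfl
      · exact hvB _ hb₂
      · exact hvB _ hb₃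
    · left
      rcases hσ with rfl | rfl
      · exact h13'
      · exact hr1
    · left
      rcases hσ with rfl | rfl
      · exact h23'
      · exact hr2
    · right
      rcases hτ with rfl | rfl
      · exact hv.cB _ hb₁ _ hb₂ hb21.symm
      · exact hv.cB _ hb₁ _ hb₃ hb31.symm

/-- The main theorem when every neighbourhood is the union of two disjoint triangles. -/
theorem qv_main (hG : IsKConnected 6 G) (hq : ∀ v, ∃ A B : Finset V, QV G v A B) :
    HasCompleteMinor 6 G := by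
  by_contra hm
  choose A B hAB using hq
  have hq' : ∀ v, ∃ A B : Finset V, QV G v A B := fun v => ⟨A v, B v, hAB v⟩
  have hvA : ∀ v, v ∉ A v := fun v h => (((hAB v).nbr v).2 (Or.inl h)).ne rfl
  have hvB : ∀ v, v ∉ B v := fun v h => (((hAB v).nbr v).2 (Or.inr h)).ne rfl
  -- the cliques with four vertices at `f`
  have hcl : ∀ (f : V) (K : Finset V), f ∈ K → K.card = 4 →
      (∀ x ∈ K, ∀ y ∈ K, x ≠ y → G.Adj x y) → K = insert f (A f) ∨ K = insert f (B f) := by
    intro f K hf hK hc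
    have hT : ∀ x ∈ K.erase f, x ∈ A f ∨ x ∈ B f := by
      intro x hx
      rw [mem_erase] at hx
      exact ((hAB f).nbr x).1 (hc f hf x hx.2 hx.1.symm)
    have hTc : (K.erase f).card = 3 := by rw [card_erase_of_mem hf, hK]
    have hsplit : ((K.erase f) ∩ A f).card + ((K.erase f) ∩ B f).card = 3 := by
      rw [← card_union_of_disjoint, ← inter_union_distrib_left, ← hTc]
      · congr 1
        rw [inter_eq_left]
        intro x hx
        rw [mem_union]
        exact hT x hx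
      · rw [disjoint_left]
        intro x hx hx'
        exact (hAB f).disj x (mem_inter.1 hx).2 (mem_inter.1 hx').2
    have hno : ∀ X Y : Finset V, QV G f X Y → 2 ≤ ((K.erase f) ∩ X).card →
        1 ≤ ((K.erase f) ∩ Y).card → False := by
      intro X Y hXY h2 h1
      obtain ⟨x, hx, y, hy, hxy⟩ := one_lt_card.1 (show 1 < ((K.erase f) ∩ X).card from h2)
      obtain ⟨z, hz⟩ := card_pos.1 (show 0 < ((K.erase f) ∩ Y).card from h1)
      rw [mem_inter, mem_erase] at hx hy hz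
      have hne : ∀ w ∈ X, w ≠ z := fun w hw h => hXY.disj w hw (h ▸ hz.2)
      exact thick hG hm hq' hXY hz.2 hx.2 hy.2 hxy
        (hc z hz.1.2 x hx.1.2 (hne x hx.2).symm) (hc z hz.1.2 y hy.1.2 (hne y hy.2).symm)
    have hfull : ∀ X : Finset V, X.card = 3 → ((K.erase f) ∩ X).card = 3 → K = insert f X := by
      intro X hX h3
      have h4 : (K.erase f) ∩ X = K.erase f :=
        eq_of_subset_of_card_le inter_subset_left (by rw [hTc, h3])
      have h5 : (K.erase f) ∩ X = X :=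
        eq_of_subset_of_card_le inter_subset_right (by rw [hX, h3])
      rw [← h5, h4, insert_erase hf]
    have hb1 : ((K.erase f) ∩ A f).card ≤ 3 := (card_le_card inter_subset_left).trans hTc.le
    rcases Nat.lt_or_ge ((K.erase f) ∩ A f).card 1 with h | h
    · exact Or.inr (hfull _ (hAB f).hB (by omega))
    · rcases Nat.lt_or_ge ((K.erase f) ∩ A f).card 2 with h' | h'
      · exact (hno _ _ (hAB f).swap (by omega) h).elim
      · rcases Nat.lt_or_ge ((K.erase f) ∩ A f).card 3 with h'' | h''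
        · exact (hno _ _ (hAB f) h' (by omega)).elim
        · exact Or.inl (hfull _ (hAB f).hA (by omega))
  -- the ends
  have hclA : ∀ v, ∀ x ∈ insert v (A v), ∀ y ∈ insert v (A v), x ≠ y → G.Adj x y := by
    intro v x hx y hy hxy
    rcases mem_insert.1 hx with rfl | hx' <;> rcases mem_insert.1 hy with rfl | hy'
    · exact absurd rfl hxy
    · exact ((hAB _).nbr y).2 (Or.inl hy')
    · exact (((hAB _).nbr x).2 (Or.inl hx')).symm
    · exact (hAB v).cA x hx' y hy' hxy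
  have hclB : ∀ v, ∀ x ∈ insert v (B v), ∀ y ∈ insert v (B v), x ≠ y → G.Adj x y := by
    intro v x hx y hy hxy
    rcases mem_insert.1 hx with rfl | hx' <;> rcases mem_insert.1 hy with rfl | hy'
    · exact absurd rfl hxy
    · exact ((hAB _).nbr y).2 (Or.inr hy')
    · exact (((hAB _).nbr x).2 (Or.inr hx')).symm
    · exact (hAB v).cB x hx' y hy' hxy
  have hcA : ∀ v, (insert v (A v)).card = 4 := fun v => by
    rw [card_insert_of_notMem (hvA v), (hAB v).hA]
  have hcB : ∀ v, (insert v (B v)).card = 4 := fun v => by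
    rw [card_insert_of_notMem (hvB v), (hAB v).hB]
  have hline : G = line (fun v => insert v (A v)) (fun v => insert v (B v)) := by
    ext e f
    constructor
    · intro h
      refine ⟨h.ne, ?_⟩
      rcases ((hAB e).nbr f).1 h with h1 | h1
      · rcases hcl f (insert e (A e)) (mem_insert_of_mem h1) (hcA e) (hclA e) with h2 | h2
        · exact Or.inl h2
        · exact Or.inr (Or.inl h2)
      · rcases hcl f (insert e (B e)) (mem_insert_of_mem h1) (hcB e) (hclB e) with h2 | h2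
        · exact Or.inr (Or.inr (Or.inl h2))
        · exact Or.inr (Or.inr (Or.inr h2))
    · rintro ⟨hne, h | h | h | h⟩
      · exact hclA e e (mem_insert_self _ _) f (by
          rw [show insert e (A e) = insert f (A f) from h]
          exact mem_insert_self _ _) hne
      · exact hclA e e (mem_insert_self _ _) f (by
          rw [show insert e (A e) = insert f (B f) from h]
          exact mem_insert_self _ _) hne
      · exact hclB e e (mem_insert_self _ _) f (by
          rw [show insert e (B e) = insert f (A f) from h]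
          exact mem_insert_self _ _) hne
      · exact hclB e e (mem_insert_self _ _) f (by
          rw [show insert e (B e) = insert f (B f) from h]
          exact mem_insert_self _ _) hne
  apply hm
  rw [hline] at hG ⊢
  apply main _ _ _ hG
  intro e h
  have h1 : insert e (A e) = insert e (B e) := h
  obtain ⟨x, hx⟩ : (A e).Nonempty := card_pos.1 (by rw [(hAB e).hA]; omega)
  have h2 : x ∈ insert e (B e) := h1 ▸ mem_insert_of_mem hx
  rcases mem_insert.1 h2 with h3 | h3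
  · exact hvA e (h3 ▸ hx)
  · exact (hAB e).disj x hx h3

/-- Every 6-connected quasi-line graph has a `K₆` minor. -/
theorem quasi_main (hG : IsKConnected 6 G)
    (hq : ∀ v, ∃ A B : Set V, G.IsClique A ∧ G.IsClique B ∧ G.neighborSet v = A ∪ B) :
    HasCompleteMinor 6 G := by
  by_contra hm
  exact hm (qv_main hG fun v => exists_qv hG hm v (hq v))

end Pool.Agent.LG6
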