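import Mathlib

/-!
LG6: the two definitions of the statement.
-/

set_option autoImplicit false

namespace Pool.Agent.LG6

/-- `G` is `k`-connected: more than `k` vertices, and connected after deleting any fewer than `k`
vertices. -/
def IsKConnected (k : ℕ) {V : Type} [Fintype V] (G : SimpleGraph V) : Prop :=
  k < Fintype.card V ∧
    ∀ S : Finset V, S.card < k → (G.induce ((↑S : Set V)ᶜ)).Connected

/-- `G` has a `K_k` minor: `k` pairwise disjoint connected vertex sets with an edge of `G` between
any two of them. -/
def HasCompleteMinor (k : ℕ) {V : Type} (G : SimpleGraph V) : Prop :=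
  ∃ B : Fin k → Set V,
    (∀ i, (G.induce (B i)).Connected) ∧
    (∀ i j, i ≠ j → Disjoint (B i) (B j)) ∧
    (∀ i j, i ≠ j → ∃ x ∈ B i, ∃ y ∈ B j, G.Adj x y)

end Pool.Agent.LG6
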