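import Pool.Agent.LG6.Main
import Pool.Agent.MK3.Menger

/-!
LG6: general lemmas on 6-connected graphs without a `K₆` minor: cliques, components, two disjoint
paths (from Menger's theorem `MK3.menger2`), and the linking lemma `link`.
-/

set_option autoImplicit false

namespace Pool.Agent.LG6

open Finset Relation

variable {V : Type} {G : SimpleGraph V}

/-- A clique together with further branch sets. -/
theorem clique_model {k : ℕ} (T : Finset V) (hT : ∀ e ∈ T, ∀ f ∈ T, e ≠ f → G.Adj e f)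
    {J : Type} [Fintype J]
    (R : J → Set V) (hR : ∀ j, (G.induce (R j)).Connected)
    (hTR : ∀ e ∈ T, ∀ j, e ∉ R j) (hd : ∀ i j, i ≠ j → Disjoint (R i) (R j))
    (hadj : ∀ i j, i ≠ j → ∃ x ∈ R i, ∃ y ∈ R j, G.Adj x y)
    (hTadj : ∀ e ∈ T, ∀ j, ∃ y ∈ R j, G.Adj e y)
    (hk : T.card + Fintype.card J = k) : HasCompleteMinor k G := by
  apply of_index (ι := T ⊕ J) (by rw [Fintype.card_sum, Fintype.card_coe, hk])
    (Sum.elim (fun e => {e.1}) R)
  · rintro (e | j)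
    · exact single_connected _ _
    · exact hR j
  · rintro (e | i) (f | j) hij
    · simp only [Sum.elim_inl]
      rw [Set.disjoint_singleton]
      intro h
      exact hij (congrArg _ (Subtype.ext h))
    · simp only [Sum.elim_inl, Sum.elim_inr]
      rw [Set.disjoint_singleton_left]
      exact hTR e.1 e.2 j
    · simp only [Sum.elim_inl, Sum.elim_inr]
      rw [Set.disjoint_singleton_right]
      exact hTR f.1 f.2 i
    · exact hd i j (fun h => hij (congrArg _ h))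
  · rintro (e | i) (f | j) hij
    · exact ⟨e.1, rfl, f.1, rfl, hT e.1 e.2 f.1 f.2
        (fun h => hij (congrArg _ (Subtype.ext h)))⟩
    · obtain ⟨y, hy, h⟩ := hTadj e.1 e.2 j
      exact ⟨e.1, rfl, y, hy, h⟩
    · obtain ⟨y, hy, h⟩ := hTadj f.1 f.2 i
      exact ⟨y, hy, f.1, rfl, h.symm⟩
    · exact hadj i j (fun h => hij (congrArg _ h))

/-- A clique and two further branch sets. -/
theorem clique_two (T : Finset V) (hT : ∀ e ∈ T, ∀ f ∈ T, e ≠ f → G.Adj e f) (hT4 : T.card = 4)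
    (P Q : Set V) (hP : (G.induce P).Connected) (hQ : (G.induce Q).Connected)
    (hTP : ∀ e ∈ T, e ∉ P) (hTQ : ∀ e ∈ T, e ∉ Q) (hd : Disjoint P Q)
    (hadj : ∃ x ∈ P, ∃ y ∈ Q, G.Adj x y) (hPT : ∀ e ∈ T, ∃ y ∈ P, G.Adj e y)
    (hQT : ∀ e ∈ T, ∃ y ∈ Q, G.Adj e y) : HasCompleteMinor 6 G := by
  apply clique_model T hT (J := Bool) (fun j => if j then P else Q)
  · intro j
    cases j
    · exact hQ
    · exact hP
  · intro e he j
    cases j
    · exact hTQ e he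
    · exact hTP e he
  · intro i j hij
    cases i <;> cases j
    · exact absurd rfl hij
    · exact hd.symm
    · exact hd
    · exact absurd rfl hij
  · intro i j hij
    obtain ⟨x, hx, y, hy, hxy⟩ := hadj
    cases i <;> cases j
    · exact absurd rfl hij
    · exact ⟨y, hy, x, hx, hxy.symm⟩
    · exact ⟨x, hx, y, hy, hxy⟩
    · exact absurd rfl hij
  · intro e he j
    cases j
    · exact hQT e he
    · exact hPT e he
  · rw [hT4, Fintype.card_bool]

variable [Fintype V] [DecidableEq V]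

/-- There are no cliques with five vertices. -/
theorem clique_le (hG : IsKConnected 6 G) (hm : ¬ HasCompleteMinor 6 G) (T : Finset V)
    (hT : ∀ e ∈ T, ∀ f ∈ T, e ≠ f → G.Adj e f) : T.card ≤ 4 := by
  by_contra hlt
  push Not at hlt
  obtain ⟨T', hT', hc⟩ := exists_subset_card_eq (show 5 ≤ T.card from hlt)
  apply hm
  apply clique_model T' (fun e he f hf => hT e (hT' he) f (hT' hf)) (J := Unit)
    (fun _ => ((↑T' : Set V))ᶜ) (fun _ => hG.2 T' (by omega))
    (fun e he _ h => h (mem_coe.2 he)) (fun i j h => absurd (Subsingleton.elim i j) h)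
    (fun i j h => absurd (Subsingleton.elim i j) h)
  · intro e he _
    by_contra hno
    push Not at hno
    have h1 := min_deg hG e (T'.erase e) (by
      intro f hf
      rw [mem_erase]
      refine ⟨hf.ne.symm, ?_⟩
      by_contra hfx
      exact hno f (fun h => hfx (mem_coe.1 h)) hf) (notMem_erase e _)
    rw [card_erase_of_mem he, hc] at h1
    omega
  · rw [hc, Fintype.card_unit]

omit [Fintype V] [DecidableEq V] in
/-- The component of `d` in `X`. -/
theorem comp (G : SimpleGraph V) (X : Set V) (d : V) (hd : d ∈ X) :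
    ∃ D ⊆ X, d ∈ D ∧ (G.induce D).Connected ∧ ∀ g ∈ D, ∀ h ∈ X, G.Adj g h → h ∈ D := by
  set F : Set (Set V) := {S | d ∈ S ∧ S ⊆ X ∧ (G.induce S).Connected} with hF
  have hd' : ({d} : Set V) ∈ F :=
    ⟨rfl, Set.singleton_subset_iff.2 hd, single_connected G d⟩
  refine ⟨⋃₀ F, Set.sUnion_subset fun S hS => hS.2.1, ⟨{d}, hd', rfl⟩, ?_, ?_⟩
  · apply SimpleGraph.induce_sUnion_connected_of_pairwise_not_disjoint ⟨_, hd'⟩
    · intro s t hs ht
      exact ⟨d, hs.1, ht.1⟩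
    · intro s hs
      exact hs.2.2
  · rintro g ⟨S, hS, hg⟩ h hh hgh
    refine ⟨S ∪ {h}, ⟨Or.inl hS.1, Set.union_subset hS.2.1 (Set.singleton_subset_iff.2 hh), ?_⟩,
      Or.inr rfl⟩
    exact SimpleGraph.connected_induce_union hS.2.2.preconnected
      (single_connected G h).preconnected hg rfl hgh

/-- The outside of a vertex `v` with neighbourhood `N`: a connected set `D` avoiding `N` and `v`. -/
structure Out (G : SimpleGraph V) (v : V) (N : Finset V) (D : Set V) : Prop where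
  conn : (G.induce D).Connected
  nv : v ∉ D
  nN : ∀ x ∈ N, x ∉ D
  att : ∀ x ∈ N, ∃ y ∈ D, G.Adj x y

theorem exists_out (hG : IsKConnected 6 G) {v : V} {N : Finset V}
    (hN : ∀ x, x ∈ N ↔ G.Adj v x) (h6 : N.card = 6) {d : V} (hdv : d ≠ v) (hdN : d ∉ N) :
    ∃ D : Set V, Out G v N D := by
  obtain ⟨D, hDX, hdD, hD, hcl⟩ := comp G {x | x ≠ v ∧ x ∉ N} d ⟨hdv, hdN⟩
  have hvN : v ∉ N := fun h => ((hN v).1 h).ne rfl
  refine ⟨D, hD, fun h => (hDX h).1 rfl, fun x hx h => (hDX h).2 hx, ?_⟩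
  intro u hu
  by_contra hno
  push Not at hno
  classical
  set C := N.filter fun x => ∃ y ∈ D, G.Adj x y with hC
  have hlt : C.card < 6 := by
    rw [← h6]
    apply card_lt_card
    rw [ssubset_iff_of_subset (filter_subset _ _)]
    refine ⟨u, hu, fun h => ?_⟩
    obtain ⟨y, hy, huy⟩ := (mem_filter.1 h).2
    exact hno y hy huy
  obtain ⟨g, h, hg, hh, hgh, hgD, hhD⟩ := cross (hG.2 C hlt) D (e := d) (f := v)
    (fun h => hdN (filter_subset _ _ (mem_coe.1 h)))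
    (fun h => hvN (filter_subset _ _ (mem_coe.1 h))) hdD (fun h => (hDX h).1 rfl)
  by_cases hhv : h = v
  · subst hhv
    exact (hDX hgD).2 ((hN g).2 hgh.symm)
  · by_cases hhN : h ∈ N
    · exact hh (mem_coe.2 (mem_filter.2 ⟨hhN, g, hgD, hgh.symm⟩))
    · exact hhD (hcl g hgD h ⟨hhv, hhN⟩ hgh)

omit [Fintype V] [DecidableEq V] in
theorem reach_conn {R : V → V → Prop} (hR : ∀ x y, R x y → G.Adj x y) (x : V) :
    (G.induce {w | ReflTransGen R x w}).Connected := by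
  rw [SimpleGraph.connected_iff_exists_forall_reachable]
  refine ⟨⟨x, ReflTransGen.refl⟩, ?_⟩
  have h : ∀ w (hw : ReflTransGen R x w),
      (G.induce {w | ReflTransGen R x w}).Reachable ⟨x, ReflTransGen.refl⟩ ⟨w, hw⟩ := by
    intro w hw
    induction hw with
    | refl => exact SimpleGraph.Reachable.refl _
    | tail h1 h2 ih =>
      refine ih.trans (SimpleGraph.Adj.reachable ?_)
      exact hR _ _ h2
  rintro ⟨w, hw⟩
  exact h w hw

/-- Two disjoint paths avoiding a set of at most four vertices. -/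
theorem two_paths (hG : IsKConnected 6 G) (K : Finset V) (hK : K.card ≤ 4) {s s' t t' : V}
    (hs : s ∉ K) (hs' : s' ∉ K) (ht : t ∉ K) (ht' : t' ∉ K) (hss : s ≠ s') (htt : t ≠ t') :
    ∃ P Q : Set V, (G.induce P).Connected ∧ (G.induce Q).Connected ∧ Disjoint P Q ∧
      (∀ x ∈ K, x ∉ P) ∧ (∀ x ∈ K, x ∉ Q) ∧ ((s ∈ P ∧ s' ∈ Q) ∨ (s' ∈ P ∧ s ∈ Q)) ∧
      ((t ∈ P ∧ t' ∈ Q) ∨ (t' ∈ P ∧ t ∈ Q)) := by
  set r : V → V → Prop := fun u v => G.Adj u v ∧ u ∉ K ∧ v ∉ K with hr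
  obtain ⟨P₁, P₂, x₁, x₂, y₁, y₂, hd, hx₁, hx₂, hy₁, hy₂, hxP₁, hxP₂, hr₁, hr₂⟩ :=
    MK3.menger2 r {s, s'} {t, t'} (by
      intro z
      have h1 : ∃ x ∈ ({s, s'} : Set V), x ≠ z := by
        by_cases h : s = z
        · exact ⟨s', Or.inr rfl, fun h' => hss (h.trans h'.symm)⟩
        · exact ⟨s, Or.inl rfl, h⟩
      have h2 : ∃ y ∈ ({t, t'} : Set V), y ≠ z := by
        by_cases h : t = z
        · exact ⟨t', Or.inr rfl, fun h' => htt (h.trans h'.symm)⟩
        · exact ⟨t, Or.inl rfl, h⟩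
      obtain ⟨x, hx, hxz⟩ := h1
      obtain ⟨y, hy, hyz⟩ := h2
      have hxK : x ∉ K := by
        rcases hx with rfl | rfl
        · exact hs
        · exact hs'
      have hyK : y ∉ K := by
        rcases hy with rfl | rfl
        · exact ht
        · exact ht'
      refine ⟨x, hx, y, hy, hxz, ?_⟩
      have hc := hG.2 (insert z K) (by
        have := card_insert_le z K
        omega)
      have hxC : x ∈ ((↑(insert z K) : Set V))ᶜ := by
        intro h
        rcases mem_insert.1 (mem_coe.1 h) with h | h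
        · exact hxz h
        · exact hxK h
      have hyC : y ∈ ((↑(insert z K) : Set V))ᶜ := by
        intro h
        rcases mem_insert.1 (mem_coe.1 h) with h | h
        · exact hyz h
        · exact hyK h
      have h3 := (SimpleGraph.reachable_iff_reflTransGen _ _).1
        (hc.preconnected ⟨x, hxC⟩ ⟨y, hyC⟩)
      refine Relation.ReflTransGen.lift (p := MK3.Del r z) Subtype.val ?_ _ _ h3
      rintro ⟨u, hu⟩ ⟨w, hw⟩ huw
      have hu' : u ∉ insert z K := fun h => hu (mem_coe.2 h)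
      have hw' : w ∉ insert z K := fun h => hw (mem_coe.2 h)
      rw [mem_insert, not_or] at hu' hw'
      exact ⟨⟨huw, hu'.2, hw'.2⟩, hu'.1, hw'.1⟩) ⟨s⟩
  have key : ∀ (P : Set V) (x y : V), x ∈ P → x ∉ K → ReflTransGen (Mader.Res r P) x y →
      (G.induce {w | ReflTransGen (Mader.Res r P) x w}).Connected ∧
      {w | ReflTransGen (Mader.Res r P) x w} ⊆ P ∧
      (∀ z ∈ K, z ∉ {w | ReflTransGen (Mader.Res r P) x w}) := by
    intro P x y hxP hxK _
    refine ⟨reach_conn (fun _ _ h => h.1.1) x, ?_, ?_⟩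
    · intro w hw
      rcases ReflTransGen.cases_tail hw with h | ⟨c, _, hc⟩
      · exact h ▸ hxP
      · exact hc.2.2
    · intro z hz hw
      rcases ReflTransGen.cases_tail hw with h | ⟨c, _, hc⟩
      · exact hxK (h ▸ hz)
      · exact hc.1.2.2 hz
  have hK' : ∀ x ∈ ({s, s'} : Set V), x ∉ K := by
    rintro x (rfl | rfl)
    · exact hs
    · exact hs'
  obtain ⟨c₁, sub₁, nK₁⟩ := key P₁ x₁ y₁ hxP₁ (hK' _ hx₁) hr₁
  obtain ⟨c₂, sub₂, nK₂⟩ := key P₂ x₂ y₂ hxP₂ (hK' _ hx₂) hr₂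
  have hdis : Disjoint {w | ReflTransGen (Mader.Res r P₁) x₁ w}
      {w | ReflTransGen (Mader.Res r P₂) x₂ w} := Set.disjoint_of_subset sub₁ sub₂ hd
  have hne : ∀ u, u ∈ {w | ReflTransGen (Mader.Res r P₁) x₁ w} →
      u ∈ {w | ReflTransGen (Mader.Res r P₂) x₂ w} → False :=
    fun u h1 h2 => (Set.disjoint_left.1 hdis) h1 h2
  refine ⟨_, _, c₁, c₂, hdis, nK₁, nK₂, ?_, ?_⟩
  · have m₁ : ∀ u, x₁ = u → u ∈ {w | ReflTransGen (Mader.Res r P₁) x₁ w} := by
      intro u hu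
      subst hu
      exact ReflTransGen.refl
    have m₂ : ∀ u, x₂ = u → u ∈ {w | ReflTransGen (Mader.Res r P₂) x₂ w} := by
      intro u hu
      subst hu
      exact ReflTransGen.refl
    rcases hx₁ with h1 | h1 <;> rcases hx₂ with h2 | h2
    · exact absurd (m₂ _ h2) (hne s (m₁ _ h1))
    · exact Or.inl ⟨m₁ _ h1, m₂ _ h2⟩
    · exact Or.inr ⟨m₁ _ h1, m₂ _ h2⟩
    · exact absurd (m₂ _ h2) (hne s' (m₁ _ h1))
  · have m₁ : ∀ u, y₁ = u → u ∈ {w | ReflTransGen (Mader.Res r P₁) x₁ w} := by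
      intro u hu
      subst hu
      exact hr₁
    have m₂ : ∀ u, y₂ = u → u ∈ {w | ReflTransGen (Mader.Res r P₂) x₂ w} := by
      intro u hu
      subst hu
      exact hr₂
    rcases hy₁ with h1 | h1 <;> rcases hy₂ with h2 | h2
    · exact absurd (m₂ _ h2) (hne t (m₁ _ h1))
    · exact Or.inl ⟨m₁ _ h1, m₂ _ h2⟩
    · exact Or.inr ⟨m₁ _ h1, m₂ _ h2⟩
    · exact absurd (m₂ _ h2) (hne t' (m₁ _ h1))

/-- The linking lemma. -/
theorem link (hG : IsKConnected 6 G) (K : Finset V) (hK : K.card = 4)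
    (hKc : ∀ e ∈ K, ∀ f ∈ K, e ≠ f → G.Adj e f) {s s' t t' : V}
    (hs : s ∉ K) (hs' : s' ∉ K) (ht : t ∉ K) (ht' : t' ∉ K) (hss : s ≠ s') (htt : G.Adj t t')
    (hcov : ∀ k ∈ K, ∀ σ τ, (σ = s ∨ σ = s') → (τ = t ∨ τ = t') → G.Adj k σ ∨ G.Adj k τ) :
    HasCompleteMinor 6 G := by
  obtain ⟨P, Q, hP, hQ, hd, hKP, hKQ, h1, h2⟩ :=
    two_paths hG K hK.le hs hs' ht ht' hss htt.ne
  have hcP : ∃ σ τ, (σ = s ∨ σ = s') ∧ (τ = t ∨ τ = t') ∧ σ ∈ P ∧ τ ∈ P := by
    rcases h1 with h1 | h1 <;> rcases h2 with h2 | h2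
    · exact ⟨s, t, Or.inl rfl, Or.inl rfl, h1.1, h2.1⟩
    · exact ⟨s, t', Or.inl rfl, Or.inr rfl, h1.1, h2.1⟩
    · exact ⟨s', t, Or.inr rfl, Or.inl rfl, h1.1, h2.1⟩
    · exact ⟨s', t', Or.inr rfl, Or.inr rfl, h1.1, h2.1⟩
  have hcQ : ∃ σ τ, (σ = s ∨ σ = s') ∧ (τ = t ∨ τ = t') ∧ σ ∈ Q ∧ τ ∈ Q := by
    rcases h1 with h1 | h1 <;> rcases h2 with h2 | h2
    · exact ⟨s', t', Or.inr rfl, Or.inr rfl, h1.2, h2.2⟩
    · exact ⟨s', t, Or.inr rfl, Or.inl rfl, h1.2, h2.2⟩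
    · exact ⟨s, t', Or.inl rfl, Or.inr rfl, h1.2, h2.2⟩
    · exact ⟨s, t, Or.inl rfl, Or.inl rfl, h1.2, h2.2⟩
  apply clique_two K hKc hK P Q hP hQ hKP hKQ hd
  · rcases h2 with h2 | h2
    · exact ⟨t, h2.1, t', h2.2, htt⟩
    · exact ⟨t', h2.1, t, h2.2, htt.symm⟩
  · intro k hk
    obtain ⟨σ, τ, hσ, hτ, hσP, hτP⟩ := hcP
    rcases hcov k hk σ τ hσ hτ with h | h
    · exact ⟨σ, hσP, h⟩
    · exact ⟨τ, hτP, h⟩
  · intro k hk
    obtain ⟨σ, τ, hσ, hτ, hσP, hτP⟩ := hcQ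
    rcases hcov k hk σ τ hσ hτ with h | h
    · exact ⟨σ, hσP, h⟩
    · exact ⟨τ, hτP, h⟩

end Pool.Agent.LG6
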