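import Pool.Agent.LG6.Six

/-!
LG6: the local interface for claw-free graphs: every vertex has exactly six neighbours.
-/

set_option autoImplicit false

namespace Pool.Agent.LG6

open Finset

variable {V : Type} {G : SimpleGraph V}

/-- The local facts. -/
structure Lo (G : SimpleGraph V) : Prop where
  sym : ∀ x y, G.Adj x y → G.Adj y x
  irr : ∀ x, ¬ G.Adj x x
  claw : ∀ u a b c : V, G.Adj u a → G.Adj u b → G.Adj u c → a ≠ b → a ≠ c → b ≠ c →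
    G.Adj a b ∨ G.Adj a c ∨ G.Adj b c
  five : ∀ x₁ x₂ x₃ x₄ x₅ : V, G.Adj x₁ x₂ → G.Adj x₁ x₃ → G.Adj x₁ x₄ → G.Adj x₁ x₅ →
    G.Adj x₂ x₃ → G.Adj x₂ x₄ → G.Adj x₂ x₅ → G.Adj x₃ x₄ → G.Adj x₃ x₅ → G.Adj x₄ x₅ → False
  dom : ∀ v t₁ t₂ t₃ z z' h : V, G.Adj v t₁ → G.Adj v t₂ → G.Adj v t₃ → G.Adj v z → G.Adj v z' →
    G.Adj v h → G.Adj t₁ t₂ → G.Adj t₁ t₃ → G.Adj t₂ t₃ → G.Adj z z' →
    (z ≠ t₁ ∧ z ≠ t₂ ∧ z ≠ t₃ ∧ z' ≠ t₁ ∧ z' ≠ t₂ ∧ z' ≠ t₃ ∧ h ≠ t₁ ∧ h ≠ t₂ ∧ h ≠ t₃ ∧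
      h ≠ z ∧ h ≠ z') →
    (G.Adj t₁ z ∨ G.Adj t₁ z') → (G.Adj t₂ z ∨ G.Adj t₂ z') → (G.Adj t₃ z ∨ G.Adj t₃ z') → False
  nbr : ∀ v, ∃ N : Finset V, N.card = 6 ∧ ∀ x, x ∈ N ↔ G.Adj v x
  out : ∀ v w : V, G.Adj v w → ¬ (∀ x, G.Adj w x → x = v ∨ G.Adj v x)

theorem Lo.mk' [Fintype V] (hG : IsKConnected 6 G) (hm : ¬ HasCompleteMinor 6 G)
    (hc : ClawFree G) : Lo G := by
  classical
  have nbr : ∀ v, ∃ N : Finset V, N.card = 6 ∧ ∀ x, x ∈ N ↔ G.Adj v x := by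
    intro v
    have hN : ∀ x, x ∈ univ.filter (fun x => G.Adj v x) ↔ G.Adj v x := fun x => by
      rw [mem_filter]
      exact ⟨fun h => h.2, fun h => ⟨mem_univ _, h⟩⟩
    exact ⟨_, card_six hG hm hc hN, hN⟩
  have att : ∀ (v : V) (N : Finset V), N.card = 6 → (∀ x, x ∈ N ↔ G.Adj v x) →
      ∃ D : Set V, (G.induce D).Connected ∧ v ∉ D ∧ (∀ x ∈ N, x ∉ D) ∧
        ∀ x ∈ N, ∃ y ∈ D, G.Adj x y := by
    intro v N h6 hN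
    obtain ⟨d, hdv, hdN⟩ := exists_far hG hm (v := v) h6
    obtain ⟨D, hD, hvD, hND, S, hSN, hS6, hS⟩ := exists_att hG hN hdv hdN
    have hSe : S = N := eq_of_subset_of_card_le hSN (by omega)
    exact ⟨D, hD, hvD, hND, hSe ▸ hS⟩
  refine ⟨fun x y h => h.symm, fun x h => h.ne rfl, hc, ?_, ?_, nbr, ?_⟩
  · intro x₁ x₂ x₃ x₄ x₅ h12 h13 h14 h15 h23 h24 h25 h34 h35 h45
    exact Pool.Agent.LG6.five hG hm h12 h13 h14 h15 h23 h24 h25 h34 h35 h45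
  · rintro v t₁ t₂ t₃ z z' h a1 a2 a3 az az' ah h12 h13 h23 hz
      ⟨n1, n2, n3, n4, n5, n6, n7, n8, n9, n10, n11⟩ d1 d2 d3
    obtain ⟨N, h6, hN⟩ := nbr v
    obtain ⟨D, hD, hvD, hND, hS⟩ := att v N h6 hN
    have dd : ∀ t, (G.Adj t z ∨ G.Adj t z') → ∃ y ∈ ({z, z'} : Set V), G.Adj t y := by
      rintro t (h' | h')
      · exact ⟨z, Or.inl rfl, h'⟩
      · exact ⟨z', Or.inr rfl, h'⟩
    refine dom7 hm hN hD hvD hND (Subset.refl N) hS ((hN _).2 a1) ((hN _).2 a2) ((hN _).2 a3)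
      ((hN _).2 ah) h12 h13 h23 {z, z'} (SimpleGraph.induce_pair_connected_of_adj hz) ?_
      ⟨z, Or.inl rfl, (hN _).2 az⟩ ?_ ?_ ?_ ?_ n7 n8 n9 (dd _ d1) (dd _ d2) (dd _ d3)
    · rintro y (rfl | hy)
      · exact (hN _).2 az
      · rw [Set.mem_singleton_iff] at hy
        exact hy ▸ (hN _).2 az'
    · rintro (hy | hy)
      · exact n10 hy
      · exact n11 hy
    · rintro (hy | hy)
      · exact n1 hy.symm
      · exact n4 (Set.mem_singleton_iff.1 hy).symm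
    · rintro (hy | hy)
      · exact n2 hy.symm
      · exact n5 (Set.mem_singleton_iff.1 hy).symm
    · rintro (hy | hy)
      · exact n3 hy.symm
      · exact n6 (Set.mem_singleton_iff.1 hy).symm
  · intro v w hvw hw
    obtain ⟨N, h6, hN⟩ := nbr v
    obtain ⟨D, hD, hvD, hND, hS⟩ := att v N h6 hN
    obtain ⟨y, hy, hwy⟩ := hS w ((hN w).2 hvw)
    rcases hw y hwy with h | h
    · exact hvD (h ▸ hy)
    · exact hND y ((hN y).2 h) hy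

/-- Seven different neighbours. -/
theorem Lo.seven (L : Lo G) {v a b c d e f g : V} (ha : G.Adj v a) (hb : G.Adj v b)
    (hc : G.Adj v c) (hd : G.Adj v d) (he : G.Adj v e) (hf : G.Adj v f) (hg : G.Adj v g)
    (hn : a ≠ b ∧ a ≠ c ∧ a ≠ d ∧ a ≠ e ∧ a ≠ f ∧ a ≠ g ∧ b ≠ c ∧ b ≠ d ∧ b ≠ e ∧ b ≠ f ∧ b ≠ g ∧
      c ≠ d ∧ c ≠ e ∧ c ≠ f ∧ c ≠ g ∧ d ≠ e ∧ d ≠ f ∧ d ≠ g ∧ e ≠ f ∧ e ≠ g ∧ f ≠ g) : False := by
  classical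
  obtain ⟨N, h6, hN⟩ := L.nbr v
  have h1 : ({a, b, c, d, e, f, g} : Finset V) ⊆ N := by
    intro x hx
    simp only [mem_insert, mem_singleton] at hx
    rw [hN]
    rcases hx with rfl | rfl | rfl | rfl | rfl | rfl | rfl <;> assumption
  have h2 := card_le_card h1
  have h3 : ({a, b, c, d, e, f, g} : Finset V).card = 7 := by
    have : ([a, b, c, d, e, f, g] : List V).Nodup := by
      simp only [List.nodup_cons, List.mem_cons, List.not_mem_nil, or_false, not_or]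
      refine ⟨⟨hn.1, hn.2.1, hn.2.2.1, hn.2.2.2.1, hn.2.2.2.2.1, hn.2.2.2.2.2.1⟩, ?_⟩
      obtain ⟨-, -, -, -, -, -, h⟩ := hn
      refine ⟨⟨h.1, h.2.1, h.2.2.1, h.2.2.2.1, h.2.2.2.2.1⟩, ?_⟩
      obtain ⟨-, -, -, -, -, h⟩ := h
      refine ⟨⟨h.1, h.2.1, h.2.2.1, h.2.2.2.1⟩, ?_⟩
      obtain ⟨-, -, -, -, h⟩ := h
      refine ⟨⟨h.1, h.2.1, h.2.2.1⟩, ⟨h.2.2.2.1, h.2.2.2.2.1⟩, h.2.2.2.2.2, ?_⟩
      exact ⟨fun h => h, List.nodup_nil⟩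
    have h4 := List.toFinset_card_of_nodup this
    simpa using h4
  omega

/-- Six different neighbours are all neighbours. -/
theorem Lo.all (L : Lo G) {v a b c d e f : V} (ha : G.Adj v a) (hb : G.Adj v b)
    (hc : G.Adj v c) (hd : G.Adj v d) (he : G.Adj v e) (hf : G.Adj v f)
    (hn : a ≠ b ∧ a ≠ c ∧ a ≠ d ∧ a ≠ e ∧ a ≠ f ∧ b ≠ c ∧ b ≠ d ∧ b ≠ e ∧ b ≠ f ∧
      c ≠ d ∧ c ≠ e ∧ c ≠ f ∧ d ≠ e ∧ d ≠ f ∧ e ≠ f) :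
    ∀ y, G.Adj v y → y = a ∨ y = b ∨ y = c ∨ y = d ∨ y = e ∨ y = f := by
  intro y hy
  by_contra hno
  push Not at hno
  obtain ⟨m1, m2, m3, m4, m5, m6⟩ := hno
  obtain ⟨n1, n2, n3, n4, n5, n6, n7, n8, n9, n10, n11, n12, n13, n14, n15⟩ := hn
  exact L.seven ha hb hc hd he hf hy
    ⟨n1, n2, n3, n4, n5, m1.symm, n6, n7, n8, n9, m2.symm, n10, n11, n12, m3.symm, n13, n14,
      m4.symm, n15, m5.symm, m6.symm⟩

/-- Five different neighbours: there is a sixth one. -/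
theorem Lo.more5 (L : Lo G) {v a b c d e : V} (ha : G.Adj v a) (hb : G.Adj v b)
    (hc : G.Adj v c) (hd : G.Adj v d) (he : G.Adj v e)
    (hn : a ≠ b ∧ a ≠ c ∧ a ≠ d ∧ a ≠ e ∧ b ≠ c ∧ b ≠ d ∧ b ≠ e ∧ c ≠ d ∧ c ≠ e ∧ d ≠ e) :
    ∃ f, G.Adj v f ∧ f ≠ a ∧ f ≠ b ∧ f ≠ c ∧ f ≠ d ∧ f ≠ e ∧
      ∀ y, G.Adj v y → y = a ∨ y = b ∨ y = c ∨ y = d ∨ y = e ∨ y = f := by
  classical
  obtain ⟨N, h6, hN⟩ := L.nbr v
  have h1 : ∃ f ∈ N, f ∉ ({a, b, c, d, e} : Finset V) := by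
    by_contra h
    push Not at h
    have h2 := card_le_card (show N ⊆ {a, b, c, d, e} from h)
    have h3 : ({a, b, c, d, e} : Finset V).card ≤ 5 := card_le_five
    omega
  obtain ⟨f, hf, hf'⟩ := h1
  rw [hN] at hf
  simp only [mem_insert, mem_singleton, not_or] at hf'
  obtain ⟨m1, m2, m3, m4, m5⟩ := hf'
  obtain ⟨n1, n2, n3, n4, n5, n6, n7, n8, n9, n10⟩ := hn
  exact ⟨f, hf, m1, m2, m3, m4, m5, L.all ha hb hc hd he hf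
    ⟨n1, n2, n3, n4, Ne.symm m1, n5, n6, n7, Ne.symm m2, n8, n9, Ne.symm m3, n10, Ne.symm m4,
      Ne.symm m5⟩⟩

/-- Four different neighbours: there are two more. -/
theorem Lo.more4 (L : Lo G) {v a b c d : V} (ha : G.Adj v a) (hb : G.Adj v b)
    (hc : G.Adj v c) (hd : G.Adj v d)
    (hn : a ≠ b ∧ a ≠ c ∧ a ≠ d ∧ b ≠ c ∧ b ≠ d ∧ c ≠ d) :
    ∃ e f, G.Adj v e ∧ G.Adj v f ∧ e ≠ f ∧ (e ≠ a ∧ e ≠ b ∧ e ≠ c ∧ e ≠ d) ∧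
      (f ≠ a ∧ f ≠ b ∧ f ≠ c ∧ f ≠ d) ∧
      ∀ y, G.Adj v y → y = a ∨ y = b ∨ y = c ∨ y = d ∨ y = e ∨ y = f := by
  classical
  obtain ⟨N, h6, hN⟩ := L.nbr v
  have h1 : ∃ e ∈ N, e ∉ ({a, b, c, d} : Finset V) := by
    by_contra h
    push Not at h
    have h2 := card_le_card (show N ⊆ {a, b, c, d} from h)
    have h3 : ({a, b, c, d} : Finset V).card ≤ 4 := card_le_four
    omega
  obtain ⟨e, he, he'⟩ := h1
  rw [hN] at he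
  simp only [mem_insert, mem_singleton, not_or] at he'
  obtain ⟨m1, m2, m3, m4⟩ := he'
  obtain ⟨n1, n2, n3, n4, n5, n6⟩ := hn
  obtain ⟨f, hf, k1, k2, k3, k4, k5, hall⟩ := L.more5 ha hb hc hd he
    ⟨n1, n2, n3, Ne.symm m1, n4, n5, Ne.symm m2, n6, Ne.symm m3, Ne.symm m4⟩
  exact ⟨e, f, he, hf, k5.symm, ⟨m1, m2, m3, m4⟩, ⟨k1, k2, k3, k4⟩, hall⟩

end Pool.Agent.LG6
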