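import Pool.Agent.LG6.Thick

/-!
LG6: claw-free graphs.  `att`: the component outside a vertex; `dom7`: a triangle and a connected set
dominating it inside a neighbourhood; `deg_le`: the degrees are at most six.
-/

set_option autoImplicit false

namespace Pool.Agent.LG6

open Finset

variable {V : Type} {G : SimpleGraph V}

/-- No induced `K_{1,3}`. -/
def ClawFree (G : SimpleGraph V) : Prop :=
  ∀ u a b c : V, G.Adj u a → G.Adj u b → G.Adj u c → a ≠ b → a ≠ c → b ≠ c →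
    G.Adj a b ∨ G.Adj a c ∨ G.Adj b c

variable [DecidableEq V] [Fintype V]

theorem five (hG : IsKConnected 6 G) (hm : ¬ HasCompleteMinor 6 G) {x₁ x₂ x₃ x₄ x₅ : V}
    (h12 : G.Adj x₁ x₂) (h13 : G.Adj x₁ x₃) (h14 : G.Adj x₁ x₄) (h15 : G.Adj x₁ x₅)
    (h23 : G.Adj x₂ x₃) (h24 : G.Adj x₂ x₄) (h25 : G.Adj x₂ x₅) (h34 : G.Adj x₃ x₄)
    (h35 : G.Adj x₃ x₅) (h45 : G.Adj x₄ x₅) : False := by
  have h6 := clique_le hG hm {x₁, x₂, x₃, x₄, x₅} (by
    intro e he f hf hef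
    simp only [mem_insert, mem_singleton] at he hf
    rcases he with rfl | rfl | rfl | rfl | rfl <;> rcases hf with rfl | rfl | rfl | rfl | rfl
    all_goals first
      | exact absurd rfl hef
      | assumption
      | (apply SimpleGraph.Adj.symm; assumption))
  rw [card_insert_of_notMem, card_insert_of_notMem, card_insert_of_notMem,
    card_insert_of_notMem, card_singleton] at h6
  · omega
  · rw [mem_singleton]; exact h45.ne
  · simp only [mem_insert, mem_singleton]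
    rintro (h | h)
    · exact h34.ne h
    · exact h35.ne h
  · simp only [mem_insert, mem_singleton]
    rintro (h | h | h)
    · exact h23.ne h
    · exact h24.ne h
    · exact h25.ne h
  · simp only [mem_insert, mem_singleton]
    rintro (h | h | h | h)
    · exact h12.ne h
    · exact h13.ne h
    · exact h14.ne h
    · exact h15.ne h

/-- The outside of `v`, attached to at least six neighbours. -/
theorem exists_att (hG : IsKConnected 6 G) {v : V} {N : Finset V}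
    (hN : ∀ x, x ∈ N ↔ G.Adj v x) {d : V} (hdv : d ≠ v) (hdN : d ∉ N) :
    ∃ D : Set V, (G.induce D).Connected ∧ v ∉ D ∧ (∀ x ∈ N, x ∉ D) ∧
      ∃ S ⊆ N, 6 ≤ S.card ∧ ∀ x ∈ S, ∃ y ∈ D, G.Adj x y := by
  classical
  obtain ⟨D, hDX, hdD, hD, hcl⟩ := comp G {x | x ≠ v ∧ x ∉ N} d ⟨hdv, hdN⟩
  have hvN : v ∉ N := fun h => ((hN v).1 h).ne rfl
  refine ⟨D, hD, fun h => (hDX h).1 rfl, fun x hx h => (hDX h).2 hx,
    N.filter (fun x => ∃ y ∈ D, G.Adj x y), filter_subset _ _, ?_,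
    fun x hx => (mem_filter.1 hx).2⟩
  by_contra hlt
  push Not at hlt
  obtain ⟨g, h, hg, hh, hgh, hgD, hhD⟩ := cross (hG.2 _ hlt) D (e := d) (f := v)
    (fun h => hdN (filter_subset _ _ (mem_coe.1 h)))
    (fun h => hvN (filter_subset _ _ (mem_coe.1 h))) hdD (fun h => (hDX h).1 rfl)
  by_cases hhv : h = v
  · subst hhv
    exact (hDX hgD).2 ((hN g).2 hgh.symm)
  · by_cases hhN : h ∈ N
    · exact hh (mem_coe.2 (mem_filter.2 ⟨hhN, g, hgD, hgh.symm⟩))
    · exact hhD (hcl g hgD h ⟨hhv, hhN⟩ hgh)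

/-- A triangle `t₁ t₂ t₃` dominated by a connected set `Z` in the neighbourhood of `v`. -/
theorem dom7 (hm : ¬ HasCompleteMinor 6 G) {v : V} {N S : Finset V}
    (hN : ∀ x, x ∈ N ↔ G.Adj v x) {D : Set V} (hD : (G.induce D).Connected) (hvD : v ∉ D)
    (hND : ∀ x ∈ N, x ∉ D) (hSN : S ⊆ N) (hS : ∀ x ∈ S, ∃ y ∈ D, G.Adj x y)
    {t₁ t₂ t₃ h : V} (ht₁ : t₁ ∈ S) (ht₂ : t₂ ∈ S) (ht₃ : t₃ ∈ S) (hh : h ∈ S)
    (h12 : G.Adj t₁ t₂) (h13 : G.Adj t₁ t₃) (h23 : G.Adj t₂ t₃)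
    (Z : Set V) (hZ : (G.induce Z).Connected) (hZN : ∀ z ∈ Z, z ∈ N) (hZS : ∃ z ∈ Z, z ∈ S)
    (hhZ : h ∉ Z) (h1Z : t₁ ∉ Z) (h2Z : t₂ ∉ Z) (h3Z : t₃ ∉ Z) (hh1 : h ≠ t₁) (hh2 : h ≠ t₂)
    (hh3 : h ≠ t₃) (d1 : ∃ z ∈ Z, G.Adj t₁ z) (d2 : ∃ z ∈ Z, G.Adj t₂ z)
    (d3 : ∃ z ∈ Z, G.Adj t₃ z) : False := by
  have hv : ∀ x ∈ S, G.Adj v x := fun x hx => (hN x).1 (hSN hx)
  obtain ⟨y, hy, hhy⟩ := hS h hh
  apply hm
  have v1 := hv t₁ ht₁
  have v2 := hv t₂ ht₂
  have v3 := hv t₃ ht₃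
  have vh := hv h hh
  have hvN : v ∉ N := fun h => ((hN v).1 h).ne rfl
  apply clique_two {v, t₁, t₂, t₃} ?_ ?_ (D ∪ {h}) Z
    (SimpleGraph.connected_induce_union hD.preconnected (single_connected G h).preconnected
      hy rfl hhy.symm) hZ
  · intro e he hP
    simp only [mem_insert, mem_singleton] at he
    rcases hP with hP | hP
    · rcases he with rfl | rfl | rfl | rfl
      · exact hvD hP
      · exact hND _ (hSN ht₁) hP
      · exact hND _ (hSN ht₂) hP
      · exact hND _ (hSN ht₃) hP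
    · rw [Set.mem_singleton_iff] at hP
      rcases he with rfl | rfl | rfl | rfl
      · exact vh.ne hP
      · exact hh1 hP.symm
      · exact hh2 hP.symm
      · exact hh3 hP.symm
  · intro e he hQ
    simp only [mem_insert, mem_singleton] at he
    rcases he with rfl | rfl | rfl | rfl
    · exact hvN (hZN _ hQ)
    · exact h1Z hQ
    · exact h2Z hQ
    · exact h3Z hQ
  · rw [Set.disjoint_left]
    rintro x (hx | hx) hx'
    · exact hND x (hZN x hx') hx
    · rw [Set.mem_singleton_iff] at hx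
      exact hhZ (hx ▸ hx')
  · obtain ⟨z, hz, hzS⟩ := hZS
    obtain ⟨y', hy', hzy'⟩ := hS z hzS
    exact ⟨y', Or.inl hy', z, hz, hzy'.symm⟩
  · intro e he
    simp only [mem_insert, mem_singleton] at he
    rcases he with rfl | rfl | rfl | rfl
    · exact ⟨h, Or.inr rfl, vh⟩
    · obtain ⟨z, hz, hz'⟩ := hS _ ht₁
      exact ⟨z, Or.inl hz, hz'⟩
    · obtain ⟨z, hz, hz'⟩ := hS _ ht₂
      exact ⟨z, Or.inl hz, hz'⟩
    · obtain ⟨z, hz, hz'⟩ := hS _ ht₃
      exact ⟨z, Or.inl hz, hz'⟩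
  · intro e he
    simp only [mem_insert, mem_singleton] at he
    rcases he with rfl | rfl | rfl | rfl
    · obtain ⟨z, hz, hzS⟩ := hZS
      exact ⟨z, hz, hv z hzS⟩
    · exact d1
    · exact d2
    · exact d3
  · intro e he f hf hef
    simp only [mem_insert, mem_singleton] at he hf
    rcases he with rfl | rfl | rfl | rfl <;> rcases hf with rfl | rfl | rfl | rfl
    all_goals first
      | exact absurd rfl hef
      | assumption
      | (apply SimpleGraph.Adj.symm; assumption)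
  · rw [card_insert_of_notMem, card_insert_of_notMem, card_insert_of_notMem, card_singleton]
    · rw [mem_singleton]; exact h23.ne
    · simp only [mem_insert, mem_singleton]
      rintro (h | h)
      · exact h12.ne h
      · exact h13.ne h
    · simp only [mem_insert, mem_singleton]
      rintro (h | h | h)
      · exact v1.ne h
      · exact v2.ne h
      · exact v3.ne h

/-- A triangle in six vertices of a neighbourhood. -/
theorem ramsey (hc : ClawFree G) {v : V} {S : Finset V} (hS : ∀ x ∈ S, G.Adj v x)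
    (h6 : S.card = 6) : ∃ t₁ ∈ S, ∃ t₂ ∈ S, ∃ t₃ ∈ S, G.Adj t₁ t₂ ∧ G.Adj t₁ t₃ ∧
      G.Adj t₂ t₃ := by
  classical
  obtain ⟨x, hx⟩ : S.Nonempty := card_pos.1 (by omega)
  have h1 := card_filter_add_card_filter_not (s := S.erase x) (p := fun y => G.Adj x y)
  rw [card_erase_of_mem hx, h6] at h1
  rcases Nat.lt_or_ge 2 ((S.erase x).filter fun y => G.Adj x y).card with h2 | h2
  · obtain ⟨a, ha, b, hb, c, hc', hab, hac, hbc⟩ := two_lt_card.1 h2
    rw [mem_filter, mem_erase] at ha hb hc'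
    rcases hc v a b c (hS a ha.1.2) (hS b hb.1.2) (hS c hc'.1.2) hab hac hbc with h | h | h
    · exact ⟨x, hx, a, ha.1.2, b, hb.1.2, ha.2, hb.2, h⟩
    · exact ⟨x, hx, a, ha.1.2, c, hc'.1.2, ha.2, hc'.2, h⟩
    · exact ⟨x, hx, b, hb.1.2, c, hc'.1.2, hb.2, hc'.2, h⟩
  · obtain ⟨a, ha, b, hb, c, hc', hab, hac, hbc⟩ := two_lt_card.1
      (show 2 < ((S.erase x).filter fun y => ¬ G.Adj x y).card by omega)
    rw [mem_filter, mem_erase] at ha hb hc'
    have key : ∀ p q, p ∈ S → q ∈ S → p ≠ x → q ≠ x → p ≠ q → ¬ G.Adj x p → ¬ G.Adj x q →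
        G.Adj p q := by
      intro p q hp hq hpx hqx hpq hxp hxq
      rcases hc v x p q (hS x hx) (hS p hp) (hS q hq) hpx.symm hqx.symm hpq with h | h | h
      · exact absurd h hxp
      · exact absurd h hxq
      · exact h
    exact ⟨a, ha.1.2, b, hb.1.2, c, hc'.1.2, key a b ha.1.2 hb.1.2 ha.1.1 hb.1.1 hab ha.2 hb.2,
      key a c ha.1.2 hc'.1.2 ha.1.1 hc'.1.1 hac ha.2 hc'.2,
      key b c hb.1.2 hc'.1.2 hb.1.1 hc'.1.1 hbc hb.2 hc'.2⟩

end Pool.Agent.LG6
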