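import Pool.Agent.DT3.AppB

/-!
LG6: every 6-connected line graph has a `K₆` minor (problem MP_1fb202_co).

`trees`: a finite loopless multigraph with vertex set `S` and edge set `F`, `|F| = 2 (|S| - 1)`, in
which every nonempty vertex set `W` spans at most `2 (|W| - 1)` edges, has two disjoint edge sets
each of which connects `S` (Nash-Williams, for two trees; from Edmonds' theorem `DT3.parts` for the
graphic matroid, given by the linear functionals `f (a e) - f (b e)`).
-/

set_option autoImplicit false

namespace Pool.Agent.LG6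

open Finset

section

variable {V E : Type} [Fintype E] [DecidableEq V] [DecidableEq E] (a b : E → V) (S : Finset V)

/-- The functional of an edge. -/
noncomputable def ell (e : E) : (S → ℚ) →ₗ[ℚ] ℚ :=
  if h : a e ∈ S ∧ b e ∈ S then
    (LinearMap.proj (R := ℚ) (φ := fun _ : S => ℚ) ⟨a e, h.1⟩ : (S → ℚ) →ₗ[ℚ] ℚ)
      - (LinearMap.proj (R := ℚ) (φ := fun _ : S => ℚ) ⟨b e, h.2⟩ : (S → ℚ) →ₗ[ℚ] ℚ)
  else 0

/-- The functions on `S` that agree at the ends of the edges in `Y`. -/
noncomputable def kr (Y : Finset E) : Submodule ℚ (S → ℚ) :=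
  Y.inf fun e => LinearMap.ker (ell a b S e)

/-- The rank in the graphic matroid. -/
noncomputable def rk (Y : Finset E) : ℕ := S.card - Module.finrank ℚ (kr a b S Y)

theorem mem_kr {Y : Finset E} {f : S → ℚ} :
    f ∈ kr a b S Y ↔ ∀ e ∈ Y, ell a b S e f = 0 := by
  unfold kr
  rw [Submodule.mem_finsetInf]
  simp only [LinearMap.mem_ker]

theorem finrank_le (U : Submodule ℚ (S → ℚ)) : Module.finrank ℚ U ≤ S.card := by
  have h := Submodule.finrank_le U
  rw [Module.finrank_fintype_fun_eq_card, Fintype.card_coe] at h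
  exact h

theorem rank_fn : DT3.RankFn (rk a b S) where
  empty := by
    unfold rk kr
    rw [inf_empty, finrank_top, Module.finrank_fintype_fun_eq_card, Fintype.card_coe,
      Nat.sub_self]
  mono X Y h := by
    unfold rk
    have h1 : kr a b S Y ≤ kr a b S X := by
      unfold kr
      exact Finset.inf_mono h
    have h2 := Submodule.finrank_mono h1
    omega
  insert_le x X := by
    unfold rk
    have h1 : kr a b S (insert x X) = LinearMap.ker (ell a b S x) ⊓ kr a b S X := by
      unfold kr
      exact Finset.inf_insert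
    have h2 := Submodule.finrank_sup_add_finrank_inf_eq (LinearMap.ker (ell a b S x)) (kr a b S X)
    have h3 := finrank_le S (LinearMap.ker (ell a b S x) ⊔ kr a b S X)
    have h4 := LinearMap.finrank_range_add_finrank_ker (ell a b S x)
    rw [Module.finrank_fintype_fun_eq_card, Fintype.card_coe] at h4
    have h5 : Module.finrank ℚ (LinearMap.range (ell a b S x)) ≤ 1 := by
      have := Submodule.finrank_le (LinearMap.range (ell a b S x))
      rwa [Module.finrank_self] at this
    have h6 := finrank_le S (kr a b S X)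
    rw [← h1] at h2
    omega
  submod X Y := by
    unfold rk
    have h1 : kr a b S (X ∪ Y) = kr a b S X ⊓ kr a b S Y := by
      unfold kr
      exact Finset.inf_union
    have h2 : kr a b S X ⊔ kr a b S Y ≤ kr a b S (X ∩ Y) := by
      apply sup_le
      · unfold kr
        exact Finset.inf_mono inter_subset_left
      · unfold kr
        exact Finset.inf_mono inter_subset_right
    have h3 := Submodule.finrank_sup_add_finrank_inf_eq (kr a b S X) (kr a b S Y)
    have h4 := Submodule.finrank_mono h2
    have h5 := finrank_le S (kr a b S X)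
    have h6 := finrank_le S (kr a b S Y)
    have h7 := finrank_le S (kr a b S (X ∩ Y))
    have h8 := finrank_le S (kr a b S (X ∪ Y))
    rw [← h1] at h3
    omega

theorem rk_lt (hS : S.Nonempty) (Y : Finset E) : rk a b S Y ≤ S.card - 1 := by
  unfold rk
  have h1 : (fun _ => (1 : ℚ)) ∈ kr a b S Y := by
    rw [mem_kr]
    intro e _
    unfold ell
    split_ifs with h
    · simp
    · simp
  have h2 : 0 < Module.finrank ℚ (kr a b S Y) := by
    rw [Module.finrank_pos_iff_exists_ne_zero]
    refine ⟨⟨_, h1⟩, fun h => ?_⟩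
    obtain ⟨s, hs⟩ := hS
    have h3 := congrArg (fun g : kr a b S Y => g.1 ⟨s, hs⟩) h
    simp at h3
  omega

/-- The relation: no function of the kernel separates `x` and `y`. -/
def sd (Y : Finset E) : Setoid S where
  r x y := ∀ f ∈ kr a b S Y, f x = f y
  iseqv :=
    { refl := fun _ _ _ => rfl
      symm := fun h f hf => (h f hf).symm
      trans := fun h h' f hf => (h f hf).trans (h' f hf) }

/-- A function of the kernel, on the classes. -/
noncomputable def lft (Y : Finset E) : kr a b S Y →ₗ[ℚ] (Quotient (sd a b S Y) → ℚ) where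
  toFun f q := Quotient.lift (s := sd a b S Y) f.1 (fun x y h => h f.1 f.2) q
  map_add' f g := by
    funext q
    induction q using Quotient.inductionOn with
    | h x => rfl
  map_smul' c f := by
    funext q
    induction q using Quotient.inductionOn with
    | h x => rfl

theorem count (F Y : Finset E) (hYF : Y ⊆ F) (hF : ∀ e ∈ F, a e ∈ S ∧ b e ∈ S)
    (hW : ∀ W ⊆ S, W.Nonempty →
      (F.filter (fun e => a e ∈ W ∧ b e ∈ W)).card ≤ 2 * (W.card - 1)) :
    Y.card ≤ 2 * rk a b S Y := by
  classical
  have h1 : Module.finrank ℚ (kr a b S Y) ≤ Fintype.card (Quotient (sd a b S Y)) := by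
    have h2 : Function.Injective (lft a b S Y) := by
      intro f g hfg
      apply Subtype.ext
      funext x
      exact congrFun hfg (Quotient.mk (sd a b S Y) x)
    have h3 := LinearMap.finrank_le_finrank_of_injective h2
    rwa [Module.finrank_fintype_fun_eq_card] at h3
  set W : Quotient (sd a b S Y) → Finset V := fun q =>
    (univ.filter (fun x : S => Quotient.mk (sd a b S Y) x = q)).map
      (Function.Embedding.subtype _) with hWd
  have hmem : ∀ q v, v ∈ W q ↔ ∃ h : v ∈ S, Quotient.mk (sd a b S Y) ⟨v, h⟩ = q := by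
    intro q v
    rw [hWd]
    simp
  have hsum : ∑ q, (W q).card = S.card := by
    have h2 : (univ : Finset S).card = ∑ q : Quotient (sd a b S Y),
        (univ.filter (fun x : S => Quotient.mk (sd a b S Y) x = q)).card :=
      card_eq_sum_card_fiberwise (fun x _ => mem_univ _)
    rw [card_univ, Fintype.card_coe] at h2
    rw [h2]
    apply sum_congr rfl
    intro q _
    rw [hWd]
    exact card_map _
  have hne : ∀ q, (W q).Nonempty := by
    intro q
    induction q using Quotient.inductionOn with
    | h x => exact ⟨x.1, (hmem _ _).2 ⟨x.2, rfl⟩⟩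
  have hsub : ∀ q, W q ⊆ S := fun q v hv => ((hmem q v).1 hv).1
  have hcov : Y ⊆ univ.biUnion (fun q => F.filter (fun e => a e ∈ W q ∧ b e ∈ W q)) := by
    intro e he
    have hS := hF e (hYF he)
    rw [mem_biUnion]
    refine ⟨Quotient.mk (sd a b S Y) ⟨a e, hS.1⟩, mem_univ _, ?_⟩
    rw [mem_filter]
    refine ⟨hYF he, (hmem _ _).2 ⟨hS.1, rfl⟩, (hmem _ _).2 ⟨hS.2, ?_⟩⟩
    apply Quotient.sound
    intro f hf
    have h2 := (mem_kr a b S).1 hf e he
    unfold ell at h2
    rw [dif_pos hS] at h2
    have h3 : f ⟨a e, hS.1⟩ - f ⟨b e, hS.2⟩ = 0 := h2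
    linarith
  have h4 : Y.card ≤ ∑ q, (F.filter (fun e => a e ∈ W q ∧ b e ∈ W q)).card :=
    (card_le_card hcov).trans card_biUnion_le
  have h5 : ∑ q, (F.filter (fun e => a e ∈ W q ∧ b e ∈ W q)).card
      ≤ ∑ q : Quotient (sd a b S Y), 2 * ((W q).card - 1) :=
    sum_le_sum (fun q _ => hW (W q) (hsub q) (hne q))
  have h6 : ∑ q : Quotient (sd a b S Y), 2 * ((W q).card - 1)
      + 2 * Fintype.card (Quotient (sd a b S Y)) = 2 * S.card := by
    rw [← hsum, mul_sum, ← card_univ, card_eq_sum_ones, mul_sum, ← sum_add_distrib]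
    apply sum_congr rfl
    intro q _
    have := (hne q).card_pos
    omega
  unfold rk
  omega

/-- Two disjoint connecting edge sets. -/
theorem trees (F : Finset E) (hF : ∀ e ∈ F, a e ∈ S ∧ b e ∈ S) (hS : S.Nonempty)
    (hcard : F.card = 2 * (S.card - 1))
    (hW : ∀ W ⊆ S, W.Nonempty →
      (F.filter (fun e => a e ∈ W ∧ b e ∈ W)).card ≤ 2 * (W.card - 1)) :
    ∃ B : Fin 2 → Finset E, (∀ i, B i ⊆ F) ∧ (∀ i j, i ≠ j → Disjoint (B i) (B j)) ∧
      ∀ i, ∀ T ⊆ S, (∀ e ∈ B i, (a e ∈ T ↔ b e ∈ T)) → T.Nonempty → T = S := by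
  classical
  obtain ⟨B, hB1, hB2, hB3, -⟩ := DT3.parts (rank_fn a b S) (k := S.card - 1) 2 F hcard
    (fun Y hY => count a b S F Y hY hF hW) (fun Y _ => rk_lt a b S hS Y)
  refine ⟨B, hB1, hB3, ?_⟩
  intro i T hTS hT hne
  have hpos := hS.card_pos
  have h1 := (hB2 i).2
  unfold rk at h1
  have h2 := finrank_le S (kr a b S (B i))
  have h3 : Module.finrank ℚ (kr a b S (B i)) = 1 := by omega
  have hone : (fun _ => (1 : ℚ)) ∈ kr a b S (B i) := by
    rw [mem_kr]
    intro e _
    unfold ell
    split_ifs with h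
    · simp
    · simp
  have hind : (fun x : S => if x.1 ∈ T then (1 : ℚ) else 0) ∈ kr a b S (B i) := by
    rw [mem_kr]
    intro e he
    unfold ell
    split_ifs with h
    · have h4 := hT e he
      simp only [LinearMap.sub_apply, LinearMap.proj_apply]
      by_cases h5 : a e ∈ T
      · rw [if_pos h5, if_pos (h4.1 h5), sub_self]
      · rw [if_neg h5, if_neg (fun h6 => h5 (h4.2 h6)), sub_self]
    · simp
  have hnz : (⟨_, hone⟩ : kr a b S (B i)) ≠ 0 := by
    intro h
    obtain ⟨s, hs⟩ := hS
    have h3 := congrArg (fun g : kr a b S (B i) => g.1 ⟨s, hs⟩) h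
    simp at h3
  obtain ⟨c, hc⟩ := (finrank_eq_one_iff_of_nonzero' _ hnz).1 h3 ⟨_, hind⟩
  have hc' : ∀ x : S, c = if x.1 ∈ T then (1 : ℚ) else 0 := by
    intro x
    have h4 := congrArg (fun g : kr a b S (B i) => g.1 x) hc
    simpa using h4
  apply Subset.antisymm hTS
  intro s hs
  obtain ⟨t, ht⟩ := hne
  have h5 := hc' ⟨t, hTS ht⟩
  have h6 := hc' ⟨s, hs⟩
  rw [if_pos ht] at h5
  by_contra hsT
  rw [if_neg hsT, h5] at h6
  exact one_ne_zero h6

end

end Pool.Agent.LG6
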