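import Pool.Agent.LG6.Defs
import Pool.Agent.LG6.Trees

/-!
LG6, main file: every 6-connected line graph of a loopless multigraph has a `K₆` minor.

Let `G` be the line graph of `H`.  Every vertex of `G` has at least six neighbours.  A vertex of `H`
of degree at least six gives a `K₆`.  If `u` has degree five, the five edges at `u` and the rest of
`G` (connected, as `G` is 6-connected) are the branch sets.  Otherwise all vertices of `H` have degree
four and all edge cuts have at least four edges; the edges avoiding `u` then form two disjoint spanning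
trees of `H - u` (`trees`), which with the four edges at `u` are the branch sets.
-/

set_option autoImplicit false

namespace Pool.Agent.LG6

open Finset

/-- The line graph of the multigraph in which the edge `e` joins `a e` and `b e`. -/
def line {V E : Type} (a b : E → V) : SimpleGraph E where
  Adj e f := e ≠ f ∧ (a e = a f ∨ a e = b f ∨ b e = a f ∨ b e = b f)
  symm := by
    refine ⟨?_⟩
    intro e f h
    refine ⟨h.1.symm, ?_⟩
    rcases h.2 with h | h | h | h
    · exact Or.inl h.symm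
    · exact Or.inr (Or.inr (Or.inl h.symm))
    · exact Or.inr (Or.inl h.symm)
    · exact Or.inr (Or.inr (Or.inr h.symm))
  loopless := ⟨fun _ h => h.1 rfl⟩

theorem of_index {E : Type} {G : SimpleGraph E} {ι : Type} [Fintype ι] {k : ℕ}
    (hι : Fintype.card ι = k)
    (B : ι → Set E) (h1 : ∀ i, (G.induce (B i)).Connected)
    (h2 : ∀ i j, i ≠ j → Disjoint (B i) (B j))
    (h3 : ∀ i j, i ≠ j → ∃ x ∈ B i, ∃ y ∈ B j, G.Adj x y) : HasCompleteMinor k G := by
  have σ := (Fintype.equivFinOfCardEq hι).symm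
  exact ⟨fun i => B (σ i), fun i => h1 _, fun i j hij => h2 _ _ (fun h => hij (σ.injective h)),
    fun i j hij => h3 _ _ (fun h => hij (σ.injective h))⟩

theorem single_connected {E : Type} (G : SimpleGraph E) (e : E) :
    (G.induce ({e} : Set E)).Connected := by
  have : Nonempty ({e} : Set E) := ⟨⟨e, rfl⟩⟩
  refine SimpleGraph.Connected.mk ?_
  rintro ⟨x, hx⟩ ⟨y, hy⟩
  rw [Set.mem_singleton_iff] at hx hy
  subst hx
  subst hy
  exact SimpleGraph.Reachable.refl _

theorem cross {E : Type} {G : SimpleGraph E} {C : Set E}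
    (hc : (G.induce C).Connected) (P : Set E) {e f : E} (he : e ∈ C)
    (hf : f ∈ C) (heP : e ∈ P) (hfP : f ∉ P) :
    ∃ g h, g ∈ C ∧ h ∈ C ∧ G.Adj g h ∧ g ∈ P ∧ h ∉ P := by
  obtain ⟨p⟩ := hc.preconnected ⟨e, he⟩ ⟨f, hf⟩
  obtain ⟨d, _, h1, h2⟩ := p.exists_boundary_dart (Subtype.val ⁻¹' P) heP hfP
  exact ⟨d.fst.1, d.snd.1, d.fst.2, d.snd.2, d.adj, h1, h2⟩

section

variable {V E : Type} [Fintype E] [DecidableEq V] [DecidableEq E] (a b : E → V)

/-- The edges at `x`. -/
def inc (x : V) : Finset E := univ.filter fun e => a e = x ∨ b e = x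

theorem mem_inc {x : V} {e : E} : e ∈ inc a b x ↔ a e = x ∨ b e = x := by
  unfold inc
  rw [mem_filter]
  exact ⟨fun h => h.2, fun h => ⟨mem_univ _, h⟩⟩

theorem adj_of_inc {x : V} {e f : E} (he : e ∈ inc a b x) (hf : f ∈ inc a b x) (h : e ≠ f) :
    (line a b).Adj e f := by
  rw [mem_inc] at he hf
  refine ⟨h, ?_⟩
  rcases he with he | he <;> rcases hf with hf | hf
  · exact Or.inl (he.trans hf.symm)
  · exact Or.inr (Or.inl (he.trans hf.symm))
  · exact Or.inr (Or.inr (Or.inl (he.trans hf.symm)))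
  · exact Or.inr (Or.inr (Or.inr (he.trans hf.symm)))

theorem inc_of_adj {e f : E} (h : (line a b).Adj e f) :
    f ∈ inc a b (a e) ∨ f ∈ inc a b (b e) := by
  rw [mem_inc, mem_inc]
  rcases h.2 with h | h | h | h
  · exact Or.inl (Or.inl h.symm)
  · exact Or.inl (Or.inr h.symm)
  · exact Or.inr (Or.inl h.symm)
  · exact Or.inr (Or.inr h.symm)

/-- The star lemma. -/
theorem star {k : ℕ} {x : V} (T : Finset E) (hT : T ⊆ inc a b x) {J : Type} [Fintype J]
    (R : J → Set E) (hR : ∀ j, ((line a b).induce (R j)).Connected)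
    (hTR : ∀ e ∈ T, ∀ j, e ∉ R j) (hd : ∀ i j, i ≠ j → Disjoint (R i) (R j))
    (hadj : ∀ i j, i ≠ j → ∃ x ∈ R i, ∃ y ∈ R j, (line a b).Adj x y)
    (hTadj : ∀ e ∈ T, ∀ j, ∃ y ∈ R j, (line a b).Adj e y)
    (hk : T.card + Fintype.card J = k) : HasCompleteMinor k (line a b) := by
  apply of_index (ι := T ⊕ J) (by rw [Fintype.card_sum, Fintype.card_coe, hk])
    (Sum.elim (fun e => {e.1}) R)
  · rintro (e | j)
    · exact single_connected _ _
    · exact hR j
  · rintro (e | i) (f | j) hij
    · simp only [Sum.elim_inl]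
      rw [Set.disjoint_singleton]
      intro h
      exact hij (congrArg _ (Subtype.ext h))
    · simp only [Sum.elim_inl, Sum.elim_inr]
      rw [Set.disjoint_singleton_left]
      exact hTR e.1 e.2 j
    · simp only [Sum.elim_inl, Sum.elim_inr]
      rw [Set.disjoint_singleton_right]
      exact hTR f.1 f.2 i
    · exact hd i j (fun h => hij (congrArg _ h))
  · rintro (e | i) (f | j) hij
    · exact ⟨e.1, rfl, f.1, rfl, adj_of_inc a b (hT e.2) (hT f.2)
        (fun h => hij (congrArg _ (Subtype.ext h)))⟩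
    · obtain ⟨y, hy, h⟩ := hTadj e.1 e.2 j
      exact ⟨e.1, rfl, y, hy, h⟩
    · obtain ⟨y, hy, h⟩ := hTadj f.1 f.2 i
      exact ⟨y, hy, f.1, rfl, h.symm⟩
    · exact hadj i j (fun h => hij (congrArg _ h))

/-- Every vertex of a `k`-connected graph has at least `k` neighbours. -/
theorem min_deg {k : ℕ} {G : SimpleGraph E} (hG : IsKConnected k G) (e : E) (N : Finset E)
    (hN : ∀ f, G.Adj e f → f ∈ N) (heN : e ∉ N) : k ≤ N.card := by
  by_contra hlt
  push Not at hlt
  have h1 : ∃ g, g ∉ insert e N := by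
    by_contra h
    push Not at h
    have h2 : (univ : Finset E) ⊆ insert e N := fun g _ => h g
    have h3 := card_le_card h2
    rw [card_univ] at h3
    have h4 := card_insert_le e N
    have h5 := hG.1
    omega
  obtain ⟨g, hg⟩ := h1
  rw [mem_insert] at hg
  push Not at hg
  obtain ⟨x, y, _, hy, hxy, hx, _⟩ := cross (hG.2 N hlt) {e} (e := e) (f := g)
    (fun h => heN (mem_coe.1 h)) (fun h => hg.2 (mem_coe.1 h)) rfl hg.1
  rw [Set.mem_singleton_iff] at hx
  subst hx
  exact hy (mem_coe.2 (hN y hxy))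

/-- The number of ends of edges in `W`. -/
theorem sum_inc (hab : ∀ e, a e ≠ b e) (W : Finset V) :
    ∑ x ∈ W, (inc a b x).card
      = 2 * (univ.filter fun e => a e ∈ W ∧ b e ∈ W).card
        + (univ.filter fun e => ¬(a e ∈ W ↔ b e ∈ W)).card := by
  have h1 : ∀ x, (inc a b x).card = ∑ e : E, ((if a e = x then 1 else 0)
      + (if b e = x then 1 else 0)) := by
    intro x
    unfold inc
    rw [card_filter]
    apply sum_congr rfl
    intro e _
    by_cases h1 : a e = x
    · have h2 : b e ≠ x := fun h => hab e (h1.trans h.symm)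
      rw [if_pos (Or.inl h1), if_pos h1, if_neg h2]
    · by_cases h2 : b e = x
      · rw [if_pos (Or.inr h2), if_neg h1, if_pos h2]
      · rw [if_neg (not_or.2 ⟨h1, h2⟩), if_neg h1, if_neg h2]
  rw [sum_congr rfl (fun x _ => h1 x), sum_comm, card_filter, card_filter, mul_sum,
    ← sum_add_distrib]
  apply sum_congr rfl
  intro e _
  rw [sum_add_distrib, sum_ite_eq, sum_ite_eq]
  by_cases h1 : a e ∈ W <;> by_cases h2 : b e ∈ W <;> simp [h1, h2]

/-- A connected edge set from the absence of closed vertex sets. -/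
theorem conn_of_closed {S : Finset V} {B : Finset E} (hBS : ∀ e ∈ B, a e ∈ S ∧ b e ∈ S)
    (hB : ∀ T ⊆ S, (∀ e ∈ B, (a e ∈ T ↔ b e ∈ T)) → T.Nonempty → T = S) (hne : B.Nonempty) :
    ((line a b).induce (↑B : Set E)).Connected := by
  classical
  obtain ⟨e₀, he₀⟩ := hne
  have : Nonempty (↑B : Set E) := ⟨⟨e₀, mem_coe.2 he₀⟩⟩
  rw [SimpleGraph.connected_iff_exists_forall_reachable]
  refine ⟨⟨e₀, mem_coe.2 he₀⟩, ?_⟩
  set Rch : E → Prop := fun e => ∃ h : e ∈ B,
    ((line a b).induce (↑B : Set E)).Reachable ⟨e₀, mem_coe.2 he₀⟩ ⟨e, mem_coe.2 h⟩ with hR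
  have hstep : ∀ e f, Rch e → f ∈ B →
      (a f = a e ∨ a f = b e ∨ b f = a e ∨ b f = b e) → Rch f := by
    rintro e f ⟨h1, h2⟩ hf h3
    refine ⟨hf, ?_⟩
    by_cases hef : f = e
    · subst hef
      exact h2
    · refine h2.trans (SimpleGraph.Adj.reachable ?_)
      exact (show (line a b).Adj f e from ⟨hef, h3⟩).symm
  have hT := hB (S.filter fun x => ∃ e, Rch e ∧ (a e = x ∨ b e = x)) (filter_subset _ _) (by
      intro e he
      rw [mem_filter, mem_filter]
      constructor
      · rintro ⟨-, f, hf, h | h⟩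
        · exact ⟨(hBS e he).2, e, hstep f e hf he (Or.inl h.symm), Or.inr rfl⟩
        · exact ⟨(hBS e he).2, e, hstep f e hf he (Or.inr (Or.inl h.symm)), Or.inr rfl⟩
      · rintro ⟨-, f, hf, h | h⟩
        · exact ⟨(hBS e he).1, e, hstep f e hf he (Or.inr (Or.inr (Or.inl h.symm))), Or.inl rfl⟩
        · exact ⟨(hBS e he).1, e, hstep f e hf he (Or.inr (Or.inr (Or.inr h.symm))), Or.inl rfl⟩)
    ⟨a e₀, mem_filter.2 ⟨(hBS e₀ he₀).1, e₀, ⟨he₀, SimpleGraph.Reachable.refl _⟩, Or.inl rfl⟩⟩
  rintro ⟨e, he⟩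
  have he' : e ∈ B := mem_coe.1 he
  have h1 : a e ∈ S.filter fun x => ∃ e, Rch e ∧ (a e = x ∨ b e = x) := by
    rw [hT]
    exact (hBS e he').1
  obtain ⟨-, f, hf, h | h⟩ := mem_filter.1 h1
  · obtain ⟨h2, h3⟩ := hstep f e hf he' (Or.inl h.symm)
    exact h3
  · obtain ⟨h2, h3⟩ := hstep f e hf he' (Or.inr (Or.inl h.symm))
    exact h3

theorem main (hab : ∀ e, a e ≠ b e) (hG : IsKConnected 6 (line a b)) :
    HasCompleteMinor 6 (line a b) := by
  classical
  by_cases h6 : ∃ x, 6 ≤ (inc a b x).card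
  · obtain ⟨x, hx⟩ := h6
    obtain ⟨T, hT, hT6⟩ := exists_subset_card_eq hx
    exact star a b T hT (J := Empty) Empty.elim (fun j => j.elim) (fun _ _ j => j.elim)
      (fun i => i.elim) (fun i => i.elim) (fun _ _ j => j.elim) (by simp [hT6])
  push Not at h6
  have hdeg : ∀ e, 6 ≤ ((inc a b (a e) ∪ inc a b (b e)).erase e).card := by
    intro e
    apply min_deg hG e _ _ (notMem_erase e _)
    intro f hf
    rw [mem_erase, mem_union]
    exact ⟨hf.1.symm, inc_of_adj a b hf⟩
  have hea : ∀ e, e ∈ inc a b (a e) := fun e => (mem_inc a b).2 (Or.inl rfl)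
  have heb : ∀ e, e ∈ inc a b (b e) := fun e => (mem_inc a b).2 (Or.inr rfl)
  by_cases h5 : ∃ x, (inc a b x).card = 5
  · obtain ⟨x, hx⟩ := h5
    have hc := hG.2 (inc a b x) (by omega)
    apply star a b (inc a b x) (Subset.refl _) (J := Unit)
      (fun _ => ((↑(inc a b x) : Set E))ᶜ) (fun _ => hc)
      (fun e he _ h => h (mem_coe.2 he)) (fun i j h => absurd (Subsingleton.elim i j) h)
      (fun i j h => absurd (Subsingleton.elim i j) h)
    · intro e he _
      by_contra hno
      push Not at hno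
      have h1 := min_deg hG e ((inc a b x).erase e) (by
        intro f hf
        rw [mem_erase]
        refine ⟨hf.1.symm, ?_⟩
        by_contra hfx
        exact hno f (fun h => hfx (mem_coe.1 h)) hf) (notMem_erase e _)
      rw [card_erase_of_mem he, hx] at h1
      omega
    · rw [hx, Fintype.card_unit]
  push Not at h5
  have h4 : ∀ x, (inc a b x).card ≤ 4 := by
    intro x
    have h1 := h6 x
    have h2 := h5 x
    omega
  have h4' : ∀ e, (inc a b (a e)).card = 4 ∧ (inc a b (b e)).card = 4 := by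
    intro e
    have h1 := hdeg e
    rw [card_erase_of_mem (mem_union_left _ (hea e))] at h1
    have h2 := card_union_add_card_inter (inc a b (a e)) (inc a b (b e))
    have h3 : 0 < (inc a b (a e) ∩ inc a b (b e)).card :=
      card_pos.2 ⟨e, mem_inter.2 ⟨hea e, heb e⟩⟩
    have h5 := h4 (a e)
    have h6 := h4 (b e)
    omega
  have hE7 : 7 ≤ (univ : Finset E).card := by
    rw [card_univ]
    exact hG.1
  obtain ⟨e₀, -⟩ : (univ : Finset E).Nonempty := card_pos.1 (by omega)
  set u := a e₀ with hu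
  set N : Finset V := univ.image a ∪ univ.image b with hN
  have haN : ∀ e, a e ∈ N := fun e =>
    mem_union_left _ (mem_image_of_mem _ (mem_univ e))
  have hbN : ∀ e, b e ∈ N := fun e =>
    mem_union_right _ (mem_image_of_mem _ (mem_univ e))
  have hN4 : ∀ x ∈ N, (inc a b x).card = 4 := by
    intro x hx
    rcases mem_union.1 hx with h | h
    · obtain ⟨e, -, rfl⟩ := mem_image.1 h
      exact (h4' e).1
    · obtain ⟨e, -, rfl⟩ := mem_image.1 h
      exact (h4' e).2
  set S := N.erase u with hS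
  have huN : u ∈ N := haN e₀
  have hSN : S ⊆ N := erase_subset _ _
  have hcS : S.card + 1 = N.card := card_erase_add_one huN
  -- the number of edges
  have hE : 4 * N.card = 2 * (univ : Finset E).card := by
    have h1 := sum_inc a b hab N
    rw [sum_congr rfl hN4, sum_const, smul_eq_mul] at h1
    have h2 : (univ.filter fun e => a e ∈ N ∧ b e ∈ N) = univ :=
      filter_true_of_mem fun e _ => ⟨haN e, hbN e⟩
    have h3 : (univ.filter fun e => ¬(a e ∈ N ↔ b e ∈ N)) = ∅ :=
      filter_false_of_mem fun e _ h => h ⟨fun _ => hbN e, fun _ => haN e⟩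
    rw [h2, h3, card_empty] at h1
    omega
  set F : Finset E := univ \ inc a b u with hF
  have hFc : F.card = 2 * (S.card - 1) := by
    rw [hF, card_sdiff_of_subset (subset_univ _), hN4 u huN]
    omega
  have hFS : ∀ e ∈ F, a e ∈ S ∧ b e ∈ S := by
    intro e he
    rw [hF, mem_sdiff, mem_inc] at he
    have h1 := not_or.1 he.2
    exact ⟨mem_erase.2 ⟨h1.1, haN e⟩, mem_erase.2 ⟨h1.2, hbN e⟩⟩
  have hW : ∀ W ⊆ S, W.Nonempty →
      (F.filter (fun e => a e ∈ W ∧ b e ∈ W)).card ≤ 2 * (W.card - 1) := by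
    intro W hWS hWne
    have h1 := sum_inc a b hab W
    rw [sum_congr rfl (fun x hx => hN4 x (hSN (hWS hx))), sum_const, smul_eq_mul] at h1
    have h2 : (F.filter (fun e => a e ∈ W ∧ b e ∈ W)).card
        ≤ (univ.filter fun e => a e ∈ W ∧ b e ∈ W).card :=
      card_le_card (filter_subset_filter _ (subset_univ _))
    have hpos := hWne.card_pos
    rcases (univ.filter fun e => a e ∈ W ∧ b e ∈ W).eq_empty_or_nonempty with h0 | ⟨g, hg⟩
    · rw [h0, card_empty] at h2
      omega
    · rw [mem_filter] at hg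
      -- the cut
      set C : Finset E := univ.filter fun e => ¬(a e ∈ W ↔ b e ∈ W) with hC
      have huW : u ∉ W := fun h => (mem_erase.1 (hWS h)).1 rfl
      have hC4 : 4 ≤ C.card := by
        by_contra hlt
        push Not at hlt
        have h3 : ∃ f ∈ inc a b u, f ∉ C := by
          by_contra h
          push Not at h
          have h4 := card_le_card (show inc a b u ⊆ C from h)
          rw [hN4 u huN] at h4
          omega
        obtain ⟨f, hf, hfC⟩ := h3
        have hfW : ¬(a f ∈ W ∧ b f ∈ W) := by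
          rintro ⟨h5, h6⟩
          rcases (mem_inc a b).1 hf with h | h
          · exact huW (h ▸ h5)
          · exact huW (h ▸ h6)
        have hgC : g ∉ C := by
          rw [hC, mem_filter]
          rintro ⟨-, h⟩
          exact h ⟨fun _ => hg.2.2, fun _ => hg.2.1⟩
        obtain ⟨y, z, hy, hz, hyz, hy', hz'⟩ := cross (hG.2 C (by omega))
          {e | a e ∈ W ∧ b e ∈ W} (e := g) (f := f) (fun h => hgC (mem_coe.1 h))
          (fun h => hfC (mem_coe.1 h)) hg.2 hfW
        have hzC : (a z ∈ W ↔ b z ∈ W) := by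
          by_contra h
          exact hz (mem_coe.2 (mem_filter.2 ⟨mem_univ _, h⟩))
        apply hz'
        have hy1 : a y ∈ W := hy'.1
        have hy2 : b y ∈ W := hy'.2
        rcases hyz.2 with h | h | h | h
        · have h7 : a z ∈ W := h ▸ hy1
          exact ⟨h7, hzC.1 h7⟩
        · have h7 : b z ∈ W := h ▸ hy1
          exact ⟨hzC.2 h7, h7⟩
        · have h7 : a z ∈ W := h ▸ hy2
          exact ⟨h7, hzC.1 h7⟩
        · have h7 : b z ∈ W := h ▸ hy2
          exact ⟨hzC.2 h7, h7⟩
      omega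
  have hS2 : 2 ≤ S.card := by omega
  have hSne : S.Nonempty := card_pos.1 (by omega)
  obtain ⟨B, hB1, hB2, hB3⟩ := trees a b S F hFS hSne hFc hW
  have htouch : ∀ i, ∀ v ∈ S, ∃ f ∈ B i, f ∈ inc a b v := by
    intro i v hv
    by_contra h
    push Not at h
    have h1 := hB3 i {v} (singleton_subset_iff.2 hv) (by
      intro e he
      have h2 := h e he
      rw [mem_inc, not_or] at h2
      rw [mem_singleton, mem_singleton]
      exact ⟨fun h3 => absurd h3 h2.1, fun h3 => absurd h3 h2.2⟩) (singleton_nonempty v)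
    have h2 := congrArg Finset.card h1
    rw [card_singleton] at h2
    omega
  obtain ⟨v₀, hv₀⟩ := hSne
  apply star a b (x := u) (inc a b u) (Subset.refl _) (J := Fin 2) (fun i => (↑(B i) : Set E))
  · intro i
    apply conn_of_closed a b (S := S) (fun e he => hFS e (hB1 i he)) (hB3 i)
    obtain ⟨f, hf, -⟩ := htouch i v₀ hv₀
    exact ⟨f, hf⟩
  · intro e he i h
    have h1 := hB1 i (mem_coe.1 h)
    rw [hF, mem_sdiff] at h1
    exact h1.2 he
  · intro i j hij
    exact disjoint_coe.2 (hB2 i j hij)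
  · intro i j hij
    obtain ⟨f, hf, hf'⟩ := htouch i v₀ hv₀
    obtain ⟨g, hg, hg'⟩ := htouch j v₀ hv₀
    refine ⟨f, mem_coe.2 hf, g, mem_coe.2 hg, adj_of_inc a b hf' hg' ?_⟩
    intro h
    subst h
    exact disjoint_left.1 (hB2 i j hij) hf hg
  · intro e he i
    have h1 : ∃ v ∈ S, e ∈ inc a b v := by
      rcases (mem_inc a b).1 he with h | h
      · exact ⟨b e, mem_erase.2 ⟨fun h2 => hab e (h.trans h2.symm), hbN e⟩, heb e⟩
      · exact ⟨a e, mem_erase.2 ⟨fun h2 => hab e (h2.trans h.symm), haN e⟩, hea e⟩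
    obtain ⟨v, hv, hev⟩ := h1
    obtain ⟨f, hf, hf'⟩ := htouch i v hv
    refine ⟨f, mem_coe.2 hf, adj_of_inc a b hev hf' ?_⟩
    intro h
    subst h
    have h2 := hB1 i hf
    rw [hF, mem_sdiff] at h2
    exact h2.2 he
  · rw [hN4 u huN, Fintype.card_fin]

end

end Pool.Agent.LG6
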