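import Pool.Agent.LG6.Gen

/-!
LG6: every 6-connected quasi-line graph has a `K₆` minor.

`QV G v A B`: the neighbourhood of `v` is the disjoint union of the triangles `A` and `B`.  In a
6-connected quasi-line graph without a `K₆` minor every vertex has this form (`exists_qv`).  `star_A`
is the contraction of the outside of `v`; `thick` excludes a vertex of `B` with two neighbours in `A`
(`link`, or a cut with five vertices); then each vertex lies in exactly two cliques with four vertices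
and `G` is a line graph (`quasi_main`).
-/

set_option autoImplicit false

namespace Pool.Agent.LG6

open Finset

variable {V : Type} {G : SimpleGraph V}

/-- The neighbourhood of `v` is the disjoint union of two triangles. -/
structure QV (G : SimpleGraph V) (v : V) (A B : Finset V) : Prop where
  nbr : ∀ x, G.Adj v x ↔ x ∈ A ∨ x ∈ B
  cA : ∀ x ∈ A, ∀ y ∈ A, x ≠ y → G.Adj x y
  cB : ∀ x ∈ B, ∀ y ∈ B, x ≠ y → G.Adj x y
  disj : ∀ x ∈ A, x ∉ B
  hA : A.card = 3
  hB : B.card = 3

theorem QV.swap {v : V} {A B : Finset V} (h : QV G v A B) : QV G v B A :=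
  ⟨fun x => (h.nbr x).trans Or.comm, h.cB, h.cA, fun x hx hx' => h.disj x hx' hx, h.hB, h.hA⟩

variable [DecidableEq V]

theorem third {A : Finset V} (hA : A.card = 3) {a₁ a₂ : V} (h₁ : a₁ ∈ A) (h₂ : a₂ ∈ A)
    (hne : a₁ ≠ a₂) : ∃ a₃ ∈ A, a₃ ≠ a₁ ∧ a₃ ≠ a₂ ∧ ∀ x ∈ A, x = a₁ ∨ x = a₂ ∨ x = a₃ := by
  have h3 : ((A.erase a₁).erase a₂).card = 1 := by
    rw [card_erase_of_mem (mem_erase.2 ⟨hne.symm, h₂⟩), card_erase_of_mem h₁, hA]
  obtain ⟨a₃, h4⟩ := card_eq_one.1 h3
  have h5 : a₃ ∈ (A.erase a₁).erase a₂ := by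
    rw [h4]
    exact mem_singleton_self _
  rw [mem_erase, mem_erase] at h5
  refine ⟨a₃, h5.2.2, h5.2.1, h5.1, ?_⟩
  intro x hx
  by_cases hx1 : x = a₁
  · exact Or.inl hx1
  · by_cases hx2 : x = a₂
    · exact Or.inr (Or.inl hx2)
    · have h6 : x ∈ (A.erase a₁).erase a₂ := mem_erase.2 ⟨hx2, mem_erase.2 ⟨hx1, hx⟩⟩
      rw [h4, mem_singleton] at h6
      exact Or.inr (Or.inr h6)

theorem others {A : Finset V} (hA : A.card = 3) {a : V} (h : a ∈ A) :
    ∃ c ∈ A, ∃ c' ∈ A, c ≠ a ∧ c' ≠ a ∧ c ≠ c' ∧ ∀ x ∈ A, x = a ∨ x = c ∨ x = c' := by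
  have h3 : (A.erase a).card = 2 := by rw [card_erase_of_mem h, hA]
  obtain ⟨c, c', hcc, h4⟩ := card_eq_two.1 h3
  have h5 : c ∈ A.erase a := by rw [h4]; exact mem_insert_self _ _
  have h6 : c' ∈ A.erase a := by rw [h4]; exact mem_insert_of_mem (mem_singleton_self _)
  rw [mem_erase] at h5 h6
  refine ⟨c, h5.2, c', h6.2, h5.1, h6.1, hcc, ?_⟩
  intro x hx
  by_cases hx1 : x = a
  · exact Or.inl hx1
  · have h7 : x ∈ A.erase a := mem_erase.2 ⟨hx1, hx⟩
    rw [h4, mem_insert, mem_singleton] at h7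
    exact Or.inr h7

theorem QV.deg {v : V} {A B : Finset V} (h : QV G v A B) {S : Finset V}
    (hS : ∀ x ∈ S, G.Adj v x) : S.card ≤ 6 := by
  have h1 : S ⊆ A ∪ B := fun x hx => mem_union.2 ((h.nbr x).1 (hS x hx))
  have h2 := (card_le_card h1).trans (card_union_le A B)
  rw [h.hA, h.hB] at h2
  exact h2

variable [Fintype V]

theorem exists_qv (hG : IsKConnected 6 G) (hm : ¬ HasCompleteMinor 6 G) (v : V)
    (hq : ∃ A B : Set V, G.IsClique A ∧ G.IsClique B ∧ G.neighborSet v = A ∪ B) :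
    ∃ A B : Finset V, QV G v A B := by
  classical
  obtain ⟨A, B, hA, hB, hN⟩ := hq
  have hN' : ∀ x, G.Adj v x ↔ x ∈ A ∨ x ∈ B := by
    intro x
    rw [← SimpleGraph.mem_neighborSet, hN, Set.mem_union]
  set A' : Finset V := univ.filter fun x => x ∈ A with hA'
  set B' : Finset V := univ.filter fun x => x ∈ B ∧ x ∉ A with hB'
  have hcA : ∀ x ∈ A', ∀ y ∈ A', x ≠ y → G.Adj x y := fun x hx y hy hxy =>
    hA (mem_filter.1 hx).2 (mem_filter.1 hy).2 hxy
  have hcB : ∀ x ∈ B', ∀ y ∈ B', x ≠ y → G.Adj x y := fun x hx y hy hxy =>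
    hB (mem_filter.1 hx).2.1 (mem_filter.1 hy).2.1 hxy
  have hnbr : ∀ x, G.Adj v x ↔ x ∈ A' ∨ x ∈ B' := by
    intro x
    rw [hN', hA', hB', mem_filter, mem_filter]
    simp only [mem_univ, true_and]
    tauto
  have hcl : ∀ T : Finset V, (∀ x ∈ T, ∀ y ∈ T, x ≠ y → G.Adj x y) → (∀ x ∈ T, G.Adj v x) →
      T.card ≤ 3 := by
    intro T hT hvT
    have hv : v ∉ T := fun h => (hvT v h).ne rfl
    have h1 := clique_le hG hm (insert v T) (by
      intro x hx y hy hxy
      rcases mem_insert.1 hx with rfl | hx' <;> rcases mem_insert.1 hy with rfl | hy'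
      · exact absurd rfl hxy
      · exact hvT y hy'
      · exact (hvT x hx').symm
      · exact hT x hx' y hy' hxy)
    rw [card_insert_of_notMem hv] at h1
    omega
  have h1 := hcl A' hcA (fun x hx => (hnbr x).2 (Or.inl hx))
  have h2 := hcl B' hcB (fun x hx => (hnbr x).2 (Or.inr hx))
  have h3 := min_deg hG v (A' ∪ B') (fun f hf => mem_union.2 ((hnbr f).1 hf))
    (fun h => ((hnbr v).2 (mem_union.1 h)).ne rfl)
  have h4 := card_union_le A' B'
  exact ⟨A', B', hnbr, hcA, hcB, fun x hx hx' => (mem_filter.1 hx').2.2 (mem_filter.1 hx).2,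
    by omega, by omega⟩

theorem out_qv (hG : IsKConnected 6 G) (hm : ¬ HasCompleteMinor 6 G) {v : V} {A B : Finset V}
    (h : QV G v A B) : ∃ D : Set V, Out G v (A ∪ B) D := by
  have h6 : (A ∪ B).card = 6 := by
    rw [card_union_of_disjoint, h.hA, h.hB]
    rw [disjoint_left]
    exact h.disj
  by_cases hd : ∃ d, d ≠ v ∧ d ∉ A ∪ B
  · obtain ⟨d, hdv, hd⟩ := hd
    exact exists_out hG (fun x => by rw [mem_union]; exact (h.nbr x).symm) h6 hdv hd
  · exfalso
    push Not at hd
    have h7 : Fintype.card V ≤ 7 := by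
      have h1 : (univ : Finset V) ⊆ insert v (A ∪ B) := by
        intro x _
        rw [mem_insert]
        by_cases hx : x = v
        · exact Or.inl hx
        · exact Or.inr (hd x hx)
      have h2 := (card_le_card h1).trans (card_insert_le _ _)
      rw [card_univ, h6] at h2
      exact h2
    have h8 := clique_le hG hm univ (by
      intro e _ f _ hef
      by_contra hno
      have h1 := min_deg hG e ((univ.erase e).erase f) (by
        intro g hg
        rw [mem_erase, mem_erase]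
        exact ⟨fun h => hno (h ▸ hg), hg.ne.symm, mem_univ _⟩)
        (fun h => (mem_erase.1 (mem_erase.1 h).2).1 rfl)
      rw [card_erase_of_mem (mem_erase.2 ⟨hef.symm, mem_univ _⟩), card_erase_of_mem (mem_univ _),
        card_univ] at h1
      omega)
    rw [card_univ] at h8
    have := hG.1
    omega

/-- Contraction of the outside of `v`. -/
theorem star_A (hG : IsKConnected 6 G) (hm : ¬ HasCompleteMinor 6 G) {v : V} {A B : Finset V}
    (h : QV G v A B) {a : V} (ha : a ∈ A) : ∃ b ∈ B, ∀ x ∈ A, G.Adj b x → x = a := by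
  by_contra hno
  push Not at hno
  obtain ⟨D, hD⟩ := out_qv hG hm h
  obtain ⟨c, hc, c', hc', hca, hca', hcc, hall⟩ := others h.hA ha
  have hvA : v ∉ A := fun h' => ((h.nbr v).2 (Or.inl h')).ne rfl
  have hvB : v ∉ B := fun h' => ((h.nbr v).2 (Or.inr h')).ne rfl
  obtain ⟨y, hy, hay⟩ := hD.att a (mem_union_left _ ha)
  apply hm
  apply clique_two (insert v B) ?_ (by rw [card_insert_of_notMem hvB, h.hB]) (D ∪ {a}) {c, c'}
    (SimpleGraph.connected_induce_union hD.conn.preconnected (single_connected G a).preconnected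
      hy rfl hay.symm)
    (SimpleGraph.induce_pair_connected_of_adj (h.cA c hc c' hc' hcc))
  · intro e he hP
    rcases hP with hP | hP
    · rcases mem_insert.1 he with rfl | he
      · exact hD.nv hP
      · exact hD.nN e (mem_union_right _ he) hP
    · rw [Set.mem_singleton_iff] at hP
      subst hP
      rcases mem_insert.1 he with rfl | he
      · exact hvA ha
      · exact h.disj e ha he
  · intro e he hQ
    have h1 : e ∈ A := by
      rcases hQ with rfl | hQ
      · exact hc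
      · rw [Set.mem_singleton_iff] at hQ
        exact hQ ▸ hc'
    rcases mem_insert.1 he with rfl | he
    · exact hvA h1
    · exact h.disj e h1 he
  · rw [Set.disjoint_left]
    rintro x (hx | hx) hx'
    · have h1 : x ∈ A := by
        rcases hx' with rfl | hQ
        · exact hc
        · rw [Set.mem_singleton_iff] at hQ
          exact hQ ▸ hc'
      exact hD.nN x (mem_union_left _ h1) hx
    · rw [Set.mem_singleton_iff] at hx
      subst hx
      rcases hx' with hx' | hx'
      · exact hca hx'.symm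
      · exact hca' hx'.symm
  · exact ⟨a, Or.inr rfl, c, Or.inl rfl, h.cA a ha c hc hca.symm⟩
  · intro e he
    rcases mem_insert.1 he with rfl | he
    · exact ⟨a, Or.inr rfl, (h.nbr a).2 (Or.inl ha)⟩
    · obtain ⟨z, hz, hez⟩ := hD.att e (mem_union_right _ he)
      exact ⟨z, Or.inl hz, hez⟩
  · intro e he
    rcases mem_insert.1 he with rfl | he
    · exact ⟨c, Or.inl rfl, (h.nbr c).2 (Or.inl hc)⟩
    · obtain ⟨x, hx, hex, hxa⟩ := hno e he
      rcases hall x hx with h1 | h1 | h1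
      · exact absurd h1 hxa
      · exact ⟨c, Or.inl rfl, h1 ▸ hex⟩
      · exact ⟨c', Or.inr rfl, h1 ▸ hex⟩
  · intro x hx y hy hxy
    rcases mem_insert.1 hx with rfl | hx' <;> rcases mem_insert.1 hy with rfl | hy'
    · exact absurd rfl hxy
    · exact (h.nbr y).2 (Or.inr hy')
    · exact ((h.nbr x).2 (Or.inr hx')).symm
    · exact h.cB x hx' y hy' hxy

omit [Fintype V] in
/-- The neighbourhood of `a₁` when `a₁` and `a₂` have no fourth common neighbour. -/
theorem side {a₁ a₂ a₃ b₁ v : V} {A B : Finset V} (h : QV G a₁ A B) (h2 : G.Adj a₁ a₂)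
    (h3 : G.Adj a₁ a₃) (hb : G.Adj a₁ b₁) (hv : G.Adj a₁ v) (hab : ¬ G.Adj a₃ b₁) (hne : a₃ ≠ b₁)
    (hno : ∀ x, G.Adj a₁ x → G.Adj a₂ x → x = v ∨ x = a₃ ∨ x = b₁) :
    ∃ (p : V) (T : Finset V), (p = a₃ ∨ p = b₁) ∧ T.card = 2 ∧
      (∀ x ∈ T, G.Adj a₁ x ∧ G.Adj p x ∧ ¬ G.Adj a₂ x ∧ x ≠ a₂) ∧
      ∀ y, G.Adj a₁ y → y = v ∨ y = a₂ ∨ y = a₃ ∨ y = b₁ ∨ y ∈ T := by
  wlog ha2 : a₂ ∈ A generalizing A B
  · rcases (h.nbr a₂).1 h2 with h4 | h4
    · exact absurd h4 ha2
    · exact this h.swap h4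
  have hA : ∀ x ∈ A, x = a₂ ∨ x = v ∨ x = a₃ ∨ x = b₁ := by
    intro x hx
    by_cases hx2 : x = a₂
    · exact Or.inl hx2
    · exact Or.inr (hno x ((h.nbr x).2 (Or.inl hx)) (h.cA a₂ ha2 x hx (Ne.symm hx2)))
  have key : ∀ p q, (p = a₃ ∧ q = b₁) ∨ (p = b₁ ∧ q = a₃) → p ∉ A →
      ∃ (p : V) (T : Finset V), (p = a₃ ∨ p = b₁) ∧ T.card = 2 ∧
      (∀ x ∈ T, G.Adj a₁ x ∧ G.Adj p x ∧ ¬ G.Adj a₂ x ∧ x ≠ a₂) ∧
      ∀ y, G.Adj a₁ y → y = v ∨ y = a₂ ∨ y = a₃ ∨ y = b₁ ∨ y ∈ T := by
    intro p q hpq hpA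
    have hp1 : G.Adj a₁ p := by
      rcases hpq with h4 | h4
      · rw [h4.1]; exact h3
      · rw [h4.1]; exact hb
    have hpB : p ∈ B := by
      rcases (h.nbr p).1 hp1 with h4 | h4
      · exact absurd h4 hpA
      · exact h4
    have hAe : A = {a₂, v, q} := by
      apply eq_of_subset_of_card_le
      · intro x hx
        rw [mem_insert, mem_insert, mem_singleton]
        rcases hA x hx with h4 | h4 | h4 | h4
        · exact Or.inl h4
        · exact Or.inr (Or.inl h4)
        · rcases hpq with h5 | h5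
          · exact absurd hx (by rw [h4, ← h5.1]; exact hpA)
          · exact Or.inr (Or.inr (h4.trans h5.2.symm))
        · rcases hpq with h5 | h5
          · exact Or.inr (Or.inr (h4.trans h5.2.symm))
          · exact absurd hx (by rw [h4, ← h5.1]; exact hpA)
      · rw [h.hA]
        exact card_le_three
    refine ⟨p, B.erase p, hpq.imp (fun h => h.1) (fun h => h.1), by
      rw [card_erase_of_mem hpB, h.hB], ?_, ?_⟩
    · intro x hx
      rw [mem_erase] at hx
      have hxA : x ∉ A := fun h' => h.disj x h' hx.2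
      refine ⟨(h.nbr x).2 (Or.inr hx.2), h.cB p hpB x hx.2 (Ne.symm hx.1), ?_, ?_⟩
      · intro h4
        rcases hno x ((h.nbr x).2 (Or.inr hx.2)) h4 with h5 | h5 | h5
        · exact hxA (by rw [hAe, h5]; simp)
        · rcases hpq with h6 | h6
          · exact hx.1 (h5.trans h6.1.symm)
          · exact hxA (by rw [hAe, h5, h6.2]; simp)
        · rcases hpq with h6 | h6
          · exact hxA (by rw [hAe, h5, h6.2]; simp)
          · exact hx.1 (h5.trans h6.1.symm)
      · exact fun h4 => hxA (h4 ▸ ha2)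
    · intro y hy
      rcases (h.nbr y).1 hy with h4 | h4
      · rcases hA y h4 with h5 | h5 | h5 | h5
        · exact Or.inr (Or.inl h5)
        · exact Or.inl h5
        · exact Or.inr (Or.inr (Or.inl h5))
        · exact Or.inr (Or.inr (Or.inr (Or.inl h5)))
      · by_cases hyp : y = p
        · rcases hpq with h5 | h5
          · exact Or.inr (Or.inr (Or.inl (hyp.trans h5.1)))
          · exact Or.inr (Or.inr (Or.inr (Or.inl (hyp.trans h5.1))))
        · exact Or.inr (Or.inr (Or.inr (Or.inr (mem_erase.2 ⟨hyp, h4⟩))))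
  by_cases h4 : a₃ ∈ A
  · exact key b₁ a₃ (Or.inr ⟨rfl, rfl⟩) (fun h5 => hab (h.cA a₃ h4 b₁ h5 hne))
  · exact key a₃ b₁ (Or.inl ⟨rfl, rfl⟩) h4

end Pool.Agent.LG6
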