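import Pool.Agent.LG6.Deg

/-!
LG6: every vertex has exactly six neighbours (`card_six`), and its outside is attached to all of
them (`exists_far`).
-/

set_option autoImplicit false

namespace Pool.Agent.LG6

open Finset

variable {V : Type} {G : SimpleGraph V} [DecidableEq V] [Fintype V]

/-- No vertex of degree at least seven is adjacent to all others. -/
theorem not_univ (hG : IsKConnected 6 G) (hm : ¬ HasCompleteMinor 6 G) (hc : ClawFree G)
    {v : V} {N : Finset V} (hN : ∀ x, x ∈ N ↔ G.Adj v x) (h7 : 7 ≤ N.card) :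
    ∃ d, d ≠ v ∧ d ∉ N := by
  classical
  by_contra hall
  push Not at hall
  have hall' : ∀ x, x ≠ v → x ∈ N := hall
  -- the neighbours of `x` in `N`
  set R : V → Finset V := fun x => N.filter fun y => G.Adj x y with hR
  have hRm : ∀ x y, y ∈ R x ↔ y ∈ N ∧ G.Adj x y := fun x y => by rw [hR]; exact mem_filter
  have two : ∀ x ∈ N, ∀ r ∈ R x, ((R x).filter fun y => G.Adj r y).card ≤ 2 := by
    intro x hx r hr
    by_contra hlt
    push Not at hlt
    obtain ⟨a, ha, b, hb, c, hc', hab, hac, hbc⟩ := two_lt_card.1 hlt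
    rw [mem_filter, hRm] at ha hb hc'
    rw [hRm] at hr
    have vx := (hN x).1 hx
    have vr := (hN r).1 hr.1
    have key : ∀ p q, (p ∈ N ∧ G.Adj x p) ∧ G.Adj r p → (q ∈ N ∧ G.Adj x q) ∧ G.Adj r q →
        ¬ G.Adj p q := fun p q hp hq hpq =>
      five hG hm vx vr ((hN p).1 hp.1.1) ((hN q).1 hq.1.1) hr.2 hp.1.2 hq.1.2 hp.2 hq.2 hpq
    rcases hc x a b c ha.1.2 hb.1.2 hc'.1.2 hab hac hbc with h | h | h
    · exact key a b ha hb h
    · exact key a c ha hc' h
    · exact key b c hb hc' h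
  have two' : ∀ x ∈ N, ∀ r ∈ R x, (((R x).erase r).filter fun y => ¬ G.Adj r y).card ≤ 2 := by
    intro x hx r hr
    by_contra hlt
    push Not at hlt
    obtain ⟨a, ha, b, hb, c, hc', hab, hac, hbc⟩ := two_lt_card.1 hlt
    rw [mem_filter, mem_erase, hRm] at ha hb hc'
    rw [hRm] at hr
    have vx := (hN x).1 hx
    have key : ∀ p q, p ≠ q → (p ≠ r ∧ p ∈ N ∧ G.Adj x p) ∧ ¬ G.Adj r p →
        (q ≠ r ∧ q ∈ N ∧ G.Adj x q) ∧ ¬ G.Adj r q → G.Adj p q := by
      intro p q hpq hp hq
      rcases hc x r p q hr.2 hp.1.2.2 hq.1.2.2 hp.1.1.symm hq.1.1.symm hpq with h | h | h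
      · exact absurd h hp.2
      · exact absurd h hq.2
      · exact h
    exact five hG hm vx ((hN a).1 ha.1.2.1) ((hN b).1 hb.1.2.1) ((hN c).1 hc'.1.2.1)
      ha.1.2.2 hb.1.2.2 hc'.1.2.2 (key a b hab ha hb) (key a c hac ha hc') (key b c hbc hb hc')
  have le5 : ∀ x ∈ N, (R x).card ≤ 5 := by
    intro x hx
    rcases (R x).eq_empty_or_nonempty with h0 | ⟨r, hr⟩
    · rw [h0, card_empty]
      omega
    · have h1 := two x hx r hr
      have h2 := two' x hx r hr
      have h3 := card_filter_add_card_filter_not (s := (R x).erase r) (p := fun y => G.Adj r y)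
      rw [card_erase_of_mem hr] at h3
      have h4 : (((R x).erase r).filter fun y => G.Adj r y).card
          ≤ ((R x).filter fun y => G.Adj r y).card :=
        card_le_card (filter_subset_filter _ (erase_subset _ _))
      omega
  have hvN : v ∉ N := fun h => ((hN v).1 h).ne rfl
  have eq5 : ∀ x ∈ N, (R x).card = 5 := by
    intro x hx
    apply le_antisymm (le5 x hx)
    have h1 := min_deg hG x (insert v (R x)) (by
      intro f hf
      rw [mem_insert]
      by_cases hfv : f = v
      · exact Or.inl hfv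
      · exact Or.inr ((hRm x f).2 ⟨hall' f hfv, hf⟩)) (by
      rw [mem_insert]
      rintro (h | h)
      · exact hvN (h ▸ hx)
      · exact ((hRm x x).1 h).2.ne rfl)
    have h2 := card_insert_le v (R x)
    omega
  obtain ⟨x, hx⟩ : N.Nonempty := card_pos.1 (by omega)
  set B : Finset V := (N.erase x).filter fun y => ¬ G.Adj x y with hB
  have hBm : ∀ y, y ∈ B ↔ (y ≠ x ∧ y ∈ N) ∧ ¬ G.Adj x y := fun y => by
    rw [hB, mem_filter, mem_erase]
  have hBc : ∀ b ∈ B, ∀ b' ∈ B, b ≠ b' → G.Adj b b' := by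
    intro b hb b' hb' hbb
    rw [hBm] at hb hb'
    rcases hc v x b b' ((hN x).1 hx) ((hN b).1 hb.1.2) ((hN b').1 hb'.1.2) hb.1.1.symm
      hb'.1.1.symm hbb with h | h | h
    · exact absurd h hb.2
    · exact absurd h hb'.2
    · exact h
  have hcard : B.card + 6 = N.card := by
    have h1 := card_filter_add_card_filter_not (s := N.erase x) (p := fun y => G.Adj x y)
    have h2 : (N.erase x).filter (fun y => G.Adj x y) = R x := by
      ext y
      rw [mem_filter, mem_erase, hRm]
      exact ⟨fun h => ⟨h.1.2, h.2⟩, fun h => ⟨⟨h.2.ne.symm, h.1⟩, h.2⟩⟩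
    rw [h2, card_erase_of_mem hx, eq5 x hx] at h1
    have h3 : ((N.erase x).filter fun y => ¬ G.Adj x y) = B := hB.symm
    rw [h3] at h1
    omega
  -- every vertex of `R x` has at least two neighbours in `B`
  have e1 : ∀ r ∈ R x, 2 ≤ (B.filter fun b => G.Adj r b).card := by
    intro r hr
    have hr' := (hRm x r).1 hr
    have h1 := two x hx r hr
    have h2 : R r ⊆ insert x (((R x).filter fun y => G.Adj r y) ∪ B.filter fun b => G.Adj r b) := by
      intro y hy
      rw [hRm] at hy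
      rw [mem_insert, mem_union, mem_filter, mem_filter, mem_filter, hBm]
      by_cases hyx : y = x
      · exact Or.inl hyx
      · by_cases hxy : G.Adj x y
        · exact Or.inr (Or.inl ⟨⟨hy.1, hxy⟩, hy.2⟩)
        · exact Or.inr (Or.inr ⟨⟨⟨hyx, hy.1⟩, hxy⟩, hy.2⟩)
    have h3 := (card_le_card h2).trans (card_insert_le _ _)
    have h4 := card_union_le ((R x).filter fun y => G.Adj r y) (B.filter fun b => G.Adj r b)
    have h5 := eq5 r hr'.1
    omega
  -- every vertex of `B` has `6 - |B|` neighbours in `R x`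
  have e2 : ∀ b ∈ B, ((R x).filter fun r => G.Adj r b).card + B.card ≤ 6 := by
    intro b hb
    have hb' := (hBm b).1 hb
    have h1 : ((R x).filter fun r => G.Adj r b) ∪ B.erase b ⊆ R b := by
      intro y hy
      rw [mem_union, mem_filter, mem_erase] at hy
      rw [hRm]
      rcases hy with h | h
      · exact ⟨((hRm x y).1 h.1).1, h.2.symm⟩
      · exact ⟨((hBm y).1 h.2).1.2, hBc b hb y h.2 h.1.symm⟩
    have h2 := card_le_card h1
    rw [card_union_of_disjoint, card_erase_of_mem hb, eq5 b hb'.1.2] at h2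
    · have := card_pos.2 ⟨b, hb⟩
      omega
    · rw [disjoint_left]
      intro y hy hy'
      exact ((hBm y).1 (mem_erase.1 hy').2).2 ((hRm x y).1 (mem_filter.1 hy).1).2
  have hsum : ∑ r ∈ R x, (B.filter fun b => G.Adj r b).card
      = ∑ b ∈ B, ((R x).filter fun r => G.Adj r b).card := by
    simp only [card_filter]
    exact sum_comm
  have hlow : 10 ≤ ∑ r ∈ R x, (B.filter fun b => G.Adj r b).card := by
    have h1 := sum_le_sum e1
    rw [sum_const, eq5 x hx, smul_eq_mul] at h1
    omega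
  have hup : ∑ b ∈ B, ((R x).filter fun r => G.Adj r b).card ≤ B.card * (6 - B.card) := by
    have h1 : ∀ b ∈ B, ((R x).filter fun r => G.Adj r b).card ≤ 6 - B.card := fun b hb => by
      have := e2 b hb
      omega
    have h2 := sum_le_sum h1
    rwa [sum_const, smul_eq_mul] at h2
  rw [hsum] at hlow
  have h9 : B.card * (6 - B.card) ≤ 9 := by
    rcases Nat.lt_or_ge B.card 7 with h | h
    · generalize B.card = n at h
      interval_cases n <;> omega
    · have : 6 - B.card = 0 := by omega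
      rw [this, Nat.mul_zero]
      omega
  omega

/-- The degrees are six. -/
theorem card_six (hG : IsKConnected 6 G) (hm : ¬ HasCompleteMinor 6 G) (hc : ClawFree G)
    {v : V} {N : Finset V} (hN : ∀ x, x ∈ N ↔ G.Adj v x) : N.card = 6 := by
  classical
  have h6 := min_deg hG v N (fun f hf => (hN f).2 hf) (fun h => ((hN v).1 h).ne rfl)
  by_contra hne
  have h7 : 7 ≤ N.card := by omega
  obtain ⟨d, hdv, hdN⟩ := not_univ hG hm hc hN h7
  obtain ⟨D, hD, hvD, hND, S, hSN, hS6, hS⟩ := exists_att hG hN hdv hdN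
  obtain ⟨S', hS', hc6⟩ := exists_subset_card_eq hS6
  obtain ⟨t₁, ht₁, t₂, ht₂, t₃, ht₃, h12, h13, h23⟩ :=
    ramsey hc (v := v) (S := S') (fun x hx => (hN x).1 (hSN (hS' hx))) hc6
  have h3 : (((S'.erase t₁).erase t₂).erase t₃).card = 3 := by
    rw [card_erase_of_mem, card_erase_of_mem, card_erase_of_mem ht₁, hc6]
    · rw [mem_erase]; exact ⟨h12.ne.symm, ht₂⟩
    · rw [mem_erase, mem_erase]; exact ⟨h23.ne.symm, h13.ne.symm, ht₃⟩
  obtain ⟨w₁, w₂, w₃, w12, w13, w23, hw⟩ := card_eq_three.1 h3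
  have mw : ∀ x, (x = w₁ ∨ x = w₂ ∨ x = w₃) → x ≠ t₃ ∧ x ≠ t₂ ∧ x ≠ t₁ ∧ x ∈ S' := by
    intro x hx
    have h4 : x ∈ ((S'.erase t₁).erase t₂).erase t₃ := by
      rw [hw, mem_insert, mem_insert, mem_singleton]
      exact hx
    rw [mem_erase, mem_erase, mem_erase] at h4
    exact h4
  obtain ⟨u, hu, huS⟩ : ∃ u ∈ N, u ∉ S' := by
    by_contra h
    push Not at h
    have := card_le_card (show N ⊆ S' from h)
    omega
  have m1 := mw w₁ (Or.inl rfl)
  have m2 := mw w₂ (Or.inr (Or.inl rfl))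
  have m3 := mw w₃ (Or.inr (Or.inr rfl))
  have hne : ∀ x ∈ S', x ≠ u := fun x hx h => huS (h ▸ hx)
  exact seven hG hm hc hN hD hvD hND hSN hS (hS' ht₁) (hS' ht₂) (hS' ht₃) h12 h13 h23
    (hS' m1.2.2.2) (hS' m2.2.2.2) (hS' m3.2.2.2) hu ⟨w12, w13, w23⟩
    ⟨hne _ m1.2.2.2, hne _ m2.2.2.2, hne _ m3.2.2.2⟩
    ⟨m1.2.2.1.symm, m2.2.2.1.symm, m3.2.2.1.symm, hne _ ht₁⟩
    ⟨m1.2.1.symm, m2.2.1.symm, m3.2.1.symm, hne _ ht₂⟩
    ⟨m1.1.symm, m2.1.symm, m3.1.symm, hne _ ht₃⟩

/-- There is a vertex outside the closed neighbourhood. -/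
theorem exists_far (hG : IsKConnected 6 G) (hm : ¬ HasCompleteMinor 6 G)
    {v : V} {N : Finset V} (h6 : N.card = 6) :
    ∃ d, d ≠ v ∧ d ∉ N := by
  by_contra hd
  push Not at hd
  have h7 : Fintype.card V ≤ 7 := by
    have h1 : (univ : Finset V) ⊆ insert v N := by
      intro x _
      rw [mem_insert]
      by_cases hx : x = v
      · exact Or.inl hx
      · exact Or.inr (hd x hx)
    have h2 := (card_le_card h1).trans (card_insert_le _ _)
    rw [card_univ, h6] at h2
    exact h2
  have h8 := clique_le hG hm univ (by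
    intro e _ f _ hef
    by_contra hno
    have h1 := min_deg hG e ((univ.erase e).erase f) (by
      intro g hg
      rw [mem_erase, mem_erase]
      exact ⟨fun h => hno (h ▸ hg), hg.ne.symm, mem_univ _⟩)
      (fun h => (mem_erase.1 (mem_erase.1 h).2).1 rfl)
    rw [card_erase_of_mem (mem_erase.2 ⟨hef.symm, mem_univ _⟩), card_erase_of_mem (mem_univ _),
      card_univ] at h1
    omega)
  rw [card_univ] at h8
  have := hG.1
  omega

end Pool.Agent.LG6
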