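import Pool.Agent.LG6.T3B

/-!
LG6: the neighbourhood of a vertex is not a 5-cycle together with a sixth vertex that has exactly
three neighbours on it.
-/

set_option autoImplicit false

namespace Pool.Agent.LG6

open Finset

variable {V : Type} {G : SimpleGraph V}

/-- `v` is adjacent to `s, t, a, b, a', b'`; `a' a t b b'` is an induced 5-cycle and `s` is adjacent
to exactly `a, t, b` on it. -/
structure T2 (G : SimpleGraph V) (v s t a b a' b' : V) : Prop where
  vs : G.Adj v s
  vt : G.Adj v t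
  va : G.Adj v a
  vb : G.Adj v b
  va' : G.Adj v a'
  vb' : G.Adj v b'
  st : G.Adj s t
  sa : G.Adj s a
  sb : G.Adj s b
  ta : G.Adj t a
  tb : G.Adj t b
  aa' : G.Adj a a'
  bb' : G.Adj b b'
  ab' : G.Adj a' b'
  nsa : ¬ G.Adj s a'
  nsb : ¬ G.Adj s b'
  nta : ¬ G.Adj t a'
  ntb : ¬ G.Adj t b'
  nab : ¬ G.Adj a b
  nab' : ¬ G.Adj a b'
  nba' : ¬ G.Adj b a'
  ne : s ≠ a' ∧ s ≠ b' ∧ t ≠ a' ∧ t ≠ b' ∧ a ≠ b ∧ a ≠ b' ∧ b ≠ a'

theorem T2.swap {v s t a b a' b' : V} (h : T2 G v s t a b a' b') : T2 G v t s a b a' b' :=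
  ⟨h.vt, h.vs, h.va, h.vb, h.va', h.vb', h.st.symm, h.ta, h.tb, h.sa, h.sb, h.aa', h.bb', h.ab',
    h.nta, h.ntb, h.nsa, h.nsb, h.nab, h.nab', h.nba',
    ⟨h.ne.2.2.1, h.ne.2.2.2.1, h.ne.1, h.ne.2.1, h.ne.2.2.2.2.1, h.ne.2.2.2.2.2.1,
      h.ne.2.2.2.2.2.2⟩⟩

theorem T2.rev {v s t a b a' b' : V} (h : T2 G v s t a b a' b') : T2 G v s t b a b' a' :=
  ⟨h.vs, h.vt, h.vb, h.va, h.vb', h.va', h.st, h.sb, h.sa, h.tb, h.ta, h.bb', h.aa', h.ab'.symm,
    h.nsb, h.nsa, h.ntb, h.nta, fun h' => h.nab h'.symm, h.nba', h.nab',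
    ⟨h.ne.2.1, h.ne.1, h.ne.2.2.2.1, h.ne.2.2.1, h.ne.2.2.2.2.1.symm, h.ne.2.2.2.2.2.2,
      h.ne.2.2.2.2.2.1⟩⟩

/-- A path with four vertices as a branch set. -/
theorem path4 (G : SimpleGraph V) {a b c d : V} (hab : G.Adj a b) (hbc : G.Adj b c)
    (hcd : G.Adj c d) : (G.induce {x | x = a ∨ x = b ∨ x = c ∨ x = d}).Connected := by
  have h : (G.induce ({a, b} ∪ {c, d} : Set V)).Connected :=
    SimpleGraph.connected_induce_union (SimpleGraph.induce_pair_connected_of_adj hab).preconnected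
      (SimpleGraph.induce_pair_connected_of_adj hcd).preconnected (Or.inr rfl) (Or.inl rfl) hbc
  have e : ({a, b} ∪ {c, d} : Set V) = {x | x = a ∨ x = b ∨ x = c ∨ x = d} := by
    ext x
    constructor
    · rintro ((h | h) | (h | h))
      · exact Or.inl h
      · exact Or.inr (Or.inl h)
      · exact Or.inr (Or.inr (Or.inl h))
      · exact Or.inr (Or.inr (Or.inr h))
    · rintro (h | h | h | h)
      · exact Or.inl (Or.inl h)
      · exact Or.inl (Or.inr h)
      · exact Or.inr (Or.inl h)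
      · exact Or.inr (Or.inr h)
  rwa [e] at h

variable [Fintype V] [DecidableEq V]

/-- A common neighbour `e` of `s`, `t`, `b` outside: the sixth neighbour of `s` is adjacent to
`b`. -/
theorem T2.common (hG : IsKConnected 6 G) (hm : ¬ HasCompleteMinor 6 G) (L : Lo G)
    {v s t a b a' b' e e' : V} (h : T2 G v s t a b a' b') (se : G.Adj s e) (te : G.Adj t e)
    (be : G.Adj b e) (nve : ¬ G.Adj v e) (se' : G.Adj s e') (nve' : ¬ G.Adj v e') (ee : e ≠ e')
    (nev : e' ≠ v) (nev' : e ≠ v) :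
    G.Adj b e' ∧ ¬ G.Adj t e' := by
  obtain ⟨vs, vt, va, vb, va', vb', st, sa, sb, ta, tb, aa', bb', ab', nsa, nsb, nta, ntb, nab,
    nab', nba', m1, m2, m3, m4, m5, m6, m7⟩ := h
  have sym := L.sym
  have irr := L.irr
  have hee : G.Adj e e' := by
    have := L.claw s v e e' vs.symm se se' (by grind) (by grind) ee
    grind
  have nae : ¬ G.Adj a e := fun hae =>
    L.dom s v t b a e e' vs.symm st sb sa se se' vt vb tb hae (by and_intros <;> grind) (Or.inl va) (Or.inl ta)
      (Or.inr be)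
  have nte : ¬ G.Adj t e' := by
    intro hte
    apply L.out s t st
    have Nt := L.all st.symm vt.symm ta tb te hte (by and_intros <;> grind)
    intro x hx
    rcases Nt x hx with rfl | rfl | rfl | rfl | rfl | rfl
    · left; rfl
    · right; exact vs.symm
    · right; exact sa
    · right; exact sb
    · right; exact se
    · right; exact se'
  refine ⟨?_, nte⟩
  by_contra hbe
  have hae' : G.Adj a e' := by
    have := L.claw s a b e' sa sb se' m5 (by grind) (by grind)
    grind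
  exact T3.false hG hm L (v := s) (w := t) (p₁ := a) (p₂ := v) (p₃ := b) (p₄ := e) (y := e')
    ⟨st, sa, vs.symm, sb, se, se', ta, vt.symm, tb, te, va.symm, vb, be, hae'.symm, hee.symm, nab,
      nae, nve, fun h => nve' h.symm, fun h => hbe h.symm, fun h => nte h.symm, by grind⟩

/-- Outside neighbours `e, e'` of `s` and `g, g'` of `t`, with `e, g` adjacent to `a` and `e', g'`
adjacent to `b`. -/
theorem T2.mixed (hm : ¬ HasCompleteMinor 6 G) (L : Lo G)
    {v s t a b a' b' e e' g g' : V} (h : T2 G v s t a b a' b') (se : G.Adj s e)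
    (se' : G.Adj s e') (tg : G.Adj t g) (tg' : G.Adj t g') (nte : ¬ G.Adj t e)
    (nte' : ¬ G.Adj t e') (nsg : ¬ G.Adj s g) (nsg' : ¬ G.Adj s g') (ee : e ≠ e') (gg : g ≠ g')
    (nve : ¬ G.Adj v e) (nve' : ¬ G.Adj v e') (nvg : ¬ G.Adj v g) (nvg' : ¬ G.Adj v g')
    (ev : e ≠ v) (ev' : e' ≠ v) (gv : g ≠ v) (gv' : g' ≠ v) (ae : G.Adj a e) (ag : G.Adj a g)
    (be' : G.Adj b e') (bg' : G.Adj b g') : False := by
  obtain ⟨vs, vt, va, vb, va', vb', st, sa, sb, ta, tb, aa', bb', ab', nsa, nsb, nta, ntb, nab,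
    nab', nba', m1, m2, m3, m4, m5, m6, m7⟩ := h
  have sym := L.sym
  have irr := L.irr
  have ndist : ∀ x y z, G.Adj x y → ¬ G.Adj x z → y ≠ z := fun x y z h h' e => h' (e ▸ h)
  have es : e ≠ s := se.ne.symm
  have es' : e' ≠ s := se'.ne.symm
  have et : e ≠ t := (ndist v t e vt nve).symm
  have et' : e' ≠ t := (ndist v t e' vt nve').symm
  have gs : g ≠ s := (ndist v s g vs nvg).symm
  have gs' : g' ≠ s := (ndist v s g' vs nvg').symm
  have gt : g ≠ t := tg.ne.symm
  have gt' : g' ≠ t := tg'.ne.symm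
  have eg : e ≠ g := ndist s e g se nsg
  have eg' : e ≠ g' := ndist s e g' se nsg'
  have e'g : e' ≠ g := ndist s e' g se' nsg
  have e'g' : e' ≠ g' := ndist s e' g' se' nsg'
  have ea' : e ≠ a' := (ndist v a' e va' nve).symm
  have eb' : e ≠ b' := (ndist v b' e vb' nve).symm
  have e'a' : e' ≠ a' := (ndist v a' e' va' nve').symm
  have e'b' : e' ≠ b' := (ndist v b' e' vb' nve').symm
  have ga' : g ≠ a' := (ndist v a' g va' nvg).symm
  have gb' : g ≠ b' := (ndist v b' g vb' nvg).symm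
  have g'a' : g' ≠ a' := (ndist v a' g' va' nvg').symm
  have g'b' : g' ≠ b' := (ndist v b' g' vb' nvg').symm
  have ea : e ≠ a := ae.ne.symm
  have ga : g ≠ a := ag.ne.symm
  have e'b : e' ≠ b := be'.ne.symm
  have g'b : g' ≠ b := bg'.ne.symm
  have eb : e ≠ b := (ndist v b e vb nve).symm
  have gb : g ≠ b := (ndist v b g vb nvg).symm
  have e'a : e' ≠ a := (ndist v a e' va nve').symm
  have g'a : g' ≠ a := (ndist v a g' va nvg').symm
  have Na := L.all va.symm sa.symm ta.symm aa' ae ag (by and_intros <;> grind)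
  have Nb := L.all vb.symm sb.symm tb.symm bb' be' bg' (by and_intros <;> grind)
  have hee : G.Adj e e' := by
    have := L.claw s v e e' vs.symm se se' (by grind) (by grind) ee
    grind
  have hgg : G.Adj g g' := by
    have := L.claw t v g g' vt.symm tg tg' (by grind) (by grind) gg
    grind
  have heg : G.Adj e g := by
    have := L.claw a v e g va.symm ae ag (by grind) (by grind) eg
    grind
  have hea : G.Adj a' e := by
    have := L.claw a t a' e ta.symm aa' ae (by grind) (by grind) (by grind)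
    grind
  have hga : G.Adj a' g := by
    have := L.claw a s a' g sa.symm aa' ag (by grind) (by grind) (by grind)
    grind
  have heg' : G.Adj e' g' := by
    have := L.claw b v e' g' vb.symm be' bg' (by grind) (by grind) e'g'
    grind
  have heb : G.Adj b' e' := by
    have := L.claw b t b' e' tb.symm bb' be' (by grind) (by grind) (by grind)
    grind
  have hgb : G.Adj b' g' := by
    have := L.claw b s b' g' sb.symm bb' bg' (by grind) (by grind) (by grind)
    grind
  obtain ⟨z, az, zv, za, zb', ze, zg, Na'⟩ :=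
    L.more5 va'.symm aa'.symm ab' hea hga (by and_intros <;> grind)
  have Nv := L.all vs vt va vb va' vb' (by and_intros <;> grind)
  have nvz : ¬ G.Adj v z := by grind
  have hez : G.Adj e z := by
    have := L.claw a' v e z va'.symm hea az (by grind) (by grind) (by grind)
    grind
  have hgz : G.Adj g z := by
    have := L.claw a' v g z va'.symm hga az (by grind) (by grind) (by grind)
    grind
  have naz : ¬ G.Adj a z := by grind
  have hbz : G.Adj b' z := by
    have := L.claw a' a b' z aa'.symm ab' az (by grind) (by grind) (by grind)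
    grind
  have ze' : z ≠ e' := by
    rintro rfl
    exact L.seven se'.symm be'.symm hee.symm heg' heb.symm az.symm hgz.symm
      (by and_intros <;> grind)
  have zg' : z ≠ g' := by
    rintro rfl
    exact L.seven tg'.symm bg'.symm hgg.symm heg'.symm hgb.symm az.symm hez.symm
      (by and_intros <;> grind)
  have hez' : G.Adj e' z := by
    have := L.claw b' v e' z vb'.symm heb hbz (by grind) (by grind) (by grind)
    grind
  refine model hm vs vt va st sa ta {x | x = b ∨ x = e' ∨ x = z ∨ x = a'}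
    {x | x = b' ∨ x = g' ∨ x = g ∨ x = e} (path4 G be' hez' az.symm)
    (path4 G hgb hgg.symm heg.symm) ?_ ?_ ?_ ⟨b, Or.inl rfl, b', Or.inl rfl, bb'⟩
    ⟨b, Or.inl rfl, vb⟩ ⟨b, Or.inl rfl, sb⟩ ⟨b, Or.inl rfl, tb⟩
    ⟨a', Or.inr (Or.inr (Or.inr rfl)), aa'⟩ ⟨b', Or.inl rfl, vb'⟩
    ⟨e, Or.inr (Or.inr (Or.inr rfl)), se⟩ ⟨g, Or.inr (Or.inr (Or.inl rfl)), tg⟩
    ⟨g, Or.inr (Or.inr (Or.inl rfl)), ag⟩
  · simp only [Set.mem_setOf_eq]
    and_intros <;> grind
  · simp only [Set.mem_setOf_eq]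
    and_intros <;> grind
  · simp only [Set.mem_setOf_eq]
    rintro x (rfl | rfl | rfl | rfl)
    all_goals grind

theorem T2.nocommon_b (hG : IsKConnected 6 G) (hm : ¬ HasCompleteMinor 6 G) (L : Lo G)
    {v s t a b a' b' e : V} (h : T2 G v s t a b a' b') (se : G.Adj s e) (te : G.Adj t e)
    (be : G.Adj b e) (nve : ¬ G.Adj v e) (nev : e ≠ v) : False := by
  have h' := h
  obtain ⟨vs, vt, va, vb, va', vb', st, sa, sb, ta, tb, aa', bb', ab', nsa, nsb, nta, ntb, nab,
    nab', nba', m1, m2, m3, m4, m5, m6, m7⟩ := h'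
  have sym := L.sym
  have irr := L.irr
  obtain ⟨e', se', ev', et', ea', eb', ee', Ns⟩ :=
    L.more5 vs.symm st sa sb se (by and_intros <;> grind)
  obtain ⟨g', tg', gv', gs', ga', gb', ge', Nt⟩ :=
    L.more5 vt.symm st.symm ta tb te (by and_intros <;> grind)
  have Nv := L.all vs vt va vb va' vb' (by and_intros <;> grind)
  have nve' : ¬ G.Adj v e' := by grind
  have nvg' : ¬ G.Adj v g' := by grind
  obtain ⟨be', nte'⟩ := h.common hG hm L se te be nve se' nve' (Ne.symm ee') ev' nev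
  obtain ⟨bg', nsg'⟩ := h.swap.common hG hm L te se be nve tg' nvg' (Ne.symm ge') gv' nev
  have q1 : e' ≠ g' := fun h => nte' (h ▸ tg')
  exact L.seven vb.symm sb.symm tb.symm bb' be be' bg' (by and_intros <;> grind)

theorem T2.nocommon (hG : IsKConnected 6 G) (hm : ¬ HasCompleteMinor 6 G) (L : Lo G)
    {v s t a b a' b' e : V} (h : T2 G v s t a b a' b') (se : G.Adj s e) (te : G.Adj t e)
    (nve : ¬ G.Adj v e) (nev : e ≠ v) : False := by
  have m1 : a ≠ e := fun h' => nve (h' ▸ h.va)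
  have m2 : b ≠ e := fun h' => nve (h' ▸ h.vb)
  rcases L.claw s a b e h.sa h.sb se h.ne.2.2.2.2.1 m1 m2 with h1 | h1 | h1
  · exact h.nab h1
  · exact h.rev.nocommon_b hG hm L se te h1 nve nev
  · exact h.nocommon_b hG hm L se te h1 nve nev

theorem T2.same (L : Lo G) {v s t a b a' b' e e' : V} (h : T2 G v s t a b a' b')
    (se : G.Adj s e) (se' : G.Adj s e') (ee : e ≠ e') (nve : ¬ G.Adj v e) (nve' : ¬ G.Adj v e')
    (ev : e ≠ v) (ev' : e' ≠ v) (nte : ¬ G.Adj t e) (nte' : ¬ G.Adj t e') (ae : G.Adj a e)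
    (ae' : G.Adj a e') : False := by
  obtain ⟨vs, vt, va, vb, va', vb', st, sa, sb, ta, tb, aa', bb', ab', nsa, nsb, nta, ntb, nab,
    nab', nba', m1, m2, m3, m4, m5, m6, m7⟩ := h
  have sym := L.sym
  have irr := L.irr
  have hee : G.Adj e e' := by
    have := L.claw s v e e' vs.symm se se' (by grind) (by grind) ee
    grind
  have h1 : G.Adj a' e := by
    have := L.claw a t a' e ta.symm aa' ae (by grind) (by grind) (by grind)
    grind
  have h2 : G.Adj a' e' := by
    have := L.claw a t a' e' ta.symm aa' ae' (by grind) (by grind) (by grind)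
    grind
  exact L.dom a s e e' v a' t sa.symm ae ae' va.symm aa' ta.symm se se' hee va'
    (by and_intros <;> grind) (Or.inl vs.symm) (Or.inr h1.symm) (Or.inr h2.symm)

/-- The configuration `T2` does not occur. -/
theorem T2.false (hG : IsKConnected 6 G) (hm : ¬ HasCompleteMinor 6 G) (L : Lo G)
    {v s t a b a' b' : V} (h : T2 G v s t a b a' b') : False := by
  have h' := h
  obtain ⟨vs, vt, va, vb, va', vb', st, sa, sb, ta, tb, aa', bb', ab', nsa, nsb, nta, ntb, nab,
    nab', nba', m1, m2, m3, m4, m5, m6, m7⟩ := h'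
  have sym := L.sym
  have irr := L.irr
  have Nv := L.all vs vt va vb va' vb' (by and_intros <;> grind)
  obtain ⟨e, e', se, se', ee, ⟨ev, et, ea, eb⟩, ⟨ev', et', ea', eb'⟩, Ns⟩ :=
    L.more4 vs.symm st sa sb (by and_intros <;> grind)
  obtain ⟨g, g', tg, tg', gg, ⟨gv, gs, ga, gb⟩, ⟨gv', gs', ga', gb'⟩, Nt⟩ :=
    L.more4 vt.symm st.symm ta tb (by and_intros <;> grind)
  have nve : ¬ G.Adj v e := by grind
  have nve' : ¬ G.Adj v e' := by grind
  have nvg : ¬ G.Adj v g := by grind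
  have nvg' : ¬ G.Adj v g' := by grind
  have nte : ¬ G.Adj t e := fun h1 => h.nocommon hG hm L se h1 nve ev
  have nte' : ¬ G.Adj t e' := fun h1 => h.nocommon hG hm L se' h1 nve' ev'
  have nsg : ¬ G.Adj s g := fun h1 => h.nocommon hG hm L h1 tg nvg gv
  have nsg' : ¬ G.Adj s g' := fun h1 => h.nocommon hG hm L h1 tg' nvg' gv'
  have k1 := fun h1 => h.same L se se' ee nve nve' ev ev' nte nte' h1
  have k2 := fun h1 => h.rev.same L se se' ee nve nve' ev ev' nte nte' h1
  have k3 := fun h1 => h.swap.same L tg tg' gg nvg nvg' gv gv' nsg nsg' h1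
  have k4 := fun h1 => h.rev.swap.same L tg tg' gg nvg nvg' gv gv' nsg nsg' h1
  have c1 : G.Adj a e ∨ G.Adj b e := by
    have := L.claw s a b e sa sb se m5 (by grind) (by grind)
    grind
  have c2 : G.Adj a e' ∨ G.Adj b e' := by
    have := L.claw s a b e' sa sb se' m5 (by grind) (by grind)
    grind
  have c3 : G.Adj a g ∨ G.Adj b g := by
    have := L.claw t a b g ta tb tg m5 (by grind) (by grind)
    grind
  have c4 : G.Adj a g' ∨ G.Adj b g' := by
    have := L.claw t a b g' ta tb tg' m5 (by grind) (by grind)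
    grind
  have d1 : (G.Adj a e ∧ G.Adj b e') ∨ (G.Adj a e' ∧ G.Adj b e) := by
    rcases c1 with h1 | h1 <;> rcases c2 with h2 | h2
    · exact (k1 h1 h2).elim
    · exact Or.inl ⟨h1, h2⟩
    · exact Or.inr ⟨h2, h1⟩
    · exact (k2 h1 h2).elim
  have d2 : (G.Adj a g ∧ G.Adj b g') ∨ (G.Adj a g' ∧ G.Adj b g) := by
    rcases c3 with h1 | h1 <;> rcases c4 with h2 | h2
    · exact (k3 h1 h2).elim
    · exact Or.inl ⟨h1, h2⟩
    · exact Or.inr ⟨h2, h1⟩
    · exact (k4 h1 h2).elim
  rcases d1 with ⟨p1, p2⟩ | ⟨p1, p2⟩ <;> rcases d2 with ⟨p3, p4⟩ | ⟨p3, p4⟩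
  · exact h.mixed hm L se se' tg tg' nte nte' nsg nsg' ee gg nve nve' nvg nvg' ev ev' gv gv'
      p1 p3 p2 p4
  · exact h.mixed hm L se se' tg' tg nte nte' nsg' nsg ee gg.symm nve nve' nvg' nvg ev ev' gv' gv
      p1 p3 p2 p4
  · exact h.mixed hm L se' se tg tg' nte' nte nsg nsg' ee.symm gg nve' nve nvg nvg' ev' ev gv gv'
      p1 p3 p2 p4
  · exact h.mixed hm L se' se tg' tg nte' nte nsg' nsg ee.symm gg.symm nve' nve nvg' nvg ev' ev
      gv' gv p1 p3 p2 p4

end Pool.Agent.LG6
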