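import Pool.Agent.LG6.Lo

/-!
LG6: the neighbourhood of a vertex is not a 5-cycle together with a sixth vertex that has exactly
four neighbours on it.
-/

set_option autoImplicit false

namespace Pool.Agent.LG6

open Finset

variable {V : Type} {G : SimpleGraph V}

/-- `v` is adjacent to `w, p₁, …, p₄, y`; `p₁ p₂ p₃ p₄` is an induced path, `w` is adjacent to all
`pᵢ`, `y` to `p₁` and `p₄` only. -/
structure T3 (G : SimpleGraph V) (v w p₁ p₂ p₃ p₄ y : V) : Prop where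
  vw : G.Adj v w
  v1 : G.Adj v p₁
  v2 : G.Adj v p₂
  v3 : G.Adj v p₃
  v4 : G.Adj v p₄
  vy : G.Adj v y
  w1 : G.Adj w p₁
  w2 : G.Adj w p₂
  w3 : G.Adj w p₃
  w4 : G.Adj w p₄
  p12 : G.Adj p₁ p₂
  p23 : G.Adj p₂ p₃
  p34 : G.Adj p₃ p₄
  y1 : G.Adj y p₁
  y4 : G.Adj y p₄
  n13 : ¬ G.Adj p₁ p₃
  n14 : ¬ G.Adj p₁ p₄
  n24 : ¬ G.Adj p₂ p₄
  ny2 : ¬ G.Adj y p₂
  ny3 : ¬ G.Adj y p₃
  nyw : ¬ G.Adj y w
  ne : p₁ ≠ p₃ ∧ p₁ ≠ p₄ ∧ p₂ ≠ p₄ ∧ y ≠ p₂ ∧ y ≠ p₃ ∧ y ≠ w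

theorem T3.rev {v w p₁ p₂ p₃ p₄ y : V} (h : T3 G v w p₁ p₂ p₃ p₄ y) : T3 G v w p₄ p₃ p₂ p₁ y :=
  ⟨h.vw, h.v4, h.v3, h.v2, h.v1, h.vy, h.w4, h.w3, h.w2, h.w1, h.p34.symm, h.p23.symm, h.p12.symm,
    h.y4, h.y1, fun h' => h.n24 h'.symm, fun h' => h.n14 h'.symm, fun h' => h.n13 h'.symm,
    h.ny3, h.ny2, h.nyw, ⟨h.ne.2.2.1.symm, h.ne.2.1.symm, h.ne.1.symm, h.ne.2.2.2.2.1,
      h.ne.2.2.2.1, h.ne.2.2.2.2.2⟩⟩

/-- The sixth neighbour `x` of `w`. -/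
theorem T3.x (L : Lo G) {v w p₁ p₂ p₃ p₄ y : V} (h : T3 G v w p₁ p₂ p₃ p₄ y) :
    ∃ x, G.Adj w x ∧ ¬ G.Adj v x ∧ x ≠ v ∧ x ≠ p₁ ∧ x ≠ p₂ ∧ x ≠ p₃ ∧ x ≠ p₄ ∧ x ≠ y ∧
      (∀ z, G.Adj w z → z = v ∨ z = p₁ ∨ z = p₂ ∨ z = p₃ ∨ z = p₄ ∨ z = x) ∧
      ((G.Adj x p₁ ∧ G.Adj x p₄ ∧ ¬ G.Adj x p₂ ∧ ¬ G.Adj x p₃) ∨
       (G.Adj x p₁ ∧ G.Adj x p₂ ∧ ¬ G.Adj x p₃ ∧ ¬ G.Adj x p₄) ∨
       (G.Adj x p₄ ∧ G.Adj x p₃ ∧ ¬ G.Adj x p₂ ∧ ¬ G.Adj x p₁)) := by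
  obtain ⟨vw, v1, v2, v3, v4, vy, w1, w2, w3, w4, p12, p23, p34, y1, y4, n13, n14, n24, ny2, ny3,
    nyw, m13, m14, m24, my2, my3, myw⟩ := h
  have sym := L.sym
  have irr := L.irr
  have Nv := L.all vw v1 v2 v3 v4 vy (by grind)
  obtain ⟨x, wx, xv, x1, x2, x3, x4, Nw⟩ := L.more5 (vw.symm) w1 w2 w3 w4 (by grind)
  have nvx : ¬ G.Adj v x := by grind
  have c13 := L.claw w x p₁ p₃ wx w1 w3 (by grind) (by grind) m13
  have c14 := L.claw w x p₁ p₄ wx w1 w4 (by grind) (by grind) m14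
  have c24 := L.claw w x p₂ p₄ wx w2 w4 (by grind) (by grind) m24
  refine ⟨x, wx, nvx, xv, x1, x2, x3, x4, by grind, Nw, ?_⟩
  have e123 : G.Adj x p₁ → G.Adj x p₂ → G.Adj x p₃ → False := fun a b c =>
    L.dom w v p₂ p₃ x p₁ p₄ vw.symm w2 w3 wx w1 w4 v2 v3 p23 a (by grind) (by grind) (by grind)
      (by grind)
  have e234 : G.Adj x p₂ → G.Adj x p₃ → G.Adj x p₄ → False := fun a b c =>
    L.dom w v p₂ p₃ x p₄ p₁ vw.symm w2 w3 wx w4 w1 v2 v3 p23 c (by grind) (by grind) (by grind)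
      (by grind)
  have e124 : G.Adj x p₁ → G.Adj x p₂ → G.Adj x p₄ → False := fun a b c =>
    L.dom w v p₁ p₂ x p₄ p₃ vw.symm w1 w2 wx w4 w3 v1 v2 p12 c (by grind) (by grind) (by grind)
      (by grind)
  have e134 : G.Adj x p₁ → G.Adj x p₃ → G.Adj x p₄ → False := fun a b c =>
    L.dom w v p₃ p₄ x p₁ p₂ vw.symm w3 w4 wx w1 w2 v3 v4 p34 a (by grind) (by grind) (by grind)
      (by grind)
  grind

/-- An explicit model: the clique `K = {k₁, k₂, k₃, k₄}` and the connected sets `P`, `Q`. -/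
theorem model (hm : ¬ HasCompleteMinor 6 G) [DecidableEq V] {k₁ k₂ k₃ k₄ : V}
    (h12 : G.Adj k₁ k₂) (h13 : G.Adj k₁ k₃) (h14 : G.Adj k₁ k₄) (h23 : G.Adj k₂ k₃)
    (h24 : G.Adj k₂ k₄) (h34 : G.Adj k₃ k₄) (P Q : Set V)
    (hP : (G.induce P).Connected) (hQ : (G.induce Q).Connected)
    (nP : k₁ ∉ P ∧ k₂ ∉ P ∧ k₃ ∉ P ∧ k₄ ∉ P) (nQ : k₁ ∉ Q ∧ k₂ ∉ Q ∧ k₃ ∉ Q ∧ k₄ ∉ Q)
    (hd : ∀ x ∈ P, x ∉ Q) (hadj : ∃ x ∈ P, ∃ y ∈ Q, G.Adj x y)
    (a1 : ∃ y ∈ P, G.Adj k₁ y) (a2 : ∃ y ∈ P, G.Adj k₂ y) (a3 : ∃ y ∈ P, G.Adj k₃ y)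
    (a4 : ∃ y ∈ P, G.Adj k₄ y) (b1 : ∃ y ∈ Q, G.Adj k₁ y) (b2 : ∃ y ∈ Q, G.Adj k₂ y)
    (b3 : ∃ y ∈ Q, G.Adj k₃ y) (b4 : ∃ y ∈ Q, G.Adj k₄ y) : False := by
  apply hm
  apply clique_two {k₁, k₂, k₃, k₄} ?_ ?_ P Q hP hQ ?_ ?_ (Set.disjoint_left.2 hd) hadj ?_ ?_
  · intro e he f hf hef
    simp only [mem_insert, mem_singleton] at he hf
    rcases he with rfl | rfl | rfl | rfl <;> rcases hf with rfl | rfl | rfl | rfl
    all_goals first
      | exact absurd rfl hef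
      | assumption
      | (apply SimpleGraph.Adj.symm; assumption)
  · rw [card_insert_of_notMem, card_insert_of_notMem, card_insert_of_notMem, card_singleton]
    · rw [mem_singleton]; exact h34.ne
    · simp only [mem_insert, mem_singleton]
      rintro (h | h)
      · exact h23.ne h
      · exact h24.ne h
    · simp only [mem_insert, mem_singleton]
      rintro (h | h | h)
      · exact h12.ne h
      · exact h13.ne h
      · exact h14.ne h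
  · intro e he
    simp only [mem_insert, mem_singleton] at he
    rcases he with rfl | rfl | rfl | rfl
    · exact nP.1
    · exact nP.2.1
    · exact nP.2.2.1
    · exact nP.2.2.2
  · intro e he
    simp only [mem_insert, mem_singleton] at he
    rcases he with rfl | rfl | rfl | rfl
    · exact nQ.1
    · exact nQ.2.1
    · exact nQ.2.2.1
    · exact nQ.2.2.2
  · intro e he
    simp only [mem_insert, mem_singleton] at he
    rcases he with rfl | rfl | rfl | rfl <;> assumption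
  · intro e he
    simp only [mem_insert, mem_singleton] at he
    rcases he with rfl | rfl | rfl | rfl <;> assumption

/-- A path with three vertices as a branch set. -/
theorem path3 (G : SimpleGraph V) {a b c : V} (hab : G.Adj a b) (hbc : G.Adj b c) :
    (G.induce {x | x = a ∨ x = b ∨ x = c}).Connected := by
  have h := triple_connected G hab hbc
  have e : ({a, b} ∪ {c} : Set V) = {x | x = a ∨ x = b ∨ x = c} := by
    ext x
    constructor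
    · rintro ((h | h) | h)
      · exact Or.inl h
      · exact Or.inr (Or.inl h)
      · exact Or.inr (Or.inr h)
    · rintro (h | h | h)
      · exact Or.inl (Or.inl h)
      · exact Or.inl (Or.inr h)
      · exact Or.inr h
  rwa [e] at h

/-- An explicit model with two paths on three vertices. -/
theorem model3 (hm : ¬ HasCompleteMinor 6 G) [DecidableEq V] {k₁ k₂ k₃ k₄ a b c d e f : V}
    (h12 : G.Adj k₁ k₂) (h13 : G.Adj k₁ k₃) (h14 : G.Adj k₁ k₄) (h23 : G.Adj k₂ k₃)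
    (h24 : G.Adj k₂ k₄) (h34 : G.Adj k₃ k₄) (hab : G.Adj a b) (hbc : G.Adj b c)
    (hde : G.Adj d e) (hef : G.Adj e f)
    (n1 : (k₁ ≠ a ∧ k₁ ≠ b ∧ k₁ ≠ c) ∧ (k₁ ≠ d ∧ k₁ ≠ e ∧ k₁ ≠ f))
    (n2 : (k₂ ≠ a ∧ k₂ ≠ b ∧ k₂ ≠ c) ∧ (k₂ ≠ d ∧ k₂ ≠ e ∧ k₂ ≠ f))
    (n3 : (k₃ ≠ a ∧ k₃ ≠ b ∧ k₃ ≠ c) ∧ (k₃ ≠ d ∧ k₃ ≠ e ∧ k₃ ≠ f))
    (n4 : (k₄ ≠ a ∧ k₄ ≠ b ∧ k₄ ≠ c) ∧ (k₄ ≠ d ∧ k₄ ≠ e ∧ k₄ ≠ f))
    (na : a ≠ d ∧ a ≠ e ∧ a ≠ f) (nb : b ≠ d ∧ b ≠ e ∧ b ≠ f) (nc : c ≠ d ∧ c ≠ e ∧ c ≠ f)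
    (hadj : ∃ x, (x = a ∨ x = b ∨ x = c) ∧ ∃ y, (y = d ∨ y = e ∨ y = f) ∧ G.Adj x y)
    (a1 : G.Adj k₁ a ∨ G.Adj k₁ b ∨ G.Adj k₁ c) (a2 : G.Adj k₂ a ∨ G.Adj k₂ b ∨ G.Adj k₂ c)
    (a3 : G.Adj k₃ a ∨ G.Adj k₃ b ∨ G.Adj k₃ c) (a4 : G.Adj k₄ a ∨ G.Adj k₄ b ∨ G.Adj k₄ c)
    (b1 : G.Adj k₁ d ∨ G.Adj k₁ e ∨ G.Adj k₁ f) (b2 : G.Adj k₂ d ∨ G.Adj k₂ e ∨ G.Adj k₂ f)
    (b3 : G.Adj k₃ d ∨ G.Adj k₃ e ∨ G.Adj k₃ f) (b4 : G.Adj k₄ d ∨ G.Adj k₄ e ∨ G.Adj k₄ f) :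
    False := by
  have hn : ∀ k p q r : V, (k ≠ p ∧ k ≠ q ∧ k ≠ r) → k ∉ {x | x = p ∨ x = q ∨ x = r} := by
    rintro k p q r ⟨h1, h2, h3⟩ (h | h | h)
    · exact h1 h
    · exact h2 h
    · exact h3 h
  have ha : ∀ k p q r : V, (G.Adj k p ∨ G.Adj k q ∨ G.Adj k r) →
      ∃ y ∈ {x | x = p ∨ x = q ∨ x = r}, G.Adj k y := by
    rintro k p q r (h | h | h)
    · exact ⟨p, Or.inl rfl, h⟩
    · exact ⟨q, Or.inr (Or.inl rfl), h⟩
    · exact ⟨r, Or.inr (Or.inr rfl), h⟩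
  refine model hm h12 h13 h14 h23 h24 h34 {x | x = a ∨ x = b ∨ x = c}
    {x | x = d ∨ x = e ∨ x = f} (path3 G hab hbc) (path3 G hde hef)
    ⟨hn _ _ _ _ n1.1, hn _ _ _ _ n2.1, hn _ _ _ _ n3.1, hn _ _ _ _ n4.1⟩
    ⟨hn _ _ _ _ n1.2, hn _ _ _ _ n2.2, hn _ _ _ _ n3.2, hn _ _ _ _ n4.2⟩ ?_ ?_
    (ha _ _ _ _ a1) (ha _ _ _ _ a2) (ha _ _ _ _ a3) (ha _ _ _ _ a4)
    (ha _ _ _ _ b1) (ha _ _ _ _ b2) (ha _ _ _ _ b3) (ha _ _ _ _ b4)
  · rintro x (rfl | rfl | rfl)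
    · exact hn _ _ _ _ na
    · exact hn _ _ _ _ nb
    · exact hn _ _ _ _ nc
  · obtain ⟨x, hx, y, hy, hxy⟩ := hadj
    exact ⟨x, hx, y, hy, hxy⟩

variable [Fintype V] [DecidableEq V]

/-- First case: `x` is adjacent to `p₁` and `p₄`. -/
theorem T3.A (hG : IsKConnected 6 G) (hm : ¬ HasCompleteMinor 6 G) (L : Lo G)
    {v w p₁ p₂ p₃ p₄ y x : V} (h : T3 G v w p₁ p₂ p₃ p₄ y) (wx : G.Adj w x)
    (nvx : ¬ G.Adj v x) (xv : x ≠ v) (xy : x ≠ y)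
    (Nw : ∀ z, G.Adj w z → z = v ∨ z = p₁ ∨ z = p₂ ∨ z = p₃ ∨ z = p₄ ∨ z = x)
    (x1 : G.Adj x p₁) (x4 : G.Adj x p₄) (nx2 : ¬ G.Adj x p₂) (nx3 : ¬ G.Adj x p₃) : False := by
  obtain ⟨vw, v1, v2, v3, v4, vy, w1, w2, w3, w4, p12, p23, p34, y1, y4, n13, n14, n24, ny2, ny3,
    nyw, m13, m14, m24, my2, my3, myw⟩ := h
  have sym := L.sym
  have irr := L.irr
  have Nv := L.all vw v1 v2 v3 v4 vy (by grind)
  have hxy : G.Adj x y := by
    rcases L.claw p₁ p₂ x y p12 x1.symm y1.symm (by grind) (by grind) xy with h | h | h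
    · exact absurd h.symm nx2
    · exact absurd h.symm ny2
    · exact h
  obtain ⟨z1, pz1, z1v, z1w, z12, z1y, z1x, N1⟩ :=
    L.more5 v1.symm w1.symm p12 y1.symm x1.symm (by grind)
  obtain ⟨z4, pz4, z4v, z4w, z43, z4y, z4x, N4⟩ :=
    L.more5 v4.symm w4.symm p34.symm y4.symm x4.symm (by grind)
  have nvz1 : ¬ G.Adj v z1 := by grind
  have nwz1 : ¬ G.Adj w z1 := by grind
  have nvz4 : ¬ G.Adj v z4 := by grind
  have nwz4 : ¬ G.Adj w z4 := by grind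
  have xz1 : G.Adj x z1 := by
    have := L.claw p₁ v x z1 v1.symm x1.symm pz1 (by grind) (by grind) (by grind)
    grind
  have yz1 : G.Adj y z1 := by
    have := L.claw p₁ w y z1 w1.symm y1.symm pz1 (by grind) (by grind) (by grind)
    grind
  have xz4 : G.Adj x z4 := by
    have := L.claw p₄ v x z4 v4.symm x4.symm pz4 (by grind) (by grind) (by grind)
    grind
  have yz4 : G.Adj y z4 := by
    have := L.claw p₄ w y z4 w4.symm y4.symm pz4 (by grind) (by grind) (by grind)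
    grind
  obtain ⟨e, e', pe, pe', ee, ⟨ev, ew, e1, e3⟩, ⟨ev', ew', e1', e3'⟩, N2⟩ :=
    L.more4 v2.symm w2.symm p12.symm p23 (by grind)
  obtain ⟨f, f', pf, pf', ff, ⟨fv, fw, f2, f4⟩, ⟨fv', fw', f2', f4'⟩, N3⟩ :=
    L.more4 v3.symm w3.symm p23.symm p34 (by grind)
  have nve : ¬ G.Adj v e := by grind
  have nve' : ¬ G.Adj v e' := by grind
  have nvf : ¬ G.Adj v f := by grind
  have nvf' : ¬ G.Adj v f' := by grind
  have hee : G.Adj e e' := by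
    have := L.claw p₂ v e e' v2.symm pe pe' (by grind) (by grind) ee
    grind
  have c1 := L.claw p₂ p₁ p₃ e p12.symm p23 pe (by grind) (by grind) (by grind)
  have c2 := L.claw p₂ p₁ p₃ e' p12.symm p23 pe' (by grind) (by grind) (by grind)
  have c3 := L.claw p₃ p₂ p₄ f p23.symm p34 pf (by grind) (by grind) (by grind)
  have c4 := L.claw p₃ p₂ p₄ f' p23.symm p34 pf' (by grind) (by grind) (by grind)
  by_cases hcase : G.Adj p₃ e ∧ G.Adj p₃ e'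
  · apply hm
    refine link hG {v, w, p₂, p₃} ?_ ?_ (s := p₁) (s' := p₄) (t := e) (t' := e') ?_ ?_ ?_ ?_
      m14 hee ?_
    · rw [card_insert_of_notMem, card_insert_of_notMem, card_insert_of_notMem, card_singleton]
      · rw [mem_singleton]; exact p23.ne
      · simp only [mem_insert, mem_singleton]; grind
      · simp only [mem_insert, mem_singleton]; grind
    · intro a ha b hb hab
      simp only [mem_insert, mem_singleton] at ha hb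
      rcases ha with rfl | rfl | rfl | rfl <;> rcases hb with rfl | rfl | rfl | rfl
      all_goals first
        | exact absurd rfl hab
        | assumption
        | (apply SimpleGraph.Adj.symm; assumption)
    · simp only [mem_insert, mem_singleton]; grind
    · simp only [mem_insert, mem_singleton]; grind
    · simp only [mem_insert, mem_singleton]; grind
    · simp only [mem_insert, mem_singleton]; grind
    · intro k hk σ τ hσ hτ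
      simp only [mem_insert, mem_singleton] at hk
      rcases hk with rfl | rfl | rfl | rfl
      · left; rcases hσ with rfl | rfl <;> assumption
      · left; rcases hσ with rfl | rfl <;> assumption
      · right; rcases hτ with rfl | rfl <;> assumption
      · right
        rcases hτ with rfl | rfl
        · exact hcase.1
        · exact hcase.2
  · have k1 : G.Adj z1 p₂ ∧ ¬ G.Adj z1 p₃ := by
      rcases not_and_or.1 hcase with h | h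
      · have h1 : G.Adj p₁ e := by grind
        have h2 := N1 e h1
        have h3 : e = z1 := by grind
        rw [← h3]
        exact ⟨pe.symm, fun h' => h h'.symm⟩
      · have h1 : G.Adj p₁ e' := by grind
        have h2 := N1 e' h1
        have h3 : e' = z1 := by grind
        rw [← h3]
        exact ⟨pe'.symm, fun h' => h h'.symm⟩
    have hff : ¬ (G.Adj p₂ f ∧ G.Adj p₂ f') := by
      rintro ⟨a, b⟩
      have h1 := N2 f a
      have h2 := N2 f' b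
      have h3 : f = e ∨ f = e' := by grind
      have h4 : f' = e ∨ f' = e' := by grind
      rcases h3 with h3 | h3 <;> rcases h4 with h4 | h4
      · exact ff (h3.trans h4.symm)
      · exact hcase ⟨h3 ▸ pf, h4 ▸ pf'⟩
      · exact hcase ⟨h4 ▸ pf', h3 ▸ pf⟩
      · exact ff (h3.trans h4.symm)
    have k4 : G.Adj z4 p₃ ∧ ¬ G.Adj z4 p₂ := by
      rcases not_and_or.1 hff with h | h
      · have h1 : G.Adj p₄ f := by grind
        have h2 := N4 f h1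
        have h3 : f = z4 := by grind
        rw [← h3]
        exact ⟨pf.symm, fun h' => h h'.symm⟩
      · have h1 : G.Adj p₄ f' := by grind
        have h2 := N4 f' h1
        have h3 : f' = z4 := by grind
        rw [← h3]
        exact ⟨pf'.symm, fun h' => h h'.symm⟩
    exact model3 hm (k₁ := v) (k₂ := w) (k₃ := p₂) (k₄ := p₃) (a := p₁) (b := x) (c := z4)
      (d := p₄) (e := y) (f := z1) vw v2 v3 w2 w3 p23 x1.symm xz4 y4.symm yz1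
      (by grind) (by grind) (by grind) (by grind) (by grind) (by grind) (by grind)
      ⟨x, Or.inr (Or.inl rfl), y, Or.inr (Or.inl rfl), hxy⟩ (Or.inl v1) (Or.inl w1)
      (Or.inl p12.symm) (Or.inr (Or.inr k4.1.symm)) (Or.inl v4) (Or.inl w4)
      (Or.inr (Or.inr k1.1.symm)) (Or.inl p34)

end Pool.Agent.LG6
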