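import Pool.Agent.LG6.T3

/-!
LG6: second case of the configuration `T3`; conclusion `T3.false`.
-/

set_option autoImplicit false

namespace Pool.Agent.LG6

open Finset

variable {V : Type} {G : SimpleGraph V} [Fintype V] [DecidableEq V]

/-- Second case: `x` is adjacent to `p₁` and `p₂`. -/
theorem T3.B (hm : ¬ HasCompleteMinor 6 G) (L : Lo G)
    {v w p₁ p₂ p₃ p₄ y x : V} (h : T3 G v w p₁ p₂ p₃ p₄ y) (wx : G.Adj w x)
    (nvx : ¬ G.Adj v x) (xv : x ≠ v) (xy : x ≠ y) (xp3 : x ≠ p₃) (xp4 : x ≠ p₄)
    (Nw : ∀ z, G.Adj w z → z = v ∨ z = p₁ ∨ z = p₂ ∨ z = p₃ ∨ z = p₄ ∨ z = x)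
    (x1 : G.Adj x p₁) (x2 : G.Adj x p₂) (nx3 : ¬ G.Adj x p₃) (nx4 : ¬ G.Adj x p₄) : False := by
  obtain ⟨vw, v1, v2, v3, v4, vy, w1, w2, w3, w4, p12, p23, p34, y1, y4, n13, n14, n24, ny2, ny3,
    nyw, m13, m14, m24, my2, my3, myw⟩ := h
  have sym := L.sym
  have irr := L.irr
  have Nv := L.all vw v1 v2 v3 v4 vy (by grind)
  obtain ⟨z1, pz1, z1v, z1w, z12, z1y, z1x, N1⟩ :=
    L.more5 v1.symm w1.symm p12 y1.symm x1.symm (by grind)
  have nvz1 : ¬ G.Adj v z1 := by grind
  have nwz1 : ¬ G.Adj w z1 := by grind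
  have xz1 : G.Adj x z1 := by
    have := L.claw p₁ v x z1 v1.symm x1.symm pz1 (by grind) (by grind) (by grind)
    grind
  have yz1 : G.Adj y z1 := by
    have := L.claw p₁ w y z1 w1.symm y1.symm pz1 (by grind) (by grind) (by grind)
    grind
  have nxy : ¬ G.Adj x y := fun hxy =>
    L.dom p₁ v w p₂ x y z1 v1.symm w1.symm p12 x1.symm y1.symm pz1 vw v2 w2 hxy (by grind)
      (Or.inr vy) (Or.inl wx) (Or.inl x2.symm)
  obtain ⟨c, pc, cv, cw, c1, c3, cx, N2⟩ :=
    L.more5 v2.symm w2.symm p12.symm p23 x2.symm (by grind)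
  have nvc : ¬ G.Adj v c := by grind
  have nwc : ¬ G.Adj w c := by grind
  have xc : G.Adj x c := by
    have := L.claw p₂ v x c v2.symm x2.symm pc (by grind) (by grind) (by grind)
    grind
  by_cases hz : G.Adj z1 p₂
  · -- case A
    have hcz : c = z1 := by
      have := N2 z1 hz.symm
      grind
    subst hcz
    have nz3 : ¬ G.Adj p₃ c := fun h3 =>
      L.dom p₂ v w p₁ p₃ c x v2.symm w2.symm p12.symm p23 pc x2.symm vw v1 w1 h3 (by grind)
        (Or.inl v3) (Or.inl w3) (Or.inr pz1)
    obtain ⟨f, f', pf, pf', ff, ⟨fv, fw, f2, f4⟩, ⟨fv', fw', f2', f4'⟩, N3⟩ :=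
      L.more4 v3.symm w3.symm p23.symm p34 (by grind)
    have nvf : ¬ G.Adj v f := by grind
    have nvf' : ¬ G.Adj v f' := by grind
    have nwf : ¬ G.Adj w f := by grind
    have nwf' : ¬ G.Adj w f' := by grind
    have n2f : ¬ G.Adj p₂ f := by grind
    have n2f' : ¬ G.Adj p₂ f' := by grind
    have p4f : G.Adj p₄ f := by
      have := L.claw p₃ p₂ p₄ f p23.symm p34 pf (by grind) (by grind) (by grind)
      grind
    have p4f' : G.Adj p₄ f' := by
      have := L.claw p₃ p₂ p₄ f' p23.symm p34 pf' (by grind) (by grind) (by grind)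
      grind
    have hff : G.Adj f f' := by
      have := L.claw p₃ v f f' v3.symm pf pf' (by grind) (by grind) ff
      grind
    have yf : G.Adj y f := by
      have := L.claw p₄ w y f w4.symm y4.symm p4f (by grind) (by grind) (by grind)
      grind
    have yf' : G.Adj y f' := by
      have := L.claw p₄ w y f' w4.symm y4.symm p4f' (by grind) (by grind) (by grind)
      grind
    exact L.dom p₄ p₃ f f' v y w p34.symm p4f p4f' v4.symm y4.symm w4.symm pf pf' hff vy
      (by grind) (Or.inl v3.symm) (Or.inr yf.symm) (Or.inr yf'.symm)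
  · -- case B
    have hcz : c ≠ z1 := fun h => hz (h ▸ pc.symm)
    have n1c : ¬ G.Adj p₁ c := by grind
    have p3c : G.Adj p₃ c := by
      have := L.claw p₂ p₁ p₃ c p12.symm p23 pc (by grind) (by grind) (by grind)
      grind
    obtain ⟨f, pf, fv, fw, f2, f4, fc, N3⟩ :=
      L.more5 v3.symm w3.symm p23.symm p34 p3c (by grind)
    have nvf : ¬ G.Adj v f := by grind
    have nwf : ¬ G.Adj w f := by grind
    have n2f : ¬ G.Adj p₂ f := by grind
    have cf : G.Adj c f := by
      have := L.claw p₃ w c f w3.symm p3c pf (by grind) (by grind) (by grind)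
      grind
    have p4f : G.Adj p₄ f := by
      have := L.claw p₃ p₂ p₄ f p23.symm p34 pf (by grind) (by grind) (by grind)
      grind
    have ncp4 : ¬ G.Adj p₄ c := fun h4 =>
      L.dom p₃ v w p₄ p₂ c f v3.symm w3.symm p34 p23.symm p3c pf vw v4 w4 pc (by grind)
        (Or.inl v2) (Or.inl w2) (Or.inr h4)
    obtain ⟨g, pg, gv, gw, g3, gy, gf, N4⟩ :=
      L.more5 v4.symm w4.symm p34.symm y4.symm p4f (by grind)
    have nvg : ¬ G.Adj v g := by grind
    have nwg : ¬ G.Adj w g := by grind
    have fg : G.Adj f g := by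
      have := L.claw p₄ v f g v4.symm p4f pg (by grind) (by grind) (by grind)
      grind
    have yf : G.Adj y f := by
      have := L.claw p₄ w y f w4.symm y4.symm p4f (by grind) (by grind) (by grind)
      grind
    have yg : G.Adj y g := by
      have := L.claw p₄ w y g w4.symm y4.symm pg (by grind) (by grind) (by grind)
      grind
    have z1c : G.Adj z1 c := by
      have := L.claw x w z1 c wx.symm xz1 xc (by grind) (by grind) (by grind)
      grind
    by_cases h1 : z1 = f
    · subst h1
      exact L.seven pz1.symm yz1.symm xz1.symm pf.symm p4f.symm z1c fg (by grind)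
    · by_cases h2 : z1 = g
      · subst h2
        obtain ⟨j, yj, jv, j1, j4, jz, jf, Ny⟩ :=
          L.more5 vy.symm y1 y4 yz1 yf (by grind)
        have hn : ¬ G.Adj v j := by grind
        have hn1 : ¬ G.Adj p₁ j := by grind
        have hn4 : ¬ G.Adj p₄ j := by grind
        have := L.claw y p₁ p₄ j y1 y4 yj (by grind) (by grind) (by grind)
        grind
      · have Ny := L.all vy.symm y1 y4 yz1 yf yg (by grind)
        have z1f : G.Adj z1 f := by
          have := L.claw y v z1 f vy.symm yz1 yf (by grind) (by grind) (by grind)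
          grind
        have z1g : G.Adj z1 g := by
          have := L.claw y v z1 g vy.symm yz1 yg (by grind) (by grind) (by grind)
          grind
        obtain ⟨u, xu, uw, u1, u2, uz, uc, Nx⟩ :=
          L.more5 wx.symm x1 x2 xz1 xc (by grind)
        have nwu : ¬ G.Adj w u := by grind
        have z1u : G.Adj z1 u := by
          have := L.claw x w z1 u wx.symm xz1 xu (by grind) (by grind) (by grind)
          grind
        have cu : G.Adj c u := by
          have := L.claw x w c u wx.symm xc xu (by grind) (by grind) (by grind)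
          grind
        by_cases huf : u = f
        · subst huf
          exact L.seven pf.symm p4f.symm cf.symm yf.symm fg z1f.symm xu.symm (by grind)
        · by_cases hug : u = g
          · subst hug
            exact model3 hm (k₁ := v) (k₂ := w) (k₃ := p₁) (k₄ := p₂) (a := x) (b := u) (c := p₄)
              (d := p₃) (e := f) (f := z1) vw v1 v2 w1 w2 p12 xu pg.symm pf z1f.symm
              (by grind) (by grind) (by grind) (by grind) (by grind) (by grind) (by grind)
              ⟨p₄, Or.inr (Or.inr rfl), p₃, Or.inl rfl, p34.symm⟩ (Or.inr (Or.inr v4))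
              (Or.inl wx) (Or.inl x1.symm) (Or.inl x2.symm) (Or.inl v3) (Or.inl w3)
              (Or.inr (Or.inr pz1)) (Or.inl p23)
          · have q1 : p₁ ≠ f := fun h => nvf (h ▸ v1)
            have q2 : p₁ ≠ g := fun h => nvg (h ▸ v1)
            have q3 : y ≠ f := fun h => nvf (h ▸ vy)
            have q4 : y ≠ c := fun h => nvc (h ▸ vy)
            have q5 : y ≠ u := fun h => nxy (h ▸ xu)
            have q6 : x ≠ f := fun h => nwf (h ▸ wx)
            have q7 : x ≠ g := fun h => nwg (h ▸ wx)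
            have q8 : g ≠ c := fun h => ncp4 (h ▸ pg)
            exact L.seven pz1.symm yz1.symm xz1.symm z1f z1g z1c z1u
              ⟨y1.ne.symm, x1.ne.symm, q1, q2, Ne.symm c1, Ne.symm u1, Ne.symm xy, q3, Ne.symm gy,
                q4, q5, q6, q7, Ne.symm cx, xu.ne, Ne.symm gf, fc, Ne.symm huf, q8,
                Ne.symm hug, Ne.symm uc⟩

/-- The configuration `T3` does not occur. -/
theorem T3.false (hG : IsKConnected 6 G) (hm : ¬ HasCompleteMinor 6 G) (L : Lo G)
    {v w p₁ p₂ p₃ p₄ y : V} (h : T3 G v w p₁ p₂ p₃ p₄ y) : False := by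
  obtain ⟨x, wx, nvx, xv, x1, x2, x3, x4, xy, Nw, hx⟩ := h.x L
  rcases hx with ⟨a, b, c, d⟩ | ⟨a, b, c, d⟩ | ⟨a, b, c, d⟩
  · exact T3.A hG hm L h wx nvx xv xy Nw a b c d
  · exact T3.B hm L h wx nvx xv xy x3 x4 Nw a b c d
  · exact T3.B hm L h.rev wx nvx xv xy x2 x1 (fun z hz => by have := Nw z hz; tauto) a b c d

end Pool.Agent.LG6
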